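import Mathlib
import Pool.Agent.LibOC52.A
import Pool.Agent.LibOC52.X3

set_option autoImplicit false
set_option linter.unusedSectionVars false

/-!
# LibMC91 (MP_d417b4 Q1, graphs with several cores)
-/

namespace Pool.Agent.LibMC91

open Finset Pool.Agent.LibMST Pool.Agent.LibMSB Pool.Agent.LibOC52

variable {V : Type*} [Fintype V] [DecidableEq V]

/-- The edges of `E` inside `X`. -/
def ein (E : Finset (Sym2 V)) (X : Finset V) : Finset (Sym2 V) := E.filter (fun e => ∀ v ∈ e, v ∈ X)

/-- Number of trees of `E` inside `X`. -/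
noncomputable def no (X : Finset V) (E : Finset (Sym2 V)) : ℕ := (tc X E).card

/-- Sum of the orders of the trees of `E` inside `X`. -/
noncomputable def so (X : Finset V) (E : Finset (Sym2 V)) : ℕ := ∑ p ∈ tc X E, p.1.card

/-- The trees of `E` inside `X` which contain `x`. -/
noncomputable def rt (X : Finset V) (E : Finset (Sym2 V)) (x : V) : Finset (Finset V × Finset (Sym2 V)) :=
  (tc X E).filter (fun p => x ∈ p.1)

noncomputable def nr (X : Finset V) (E : Finset (Sym2 V)) (x : V) : ℕ := (rt X E x).card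

noncomputable def sr (X : Finset V) (E : Finset (Sym2 V)) (x : V) : ℕ := ∑ p ∈ rt X E x, p.1.card

/-- The mean order of the trees inside `X` is at most the mean order of all trees. -/
def Lo (E : Finset (Sym2 V)) (X : Finset V) : Prop := no univ E * so X E ≤ so univ E * no X E

/-- `x y` is the only edge between `X` and its complement. -/
def Cut (E : Finset (Sym2 V)) (X : Finset V) (x y : V) : Prop :=
  x ∈ X ∧ y ∉ X ∧ s(x, y) ∈ E ∧ ∀ u ∈ X, ∀ v, v ∉ X → s(u, v) ∈ E → u = x ∧ v = y

open Classical in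
/-- The edges which are not bridges. -/
noncomputable def nb (E : Finset (Sym2 V)) : Finset (Sym2 V) := E.filter (fun e => Cn (E.erase e) univ)

/-- `C` is the vertex set of a core: a component (with an edge) of the graph of the edges which are not bridges. -/
structure Core (E : Finset (Sym2 V)) (C : Finset V) : Prop where
  ne : ∃ e ∈ nb E, ∀ v ∈ e, v ∈ C
  conn : Cn (ein (nb E) C) C
  closed : ∀ u ∈ C, ∀ v, s(u, v) ∈ nb E → v ∈ C

/-- `r` is the root function of `C`: the identity on `C`, and constant along the edges of `E` which are not inside `C`. -/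
structure Root (E : Finset (Sym2 V)) (C : Finset V) (r : V → V) : Prop where
  mem : ∀ v, r v ∈ C
  id : ∀ v ∈ C, r v = v
  edge : ∀ u v, s(u, v) ∈ E → ¬ (u ∈ C ∧ v ∈ C) → r u = r v

/-- number of the trees hanging at `h`: trees without edges inside `C` which contain `h` -/
noncomputable def wh (E : Finset (Sym2 V)) (C : Finset V) (h : V) : ℕ := nr univ (E \ ein E C) h
noncomputable def sh (E : Finset (Sym2 V)) (C : Finset V) (h : V) : ℕ := sr univ (E \ ein E C) h

theorem mem_ein {E : Finset (Sym2 V)} {X : Finset V} {e : Sym2 V} : e ∈ ein E X ↔ e ∈ E ∧ ∀ v ∈ e, v ∈ X := by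
  unfold ein; rw [mem_filter]

theorem mem_rt {X : Finset V} {E : Finset (Sym2 V)} {x : V} {p : Finset V × Finset (Sym2 V)} :
    p ∈ rt X E x ↔ ((p.2 ⊆ E ∧ ∃ r, Grow r p.1 p.2) ∧ p.1 ⊆ X) ∧ x ∈ p.1 := by
  unfold rt; rw [mem_filter, mem_tc]

theorem mem_nb {E : Finset (Sym2 V)} {e : Sym2 V} : e ∈ nb E ↔ e ∈ E ∧ Cn (E.erase e) univ := by
  classical
  unfold nb; rw [mem_filter]

theorem tc_ein (E : Finset (Sym2 V)) (X : Finset V) : tc X (ein E X) = tc X E := by
  ext p
  rw [mem_tc, mem_tc]
  constructor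
  · rintro ⟨⟨h1, h2⟩, h3⟩
    exact ⟨⟨fun e he => (mem_ein.1 (h1 he)).1, h2⟩, h3⟩
  · rintro ⟨⟨h1, r, h2⟩, h3⟩
    exact ⟨⟨fun e he => mem_ein.2 ⟨h1 he, fun v hv => h3 (h2.edge_sub e he v hv)⟩, r, h2⟩, h3⟩

end Pool.Agent.LibMC91
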