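import Mathlib
import Pool.Agent.LibMC91.Sig

set_option autoImplicit false
set_option linter.unusedSectionVars false

namespace Pool.Agent.LibMC91

open Finset Pool.Agent.LibMST Pool.Agent.LibMSB Pool.Agent.LibOC52

variable {V : Type*} [Fintype V] [DecidableEq V]

/-- a connected set lies on one side if no inner edge leaves -/
private theorem side {E : Finset (Sym2 V)} {Z U : Finset V} (hZc : Cn (ein E Z) Z)
    (hU : ∀ u ∈ U, ∀ v, v ∉ U → s(u, v) ∈ E → ¬ (u ∈ Z ∧ v ∈ Z)) : (∀ v ∈ Z, v ∈ U) ∨ ∀ v ∈ Z, v ∉ U := by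
  by_contra hc
  push Not at hc
  obtain ⟨⟨a, ha, ha'⟩, b, hb, hb'⟩ := hc
  obtain ⟨u, hu, h, hh, hn, he⟩ := hZc (U ∩ Z) inter_subset_right ⟨b, mem_inter.2 ⟨hb', hb⟩⟩ (by
    intro e
    rw [← e] at ha
    exact ha' (mem_inter.1 ha).1)
  rw [mem_ein] at he
  exact hU u (mem_inter.1 hu).1 h (fun h' => hn (mem_inter.2 ⟨h', hh⟩)) he.1 ⟨(mem_inter.1 hu).2, hh⟩

/-- ROW 10 (a component `Z` of the complement of a connected `K` all of whose edges to `K` are bridges is the side of a cut). -/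
theorem cut_of_comp {E : Finset (Sym2 V)} {Z K : Finset V} (hE : Cn E univ) (hZ : Z.Nonempty)
    (hZc : Cn (ein E Z) Z) (hKc : Cn (ein E K) K) (hd : Disjoint Z K)
    (hZK : ∀ u ∈ Z, ∀ v, v ∉ Z → s(u, v) ∈ E → v ∈ K ∧ s(u, v) ∉ nb E) (hK : K.Nonempty) :
    ∃ z k, k ∈ K ∧ Cut E Z z k := by
  have hdis : ∀ v ∈ Z, v ∉ K := fun v hv hk => (disjoint_left.1 hd) hv hk
  obtain ⟨k0, hk0⟩ := hK
  obtain ⟨z, hz, k, -, hk, he⟩ := hE Z (subset_univ _) hZ (by
    intro e
    exact hdis k0 (by rw [e]; exact mem_univ _) hk0)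
  obtain ⟨hkK, hnb⟩ := hZK z hz k hk he
  refine ⟨z, k, hkK, hz, hk, he, ?_⟩
  intro u hu v hv huv
  by_contra hne
  apply hnb
  rw [mem_nb]
  refine ⟨he, ?_⟩
  have huvne : s(u, v) ≠ s(z, k) := by
    intro h
    rw [Sym2.eq_iff] at h
    rcases h with ⟨h1, h2⟩ | ⟨h1, h2⟩
    · exact hne ⟨h1, h2⟩
    · rw [h1] at hu
      exact hk hu
  obtain ⟨hvK, -⟩ := hZK u hu v hv huv
  intro U _ hUne hUu
  by_contra hc
  push Not at hc
  have hall : ∀ a ∈ U, ∀ b, b ∉ U → s(a, b) ∈ E → s(a, b) = s(z, k) := by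
    intro a ha b hb hab
    by_contra hab2
    exact hc a ha b (mem_univ _) hb (mem_erase.2 ⟨hab2, hab⟩)
  have hzs := side (U := U) hZc (fun a ha b hb hab hab2 => by
    have := hall a ha b hb hab
    rw [Sym2.eq_iff] at this
    rcases this with ⟨-, h2⟩ | ⟨h1, -⟩
    · rw [h2] at hab2
      exact hk hab2.2
    · rw [h1] at hab2
      exact hk hab2.1)
  have hks := side (U := U) hKc (fun a ha b hb hab hab2 => by
    have := hall a ha b hb hab
    rw [Sym2.eq_iff] at this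
    rcases this with ⟨h1, -⟩ | ⟨-, h2⟩
    · rw [h1] at hab2
      exact hdis z hz hab2.1
    · rw [h2] at hab2
      exact hdis z hz hab2.2)
  obtain ⟨a, ha, b, -, hb, hab⟩ := hE U (subset_univ _) hUne hUu
  have hab1 := hall a ha b hb hab
  rw [Sym2.eq_iff] at hab1
  rcases hab1 with ⟨h1, h2⟩ | ⟨h1, h2⟩
  · rw [h1] at ha
    rw [h2] at hb
    have h3 : ∀ v ∈ Z, v ∈ U := by
      rcases hzs with h | h
      · exact h
      · exact absurd ha (h z hz)
    have h4 : ∀ v ∈ K, v ∉ U := by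
      rcases hks with h | h
      · exact absurd (h k hkK) hb
      · exact h
    exact huvne (hall u (h3 u hu) v (h4 v hvK) huv)
  · rw [h1] at ha
    rw [h2] at hb
    have h3 : ∀ v ∈ Z, v ∉ U := by
      rcases hzs with h | h
      · exact absurd (h z hz) hb
      · exact h
    have h4 : ∀ v ∈ K, v ∈ U := by
      rcases hks with h | h
      · exact h
      · exact absurd ha (h k hkK)
    have h5 := hall v (h4 v hvK) u (h3 u hu) (by rw [Sym2.eq_swap]; exact huv)
    rw [Sym2.eq_swap] at h5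
    exact huvne h5

end Pool.Agent.LibMC91
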