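import Mathlib
import Pool.Agent.LibMC91.Sig

set_option autoImplicit false
set_option linter.unusedSectionVars false

namespace Pool.Agent.LibMC91

open Finset Pool.Agent.LibMST Pool.Agent.LibMSB Pool.Agent.LibOC52

variable {V : Type*} [Fintype V] [DecidableEq V]

private theorem tc_split {E : Finset (Sym2 V)} {Y Z : Finset V} (hd : Disjoint Y Z)
    (hno : ∀ u ∈ Y, ∀ v ∈ Z, s(u, v) ∉ E) : tc (Y ∪ Z) E = tc Y E ∪ tc Z E ∧ Disjoint (tc Y E) (tc Z E) := by
  constructor
  · ext p
    rw [mem_union, mem_tc, mem_tc, mem_tc]
    constructor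
    · rintro ⟨⟨h1, r, h2⟩, h3⟩
      have hr := h3 h2.root_mem
      rw [mem_union] at hr
      have hedge : ∀ e ∈ p.2, (∀ v ∈ e, v ∈ Y) ∨ (∀ v ∈ e, v ∈ Z) := by
        intro e he
        have hv := fun v hv => h3 (h2.edge_sub e he v hv)
        have heE := h1 he
        induction e using Sym2.ind with
        | _ a b =>
          have ha := hv a (Sym2.mem_mk_left a b)
          have hb := hv b (Sym2.mem_mk_right a b)
          rw [mem_union] at ha hb
          rcases ha with ha | ha
          · rcases hb with hb | hb
            · left; intro v hv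
              rcases Sym2.mem_iff.1 hv with rfl | rfl
              · exact ha
              · exact hb
            · exact absurd heE (hno a ha b hb)
          · rcases hb with hb | hb
            · rw [Sym2.eq_swap] at heE
              exact absurd heE (hno b hb a ha)
            · right; intro v hv
              rcases Sym2.mem_iff.1 hv with rfl | rfl
              · exact ha
              · exact hb
      rcases hr with hr | hr
      · left
        refine ⟨⟨h1, r, h2⟩, ?_⟩
        intro v hv
        refine h2.sub_of_closed (fun v => v ∈ Y) hr ?_ v hv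
        intro e he
        rcases hedge e he with h | h
        · exact Or.inl h
        · exact Or.inr (fun v hv h' => disjoint_left.1 hd h' (h v hv))
      · right
        refine ⟨⟨h1, r, h2⟩, ?_⟩
        intro v hv
        refine h2.sub_of_closed (fun v => v ∈ Z) hr ?_ v hv
        intro e he
        rcases hedge e he with h | h
        · exact Or.inr (fun v hv h' => disjoint_left.1 hd (h v hv) h')
        · exact Or.inl h
    · rintro (⟨h1, h2⟩ | ⟨h1, h2⟩)
      · exact ⟨h1, h2.trans subset_union_left⟩
      · exact ⟨h1, h2.trans subset_union_right⟩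
  · rw [disjoint_left]
    intro p h1 h2
    rw [mem_tc] at h1 h2
    obtain ⟨⟨_, r, h⟩, h3⟩ := h1
    exact disjoint_left.1 hd (h3 h.root_mem) (h2.2 h.root_mem)

theorem lo_union {E : Finset (Sym2 V)} {Y Z : Finset V} (hd : Disjoint Y Z)
    (hno : ∀ u ∈ Y, ∀ v ∈ Z, s(u, v) ∉ E) (hY : Lo E Y) (hZ : Lo E Z) : Lo E (Y ∪ Z) := by
  obtain ⟨h1, h2⟩ := tc_split hd hno
  have hn : no (Y ∪ Z) E = no Y E + no Z E := by
    unfold no; rw [h1, card_union_of_disjoint h2]
  have hs : so (Y ∪ Z) E = so Y E + so Z E := by
    unfold so; rw [h1, sum_union h2]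
  unfold Lo at *
  rw [hn, hs, mul_add, mul_add]
  exact Nat.add_le_add hY hZ

end Pool.Agent.LibMC91
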