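import Mathlib
import Pool.Agent.LibMC91.Sig
import Pool.Agent.LibMC91.R8

set_option autoImplicit false
set_option linter.unusedSectionVars false

/-!
# LibMC91, row 9 (reduction of `Lo E Y` to the components of `Y`)
-/

namespace Pool.Agent.LibMC91

open Finset Pool.Agent.LibMST Pool.Agent.LibMSB Pool.Agent.LibOC52

variable {V : Type*} [Fintype V] [DecidableEq V]

private theorem tc_empty9 (E : Finset (Sym2 V)) : tc (∅ : Finset V) E = ∅ := by
  rw [Finset.eq_empty_iff_forall_notMem]
  intro p hp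
  rw [mem_tc] at hp
  obtain ⟨⟨_, r, hr⟩, hs⟩ := hp
  exact absurd (hs hr.root_mem) (notMem_empty r)

private theorem lo_empty9 (E : Finset (Sym2 V)) : Lo E (∅ : Finset V) := by
  unfold Lo so no
  rw [tc_empty9]
  simp

private theorem comp_aux9 {E : Finset (Sym2 V)} (n : ℕ) : ∀ Y : Finset V, Y.card ≤ n →
    (∀ Z ⊆ Y, Z.Nonempty → Cn (ein E Z) Z → (∀ u ∈ Z, ∀ v ∈ Y, v ∉ Z → s(u, v) ∉ E) → Lo E Z) → Lo E Y := by
  induction n with
  | zero =>
    intro Y hn _
    have hY : Y = ∅ := card_eq_zero.1 (Nat.le_zero.1 hn)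
    rw [hY]
    exact lo_empty9 E
  | succ n ih =>
    intro Y hn h
    rcases Y.eq_empty_or_nonempty with hY | hY
    · rw [hY]
      exact lo_empty9 E
    by_cases hc : Cn (ein E Y) Y
    · exact h Y (Subset.refl _) hY hc (fun u _ v hv hnv => absurd hv hnv)
    · unfold Cn at hc
      push Not at hc
      obtain ⟨U, hUY, hUne, hUn, hU⟩ := hc
      have hno : ∀ u ∈ U, ∀ v ∈ Y \ U, s(u, v) ∉ E := by
        intro u hu v hv he
        rw [mem_sdiff] at hv
        refine hU u hu v hv.1 hv.2 (mem_ein.2 ⟨he, ?_⟩)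
        intro w hw
        rw [Sym2.mem_iff] at hw
        rcases hw with rfl | rfl
        · exact hUY hu
        · exact hv.1
      have hss : U ⊂ Y := lt_of_le_of_ne hUY hUn
      have hlt : U.card < Y.card := card_lt_card hss
      have hpos : 0 < U.card := card_pos.2 hUne
      have hcard : (Y \ U).card = Y.card - U.card := card_sdiff_of_subset hUY
      have h1 : Lo E U := by
        refine ih U (by omega) ?_
        intro Z hZU hZ hZc hcl
        refine h Z (hZU.trans hUY) hZ hZc ?_
        intro u hu v hv hvZ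
        by_cases hvU : v ∈ U
        · exact hcl u hu v hvU hvZ
        · exact hno u (hZU hu) v (mem_sdiff.2 ⟨hv, hvU⟩)
      have h2 : Lo E (Y \ U) := by
        refine ih (Y \ U) (by omega) ?_
        intro Z hZU hZ hZc hcl
        refine h Z (hZU.trans sdiff_subset) hZ hZc ?_
        intro u hu v hv hvZ
        by_cases hvU : v ∈ U
        · rw [Sym2.eq_swap]
          exact hno v hvU u (hZU hu)
        · exact hcl u hu v (mem_sdiff.2 ⟨hv, hvU⟩) hvZ
      have h3 : U ∪ (Y \ U) = Y := union_sdiff_of_subset hUY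
      have h4 := lo_union (E := E) disjoint_sdiff hno h1 h2
      rw [h3] at h4
      exact h4

/-- ROW 9. -/
theorem comp {E : Finset (Sym2 V)} (Y : Finset V)
    (h : ∀ Z ⊆ Y, Z.Nonempty → Cn (ein E Z) Z → (∀ u ∈ Z, ∀ v ∈ Y, v ∉ Z → s(u, v) ∉ E) → Lo E Z) : Lo E Y :=
  comp_aux9 Y.card Y le_rfl h

end Pool.Agent.LibMC91
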