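import Mathlib
import Pool.Agent.LibMC91.Sig
import Pool.Agent.LibMC91.R7
import Pool.Agent.LibMC91.R9
import Pool.Agent.LibMC91.R10

set_option autoImplicit false
set_option linter.unusedSectionVars false

namespace Pool.Agent.LibMC91

open Finset Pool.Agent.LibMST Pool.Agent.LibMSB Pool.Agent.LibOC52

variable {V : Type*} [Fintype V] [DecidableEq V]


/-- ROW 11 (tree sides; strong induction on `X.card`, rows 7, 9, 10 with K = {x}). -/
theorem lo_tree {E : Finset (Sym2 V)} {X : Finset V} {x y : V} (hE : Cn E univ) (h : Cut E X x y)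
    (hno : ∀ e ∈ nb E, ¬ ∀ v ∈ e, v ∈ X) : Lo E X := by
  obtain ⟨n, hn⟩ : ∃ n, X.card = n := ⟨_, rfl⟩
  induction n using Nat.strong_induction_on generalizing X x y with
  | _ n ih =>
    apply lo_of_erase hE h
    apply comp
    intro Z hZY hZne hZc hZo
    have hxX : x ∈ X := h.1
    have hsub : ∀ u ∈ Z, u ∈ X ∧ u ≠ x := by
      intro u hu
      have := hZY hu
      rw [mem_erase] at this
      exact ⟨this.2, this.1⟩
    have hxZ : x ∉ Z := fun hx => (hsub x hx).2 rfl
    have hKc : Cn (ein E {x}) {x} := by
      intro U hU hUne hUx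
      exfalso
      apply hUx
      obtain ⟨u, hu⟩ := hUne
      have hux : u = x := by simpa using hU hu
      apply Subset.antisymm hU
      intro v hv
      rw [mem_singleton] at hv
      rw [hv, ← hux]
      exact hu
    obtain ⟨z, k, hk, hcut⟩ := cut_of_comp (K := {x}) hE hZne hZc hKc
      (disjoint_singleton_right.mpr hxZ) (by
        intro u hu v hv he
        have huX := hsub u hu
        have hvX : v ∈ X := by
          by_contra hvX
          exact huX.2 (h.2.2.2 u huX.1 v hvX he).1
        have hvx : v = x := by
          by_contra hvx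
          exact hZo u hu v (mem_erase.mpr ⟨hvx, hvX⟩) hv he
        refine ⟨by rw [hvx]; exact mem_singleton_self x, fun hnb => ?_⟩
        apply hno _ hnb
        intro w hw
        rw [Sym2.mem_iff] at hw
        rcases hw with rfl | rfl
        · exact huX.1
        · exact hvX) (singleton_nonempty x)
    refine ih Z.card ?_ hcut ?_ rfl
    · rw [← hn]
      apply card_lt_card
      refine ⟨fun u hu => (hsub u hu).1, fun hXZ => hxZ (hXZ hxX)⟩
    · intro e he hin
      exact hno e he (fun v hv => (hsub v (hin v hv)).1)

end Pool.Agent.LibMC91
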