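import Mathlib
import Pool.Agent.LibMC91.Sig

set_option autoImplicit false
set_option linter.unusedSectionVars false

namespace Pool.Agent.LibMC91

open Finset Pool.Agent.LibMST Pool.Agent.LibMSB Pool.Agent.LibOC52

variable {V : Type*} [Fintype V] [DecidableEq V]

private theorem r5_cut_comm {E : Finset (Sym2 V)} {X : Finset V} {x y : V} (h : Cut E X x y) :
    Cut E Xᶜ y x := by
  obtain ⟨h1, h2, h3, h4⟩ := h
  refine ⟨mem_compl.2 h2, fun hc => (mem_compl.1 hc) h1, by rw [Sym2.eq_swap]; exact h3, ?_⟩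
  intro u hu v hv he
  have hv' : v ∈ X := by
    by_contra hc
    exact hv (mem_compl.2 hc)
  obtain ⟨e1, e2⟩ := h4 v hv' u (mem_compl.1 hu) (by rw [Sym2.eq_swap]; exact he)
  exact ⟨e2, e1⟩

private theorem r5_conn {E : Finset (Sym2 V)} {X : Finset V} {x y : V} (hE : Cn E univ)
    (h : Cut E X x y) : Cn (ein E X) X := by
  obtain ⟨h1, h2, h3, h4⟩ := h
  intro U hU hne hneX
  by_cases hx : x ∈ U
  · obtain ⟨a, haX, haU⟩ : ∃ a, a ∈ X ∧ a ∉ U := by
      by_contra hc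
      push Not at hc
      exact hneX (Finset.Subset.antisymm hU hc)
    have hyn : y ∉ X \ U := fun hy => h2 (mem_sdiff.1 hy).1
    have hnu : X \ U ≠ univ := fun hc => hyn (hc ▸ mem_univ y)
    obtain ⟨u, hu, v, -, hv, he⟩ := hE (X \ U) (subset_univ _) ⟨a, mem_sdiff.2 ⟨haX, haU⟩⟩ hnu
    obtain ⟨huX, huU⟩ := mem_sdiff.1 hu
    have hvX : v ∈ X := by
      by_contra hc
      exact huU ((h4 u huX v hc he).1 ▸ hx)
    have hvU : v ∈ U := by
      by_contra hc
      exact hv (mem_sdiff.2 ⟨hvX, hc⟩)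
    refine ⟨v, hvU, u, huX, huU, ?_⟩
    rw [Sym2.eq_swap]
    refine mem_ein.2 ⟨he, ?_⟩
    intro w hw
    rcases Sym2.mem_iff.1 hw with rfl | rfl
    · exact huX
    · exact hvX
  · have hyn : y ∉ U := fun hy => h2 (hU hy)
    have hnu : U ≠ univ := fun hc => hyn (hc ▸ mem_univ y)
    obtain ⟨u, hu, v, -, hv, he⟩ := hE U (subset_univ _) hne hnu
    have hvX : v ∈ X := by
      by_contra hc
      exact hx ((h4 u (hU hu) v hc he).1 ▸ hu)
    refine ⟨u, hu, v, hvX, hv, mem_ein.2 ⟨he, ?_⟩⟩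
    intro w hw
    rcases Sym2.mem_iff.1 hw with rfl | rfl
    · exact hU hu
    · exact hvX

/-- ROW 5 (sides of a cut are connected). -/
theorem cut_conn {E : Finset (Sym2 V)} {X : Finset V} {x y : V} (hE : Cn E univ) (h : Cut E X x y) :
    Cn (ein E X) X ∧ Cn (ein E Xᶜ) Xᶜ ∧ Cut E Xᶜ y x :=
  ⟨r5_conn hE h, r5_conn hE (r5_cut_comm h), r5_cut_comm h⟩

end Pool.Agent.LibMC91
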