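import Mathlib
import Pool.Agent.LibMC91.Sig

set_option autoImplicit false
set_option linter.unusedSectionVars false

namespace Pool.Agent.LibMC91

open Finset Pool.Agent.LibMST Pool.Agent.LibMSB Pool.Agent.LibOC52

variable {V : Type*} [Fintype V] [DecidableEq V]

private def jn (x y : V) (p q : Finset V × Finset (Sym2 V)) : Finset V × Finset (Sym2 V) :=
  (p.1 ∪ q.1, insert s(x, y) (p.2 ∪ q.2))

private theorem r1_join {x y : V} {A : Finset V} {A' : Finset (Sym2 V)} (hA : Grow x A A')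
    {B : Finset V} {B' : Finset (Sym2 V)} (hB : Grow y B B') (hd : Disjoint A B) :
    Grow x (A ∪ B) (insert s(x, y) (A' ∪ B')) := by
  induction hB with
  | base =>
    have hy : y ∉ A := fun h => disjoint_left.mp hd h (mem_singleton_self y)
    have h1 := hA.step hA.root_mem hy
    have e1 : A ∪ {y} = insert y A := by rw [union_comm]; rfl
    rw [e1, union_empty]
    exact h1
  | @step C B0 a w h ha hw ih =>
    have hd' : Disjoint A C := disjoint_of_subset_right (subset_insert _ _) hd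
    have h1 := ih hd'
    have hwA : w ∉ A := fun h => disjoint_left.mp hd h (mem_insert_self w C)
    have h2 := h1.step (mem_union_right A ha) (w := w) (by
      rw [mem_union]
      rintro (h3 | h3)
      · exact hwA h3
      · exact hw h3)
    rw [union_insert, union_insert, insert_comm]
    exact h2

private theorem r1_dec {E : Finset (Sym2 V)} {X : Finset V} {x y : V} (h : Cut E X x y) {r : V}
    {C : Finset V} {B : Finset (Sym2 V)} (hg : Grow r C B) (hB : B ⊆ E) :
    C ⊆ X ∨ C ⊆ Xᶜ ∨ ∃ p ∈ rt X E x, ∃ q ∈ rt Xᶜ E y, (C, B) = jn x y p q := by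
  obtain ⟨hx, hy, hxy, hcut⟩ := h
  induction hg with
  | base =>
    by_cases hr : r ∈ X
    · exact Or.inl (singleton_subset_iff.mpr hr)
    · exact Or.inr (Or.inl (singleton_subset_iff.mpr (mem_compl.mpr hr)))
  | @step C B a w hg ha hw ih =>
    have hBE : B ⊆ E := (subset_insert _ _).trans hB
    have haw : s(a, w) ∈ E := hB (mem_insert_self _ _)
    rcases ih hBE with h1 | h1 | ⟨p, hp, q, hq, hpq⟩
    · by_cases hwX : w ∈ X
      · exact Or.inl (insert_subset hwX h1)
      · obtain ⟨rfl, rfl⟩ := hcut a (h1 ha) w hwX haw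
        refine Or.inr (Or.inr ⟨(C, B), ?_, ({w}, ∅), ?_, ?_⟩)
        · rw [mem_rt]
          exact ⟨⟨⟨hBE, r, hg⟩, h1⟩, ha⟩
        · rw [mem_rt]
          exact ⟨⟨⟨empty_subset _, w, Grow.base⟩, singleton_subset_iff.mpr (mem_compl.mpr hwX)⟩,
            mem_singleton_self w⟩
        · unfold jn
          ext1
          · show insert w C = C ∪ {w}
            rw [union_comm]; rfl
          · show insert s(a, w) B = insert s(a, w) (B ∪ ∅)
            rw [union_empty]
    · by_cases hwX : w ∈ X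
      · obtain ⟨rfl, rfl⟩ := hcut w hwX a (mem_compl.mp (h1 ha)) (by rw [Sym2.eq_swap]; exact haw)
        refine Or.inr (Or.inr ⟨({w}, ∅), ?_, (C, B), ?_, ?_⟩)
        · rw [mem_rt]
          exact ⟨⟨⟨empty_subset _, w, Grow.base⟩, singleton_subset_iff.mpr hwX⟩, mem_singleton_self w⟩
        · rw [mem_rt]
          exact ⟨⟨⟨hBE, r, hg⟩, h1⟩, ha⟩
        · unfold jn
          ext1
          · show insert w C = {w} ∪ C
            rfl
          · show insert s(a, w) B = insert s(w, a) (∅ ∪ B)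
            rw [empty_union, Sym2.eq_swap]
      · exact Or.inr (Or.inl (insert_subset (mem_compl.mpr hwX) h1))
    · have hC : C = p.1 ∪ q.1 := congrArg Prod.fst hpq
      have hB2 : B = insert s(x, y) (p.2 ∪ q.2) := congrArg Prod.snd hpq
      rw [mem_rt] at hp hq
      obtain ⟨⟨⟨hp1, r1, hp2⟩, hp3⟩, hp4⟩ := hp
      obtain ⟨⟨⟨hq1, r2, hq2⟩, hq3⟩, hq4⟩ := hq
      rw [hC, mem_union] at ha hw
      push Not at hw
      by_cases hwX : w ∈ X
      · have hap : a ∈ p.1 := by
          rcases ha with ha | ha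
          · exact ha
          · exfalso
            have h2 := hcut w hwX a (mem_compl.mp (hq3 ha)) (by rw [Sym2.eq_swap]; exact haw)
            exact hw.1 (h2.1 ▸ hp4)
        refine Or.inr (Or.inr ⟨(insert w p.1, insert s(a, w) p.2), ?_, q, ?_, ?_⟩)
        · rw [mem_rt]
          exact ⟨⟨⟨insert_subset haw hp1, r1, hp2.step hap hw.1⟩, insert_subset hwX hp3⟩,
            mem_insert_of_mem hp4⟩
        · rw [mem_rt]
          exact ⟨⟨⟨hq1, r2, hq2⟩, hq3⟩, hq4⟩
        · unfold jn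
          ext1
          · show insert w C = insert w p.1 ∪ q.1
            rw [hC, insert_union]
          · show insert s(a, w) B = insert s(x, y) (insert s(a, w) p.2 ∪ q.2)
            rw [hB2, insert_union, insert_comm]
      · have haq : a ∈ q.1 := by
          rcases ha with ha | ha
          · exfalso
            have h2 := hcut a (hp3 ha) w hwX haw
            exact hw.2 (h2.2 ▸ hq4)
          · exact ha
        refine Or.inr (Or.inr ⟨p, ?_, (insert w q.1, insert s(a, w) q.2), ?_, ?_⟩)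
        · rw [mem_rt]
          exact ⟨⟨⟨hp1, r1, hp2⟩, hp3⟩, hp4⟩
        · rw [mem_rt]
          exact ⟨⟨⟨insert_subset haw hq1, r2, hq2.step haq hw.2⟩, insert_subset (mem_compl.mpr hwX) hq3⟩,
            mem_insert_of_mem hq4⟩
        · unfold jn
          ext1
          · show insert w C = p.1 ∪ insert w q.1
            rw [hC, union_insert]
          · show insert s(a, w) B = insert s(x, y) (p.2 ∪ insert s(a, w) q.2)
            rw [hB2, union_insert, insert_comm]

private theorem r1_inj {E : Finset (Sym2 V)} {X : Finset V} {x y : V} (h : Cut E X x y)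
    {p q : Finset V × Finset (Sym2 V)} (hp : p ∈ rt X E x) (hq : q ∈ rt Xᶜ E y) :
    (jn x y p q).1 ∩ X = p.1 ∧ (jn x y p q).1 ∩ Xᶜ = q.1 ∧
    (jn x y p q).2.filter (fun e => ∀ v ∈ e, v ∈ X) = p.2 ∧
    (jn x y p q).2.filter (fun e => ∀ v ∈ e, v ∈ Xᶜ) = q.2 := by
  rw [mem_rt] at hp hq
  obtain ⟨⟨⟨hp1, r1, hp2⟩, hp3⟩, hp4⟩ := hp
  obtain ⟨⟨⟨hq1, r2, hq2⟩, hq3⟩, hq4⟩ := hq
  obtain ⟨hx, hy, hxy, hcut⟩ := h
  have hne : ∀ e : Sym2 V, ∃ v, v ∈ e := fun e => by
    induction e using Sym2.ind with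
    | _ a b => exact ⟨a, Sym2.mem_mk_left a b⟩
  unfold jn
  refine ⟨?_, ?_, ?_, ?_⟩
  · ext v
    simp only [mem_inter, mem_union]
    constructor
    · rintro ⟨h1 | h1, h2⟩
      · exact h1
      · exact absurd h2 (mem_compl.mp (hq3 h1))
    · exact fun h1 => ⟨Or.inl h1, hp3 h1⟩
  · ext v
    simp only [mem_inter, mem_union, mem_compl]
    constructor
    · rintro ⟨h1 | h1, h2⟩
      · exact absurd (hp3 h1) h2
      · exact h1
    · exact fun h1 => ⟨Or.inr h1, mem_compl.mp (hq3 h1)⟩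
  · ext e
    simp only [mem_filter, mem_insert, mem_union]
    constructor
    · rintro ⟨h1 | h1 | h1, h2⟩
      · exact absurd (h2 y (h1 ▸ Sym2.mem_mk_right x y)) hy
      · exact h1
      · obtain ⟨v, hv⟩ := hne e
        exact absurd (h2 v hv) (mem_compl.mp (hq3 (hq2.edge_sub e h1 v hv)))
    · exact fun h1 => ⟨Or.inr (Or.inl h1), fun v hv => hp3 (hp2.edge_sub e h1 v hv)⟩
  · ext e
    simp only [mem_filter, mem_insert, mem_union]
    constructor
    · rintro ⟨h1 | h1 | h1, h2⟩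
      · exact absurd hx (mem_compl.mp (h2 x (h1 ▸ Sym2.mem_mk_left x y)))
      · obtain ⟨v, hv⟩ := hne e
        exact absurd (hp3 (hp2.edge_sub e h1 v hv)) (mem_compl.mp (h2 v hv))
      · exact h1
    · exact fun h1 => ⟨Or.inr (Or.inr h1), fun v hv => hq3 (hq2.edge_sub e h1 v hv)⟩

private theorem r1_sum {E : Finset (Sym2 V)} {X : Finset V} {x y : V} (h : Cut E X x y)
    (F : Finset V × Finset (Sym2 V) → ℕ) :
    ∑ p ∈ tc univ E, F p = ∑ p ∈ tc X E, F p + ∑ p ∈ tc Xᶜ E, F p +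
      ∑ p ∈ rt X E x, ∑ q ∈ rt Xᶜ E y, F (jn x y p q) := by
  classical
  have h' := h
  obtain ⟨hx, hy, hxy, hcut⟩ := h'
  have hset : tc univ E = (tc X E ∪ tc Xᶜ E) ∪
      (rt X E x ×ˢ rt Xᶜ E y).image (fun z => jn x y z.1 z.2) := by
    ext T
    rw [mem_union, mem_union, mem_image]
    constructor
    · intro hT
      rw [mem_tc] at hT
      obtain ⟨⟨hT1, r, hT2⟩, _⟩ := hT
      rcases r1_dec h hT2 hT1 with h1 | h1 | ⟨p, hp, q, hq, hpq⟩
      · exact Or.inl (Or.inl (mem_tc.mpr ⟨⟨hT1, r, hT2⟩, h1⟩))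
      · exact Or.inl (Or.inr (mem_tc.mpr ⟨⟨hT1, r, hT2⟩, h1⟩))
      · exact Or.inr ⟨(p, q), mem_product.mpr ⟨hp, hq⟩, hpq.symm⟩
    · rintro ((h1 | h1) | ⟨⟨p, q⟩, h1, rfl⟩)
      · rw [mem_tc] at h1 ⊢
        exact ⟨h1.1, subset_univ _⟩
      · rw [mem_tc] at h1 ⊢
        exact ⟨h1.1, subset_univ _⟩
      · rw [mem_product] at h1
        obtain ⟨hp, hq⟩ := h1
        rw [mem_rt] at hp hq
        obtain ⟨⟨⟨hp1, r1, hp2⟩, hp3⟩, hp4⟩ := hp
        obtain ⟨⟨⟨hq1, r2, hq2⟩, hq3⟩, hq4⟩ := hq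
        rw [mem_tc]
        refine ⟨⟨?_, x, ?_⟩, subset_univ _⟩
        · exact insert_subset hxy (union_subset hp1 hq1)
        · refine r1_join (hp2.reroot x hp4) (hq2.reroot y hq4) ?_
          rw [disjoint_left]
          intro v h2 h3
          exact (mem_compl.mp (hq3 h3)) (hp3 h2)
  have hnon : ∀ {Y : Finset V} {T : Finset V × Finset (Sym2 V)}, T ∈ tc Y E → T.1.Nonempty := by
    intro Y T hT
    rw [mem_tc] at hT
    obtain ⟨⟨_, r, h1⟩, _⟩ := hT
    exact ⟨r, h1.root_mem⟩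
  have hd1 : Disjoint (tc X E) (tc Xᶜ E) := by
    rw [disjoint_left]
    intro T h1 h2
    obtain ⟨v, hv⟩ := hnon h1
    rw [mem_tc] at h1 h2
    exact (mem_compl.mp (h2.2 hv)) (h1.2 hv)
  have hd2 : Disjoint (tc X E ∪ tc Xᶜ E)
      ((rt X E x ×ˢ rt Xᶜ E y).image (fun z => jn x y z.1 z.2)) := by
    rw [disjoint_right]
    intro T h1 h2
    rw [mem_image] at h1
    obtain ⟨⟨p, q⟩, h1, rfl⟩ := h1
    rw [mem_product] at h1
    have hp := (mem_rt.mp h1.1).2
    have hq := (mem_rt.mp h1.2).2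
    rw [mem_union, mem_tc, mem_tc] at h2
    rcases h2 with h2 | h2
    · exact hy (h2.2 (mem_union_right _ hq))
    · exact (mem_compl.mp (h2.2 (mem_union_left _ hp))) hx
  rw [hset, sum_union hd2, sum_union hd1, sum_image, sum_product]
  rintro ⟨p, q⟩ h1 ⟨p', q'⟩ h2 heq
  rw [mem_coe, mem_product] at h1 h2
  simp only at heq h1 h2
  obtain ⟨a1, a2, a3, a4⟩ := r1_inj h h1.1 h1.2
  obtain ⟨b1, b2, b3, b4⟩ := r1_inj h h2.1 h2.2
  rw [heq] at a1 a2 a3 a4
  refine Prod.ext (Prod.ext ?_ ?_) (Prod.ext ?_ ?_)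
  · exact a1.symm.trans b1
  · exact a3.symm.trans b3
  · exact a2.symm.trans b2
  · exact a4.symm.trans b4

/-- ROW 1 (bridge decomposition). `T in TP E` lies in `X`, or in `Xᶜ`, or is `T1 + s(x,y) + T2` with `T1 in rt X E x`, `T2 in rt Xᶜ E y`. -/
theorem cut_sum {E : Finset (Sym2 V)} {X : Finset V} {x y : V} (h : Cut E X x y) :
    no univ E = no X E + no Xᶜ E + nr X E x * nr Xᶜ E y ∧
    so univ E = so X E + so Xᶜ E + (sr X E x * nr Xᶜ E y + nr X E x * sr Xᶜ E y) := by
  constructor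
  · have h1 := r1_sum h (fun _ => 1)
    unfold no nr
    simp only [sum_const, smul_eq_mul, mul_one] at h1
    exact h1
  · have h1 := r1_sum h (fun p => p.1.card)
    unfold so sr nr
    rw [h1]
    congr 1
    have h2 : ∀ p ∈ rt X E x, ∀ q ∈ rt Xᶜ E y, (jn x y p q).1.card = p.1.card + q.1.card := by
      intro p hp q hq
      rw [mem_rt] at hp hq
      unfold jn
      apply card_union_of_disjoint
      rw [disjoint_left]
      intro v h3 h4
      exact (mem_compl.mp (hq.1.2 h4)) (hp.1.2 h3)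
    rw [sum_congr rfl (fun p hp => sum_congr rfl (fun q hq => h2 p hp q hq))]
    simp only [sum_add_distrib, sum_const, smul_eq_mul]
    rw [sum_mul]
    congr 1
    apply sum_congr rfl
    intro p _
    ring

end Pool.Agent.LibMC91
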