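import Mathlib
import Pool.Agent.LibMC91.Sig

set_option autoImplicit false
set_option linter.unusedSectionVars false

namespace Pool.Agent.LibMC91

open Finset Pool.Agent.LibMST Pool.Agent.LibMSB Pool.Agent.LibOC52

variable {V : Type*} [Fintype V] [DecidableEq V]

private theorem rank_sum {ι : Type*} [DecidableEq ι] (f : ι → ℕ) : ∀ (n : ℕ) (R : Finset ι), R.card = n →
    (∀ p ∈ R, f p ≤ (R.filter (fun q => f q < f p)).card + 1) → 2 * ∑ p ∈ R, f p ≤ n * (n + 1) := by
  intro n
  induction n with
  | zero =>
    intro R hR _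
    rw [card_eq_zero] at hR
    rw [hR]
    simp
  | succ n ih =>
    intro R hR h
    obtain ⟨p, hp, hmax⟩ := R.exists_max_image f (card_pos.1 (by omega))
    have hc : (R.erase p).card = n := by rw [card_erase_of_mem hp]; omega
    have h1 := ih (R.erase p) hc (by
      intro q hq
      have h2 := h q (mem_of_mem_erase hq)
      have e : (R.erase p).filter (fun q' => f q' < f q) = R.filter (fun q' => f q' < f q) := by
        ext q'
        rw [mem_filter, mem_filter, mem_erase]
        constructor
        · exact fun h3 => ⟨h3.1.2, h3.2⟩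
        · intro h3
          refine ⟨⟨?_, h3.1⟩, h3.2⟩
          rintro rfl
          have := hmax q (mem_of_mem_erase hq)
          omega
      rw [e]
      exact h2)
    have h3 : (R.filter (fun q => f q < f p)).card ≤ n := by
      rw [← hc]
      apply card_le_card
      intro q hq
      rw [mem_filter] at hq
      rw [mem_erase]
      refine ⟨?_, hq.1⟩
      rintro rfl
      exact absurd hq.2 (lt_irrefl _)
    have h4 := h p hp
    rw [← add_sum_erase R f hp]
    nlinarith

private theorem all_orders {x : V} {X : Finset V} {B : Finset (Sym2 V)} (h : Grow x X B) :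
    ∀ k, 1 ≤ k → k ≤ X.card → ∃ X' B', Grow x X' B' ∧ X' ⊆ X ∧ B' ⊆ B ∧ X'.card = k := by
  induction h with
  | base =>
    intro k h1 h2
    rw [card_singleton] at h2
    exact ⟨{x}, ∅, Grow.base, Subset.refl _, Subset.refl _, by rw [card_singleton]; omega⟩
  | @step C B u w h hx hw ih =>
    intro k h1 h2
    rw [card_insert_of_notMem hw] at h2
    by_cases hk : k ≤ C.card
    · obtain ⟨X', B', a1, a2, a3, a4⟩ := ih k h1 hk
      exact ⟨X', B', a1, a2.trans (subset_insert _ _), a3.trans (subset_insert _ _), a4⟩
    · exact ⟨_, _, Grow.step h hx hw, Subset.refl _, Subset.refl _, by rw [card_insert_of_notMem hw]; omega⟩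

/-- ROW 2 (rank argument: below a tree of order `s` through `x` there are trees through `x` of all orders `1..s-1`). -/
theorem two_sr (E : Finset (Sym2 V)) (X : Finset V) (x : V) :
    2 * sr X E x ≤ nr X E x * (nr X E x + 1) := by
  classical
  unfold sr nr
  refine rank_sum (fun p : Finset V × Finset (Sym2 V) => p.1.card) _ (rt X E x) rfl ?_
  intro p hp
  rw [mem_rt] at hp
  obtain ⟨⟨⟨h1, r, h2⟩, h3⟩, h4⟩ := hp
  have h5 := h2.reroot x h4
  have hsub : Ico 1 p.1.card ⊆ ((rt X E x).filter (fun q => q.1.card < p.1.card)).image (fun q => q.1.card) := by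
    intro k hk
    rw [mem_Ico] at hk
    obtain ⟨X', B', a1, a2, a3, a4⟩ := all_orders h5 k hk.1 (by omega)
    rw [mem_image]
    refine ⟨(X', B'), ?_, a4⟩
    rw [mem_filter, mem_rt]
    exact ⟨⟨⟨⟨a3.trans h1, x, a1⟩, a2.trans h3⟩, a1.root_mem⟩, by change X'.card < _; omega⟩
  have h6 := (card_le_card hsub).trans card_image_le
  rw [Nat.card_Ico] at h6
  change p.1.card ≤ ((rt X E x).filter (fun q => q.1.card < p.1.card)).card + 1
  omega

end Pool.Agent.LibMC91
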