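import Mathlib
import Pool.Agent.LibMC91.Sig

set_option autoImplicit false
set_option linter.unusedSectionVars false

namespace Pool.Agent.LibMC91

open Finset Pool.Agent.LibMST Pool.Agent.LibMSB Pool.Agent.LibOC52

variable {V : Type*} [Fintype V] [DecidableEq V]

private theorem r3_lf {X : Finset V} {E : Finset (Sym2 V)} {T : Finset V × Finset (Sym2 V)} (hT : T ∈ tc X E) {x : V}
    (h : Lf T x) : x ∈ T.1 := by
  unfold Lf at h
  have h1 : (T.2.filter (fun e => x ∈ e)).Nonempty := card_pos.mp (by omega)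
  obtain ⟨e, he⟩ := h1
  rw [mem_filter] at he
  rw [mem_tc] at hT
  obtain ⟨⟨_, r, hg⟩, _⟩ := hT
  exact hg.edge_sub e he.1 x he.2

/-- ROW 3 (from LibOC52 `count` with w = 1, D = 1, f = 1, C = X, EC = ein E X, `ext_exists`; tc_ein). -/
theorem no_le_sr {E : Finset (Sym2 V)} {X : Finset V} {x : V} (hc : Cn (ein E X) X) (hx : x ∈ X) :
    no X E ≤ sr X E x := by
  classical
  have hEC : ∀ e ∈ ein E X, ∀ v ∈ e, v ∈ X := fun e he => (mem_ein.mp he).2
  have hN : Nx X (ein E X) x 1 := by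
    intro T hT hn
    have hT' := mem_tc.mp hT
    obtain ⟨⟨_, r, hg⟩, hsub⟩ := hT'
    obtain ⟨T', d, h1⟩ := ext_exists hc hsub ⟨r, hg.root_mem⟩ hx hn
    exact ⟨{⟨T', d⟩}, by rw [card_singleton], fun p hp => by rw [mem_singleton] at hp; rw [hp]; exact h1⟩
  have h1 := count hEC (w := fun _ => 1) (fun _ => le_rfl) hN (f := fun _ => 1) (fun _ => zero_le_one)
  simp only [prod_const_one, one_mul, mul_one, sum_const, nsmul_eq_mul, Nat.cast_one, Nat.card_Ico] at h1
  rw [tc_ein] at h1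
  have h2 : ∑ T ∈ (tc X E).filter (fun T => Lf T x), ((T.1.card - 1 : ℕ) : ℚ) ≤
      ∑ T ∈ (tc X E).filter (fun T => x ∈ T.1), ((T.1.card - 1 : ℕ) : ℚ) := by
    apply sum_le_sum_of_subset_of_nonneg
    · intro T hT
      rw [mem_filter] at hT ⊢
      exact ⟨hT.1, r3_lf hT.1 hT.2⟩
    · intro T _ _
      exact Nat.cast_nonneg _
  have h3 : ∑ T ∈ (tc X E).filter (fun T => x ∈ T.1), ((T.1.card - 1 : ℕ) : ℚ) +
      ((tc X E).filter (fun T => x ∈ T.1)).card = (sr X E x : ℚ) := by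
    unfold sr rt
    rw [card_eq_sum_ones]
    push_cast
    rw [← sum_add_distrib]
    apply sum_congr rfl
    intro T hT
    rw [mem_filter, mem_tc] at hT
    have h4 : 0 < T.1.card := card_pos.mpr ⟨x, hT.2⟩
    have h5 : ((T.1.card - 1 : ℕ) : ℚ) + 1 = (((T.1.card - 1) + 1 : ℕ) : ℚ) := by push_cast; ring
    rw [h5, Nat.sub_add_cancel h4]
  have h4 : (no X E : ℚ) = ((tc X E).filter (fun T => x ∈ T.1)).card + ((tc X E).filter (fun T => x ∉ T.1)).card := by
    unfold no
    rw [← card_filter_add_card_filter_not (s := tc X E) (fun T => x ∈ T.1)]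
    push_cast
    ring
  have h5 : (no X E : ℚ) ≤ (sr X E x : ℚ) := by
    rw [h4, ← h3]
    linarith
  exact_mod_cast h5

end Pool.Agent.LibMC91
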