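import Mathlib
import Pool.Agent.LibMC91.Sig

set_option autoImplicit false
set_option linter.unusedSectionVars false

namespace Pool.Agent.LibMC91

open Finset Pool.Agent.LibMST Pool.Agent.LibMSB Pool.Agent.LibOC52

variable {V : Type*} [Fintype V] [DecidableEq V]

private theorem grow_sub_root {r : V} {A : Finset V} {S : Finset (Sym2 V)} (h : Grow r A S) {U : Finset V}
    (hr : r ∈ U) (hU : ∀ x w, s(x, w) ∈ S → x ∈ U → w ∈ U) : A ⊆ U := by
  induction h with
  | base => exact singleton_subset_iff.2 hr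
  | step h hx hw ih =>
    have h1 := ih (fun x w hxw => hU x w (mem_insert_of_mem hxw))
    exact insert_subset (hU _ _ (mem_insert_self _ _) (h1 hx)) h1

private theorem grow_sub {r : V} {A : Finset V} {S : Finset (Sym2 V)} (h : Grow r A S) {U : Finset V} {a : V}
    (ha : a ∈ A) (haU : a ∈ U) (hU : ∀ x w, s(x, w) ∈ S → x ∈ U → w ∈ U) : A ⊆ U := by
  by_cases hr : r ∈ U
  · exact grow_sub_root h hr hU
  · have h1 : A ⊆ Uᶜ := by
      refine grow_sub_root h (mem_compl.2 hr) ?_
      intro x w hxw hx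
      rw [mem_compl] at hx ⊢
      intro hw
      exact hx (hU w x (by rw [Sym2.eq_swap]; exact hxw) hw)
    exact absurd haU (mem_compl.1 (h1 ha))

private theorem side {E : Finset (Sym2 V)} {X U : Finset V} {u : V} (hc : Cn (ein E X) X) (hUX : U ⊆ X) (hne : U ≠ X)
    (hUe : ∀ p ∈ U, ∀ q ∈ X, q ∉ U → s(p, q) ∈ E → p = u) : Cn (ein E U) U := by
  -- the claim for sets without `u`
  have key : ∀ W : Finset V, W ⊆ U → W.Nonempty → u ∉ W → ∃ p ∈ W, ∃ q ∈ U, q ∉ W ∧ s(p, q) ∈ ein E U := by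
    intro W hWU hW hu
    have hWX : W ≠ X := by
      rintro rfl
      exact hne (Subset.antisymm hUX hWU)
    obtain ⟨p, hp, q, hq, hqW, hpq⟩ := hc W (hWU.trans hUX) hW hWX
    rw [mem_ein] at hpq
    have hqU : q ∈ U := by
      by_contra hqU
      have := hUe p (hWU hp) q hq hqU hpq.1
      exact hu (this ▸ hp)
    refine ⟨p, hp, q, hqU, hqW, mem_ein.2 ⟨hpq.1, ?_⟩⟩
    intro y hy
    rcases Sym2.mem_iff.1 hy with rfl | rfl
    · exact hWU hp
    · exact hqU
  intro W hWU hW hWne
  by_cases hu : u ∈ W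
  · obtain ⟨p, hp, q, hq, hqW, hpq⟩ := key (U \ W) sdiff_subset (by
      rw [sdiff_nonempty]
      intro h
      exact hWne (Subset.antisymm hWU h)) (fun h => (mem_sdiff.1 h).2 hu)
    rw [mem_sdiff] at hp
    have hqW' : q ∈ W := by
      by_contra h
      exact hqW (mem_sdiff.2 ⟨hq, h⟩)
    exact ⟨q, hqW', p, hp.1, hp.2, by rw [Sym2.eq_swap]; exact hpq⟩
  · exact key W hWU hW hu

/-- the trees inside `X` which contain the tree `F` -/
private noncomputable def up (X : Finset V) (E : Finset (Sym2 V)) (F : Finset V × Finset (Sym2 V)) :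
    Finset (Finset V × Finset (Sym2 V)) :=
  (tc X E).filter (fun T => F.1 ⊆ T.1 ∧ F.2 ⊆ T.2)

private theorem mem_up {X : Finset V} {E : Finset (Sym2 V)} {F T : Finset V × Finset (Sym2 V)} :
    T ∈ up X E F ↔ ((T.2 ⊆ E ∧ ∃ r, Grow r T.1 T.2) ∧ T.1 ⊆ X) ∧ F.1 ⊆ T.1 ∧ F.2 ⊆ T.2 := by
  unfold up; rw [mem_filter, mem_tc]

/-- growing into the other side -/
private theorem ext_side {E : Finset (Sym2 V)} {X U : Finset V} {u v : V} (hUX : U ⊆ X)
    (hvX : v ∈ X) (hvU : v ∉ U) (he : s(u, v) ∈ E) (hB : Cn (ein E (X \ U)) (X \ U))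
    {F T1 : Finset V × Finset (Sym2 V)} (hu : u ∈ F.1) (hT1 : T1 ∈ up U E F) :
    ∀ j, j < (X \ U).card → ∃ T ∈ up X E (insert v F.1, insert s(u, v) F.2),
      T.1 ∩ U = T1.1 ∧ ein T.2 U = T1.2 ∧ T.1.card = T1.1.card + j + 1 := by
  rw [mem_up] at hT1
  obtain ⟨⟨⟨h1, r, hg⟩, h2⟩, h3, h4⟩ := hT1
  intro j
  induction j with
  | zero =>
    intro _
    have hvT : v ∉ T1.1 := fun h => hvU (h2 h)
    refine ⟨(insert v T1.1, insert s(u, v) T1.2), ?_, ?_, ?_, ?_⟩
    · rw [mem_up]
      refine ⟨⟨⟨insert_subset he h1, r, hg.step (h3 hu) hvT⟩, insert_subset hvX (h2.trans hUX)⟩,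
        insert_subset_insert _ h3, insert_subset_insert _ h4⟩
    · ext y
      simp only [mem_inter, mem_insert]
      constructor
      · rintro ⟨rfl | hy, hyU⟩
        · exact absurd hyU hvU
        · exact hy
      · intro hy
        exact ⟨Or.inr hy, h2 hy⟩
    · ext y
      rw [mem_ein]
      simp only [mem_insert]
      constructor
      · rintro ⟨rfl | hy, hyU⟩
        · exact absurd (hyU v (Sym2.mem_mk_right u v)) hvU
        · exact hy
      · intro hy
        exact ⟨Or.inr hy, fun z hz => h2 (hg.edge_sub y hy z hz)⟩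
    · show (insert v T1.1).card = _
      rw [card_insert_of_notMem hvT]
  | succ j ih =>
    intro hj
    obtain ⟨T, hT, k1, k2, k3⟩ := ih (by omega)
    rw [mem_up] at hT
    obtain ⟨⟨⟨g1, r', g2⟩, g3⟩, g4, g5⟩ := hT
    have g4' : insert v F.1 ⊆ T.1 := g4
    have hvT : v ∈ T.1 := g4' (mem_insert_self _ _)
    have hcard : (T.1 \ U).card = j + 1 := by
      have h5 := card_sdiff_add_card_inter T.1 U
      rw [k1] at h5
      omega
    have hWB : T.1 \ U ⊆ X \ U := sdiff_subset_sdiff g3 (Subset.refl _)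
    obtain ⟨p, hp, q, hq, hqW, hpq⟩ := hB (T.1 \ U) hWB ⟨v, mem_sdiff.2 ⟨hvT, hvU⟩⟩ (by
      intro h
      rw [h] at hcard
      omega)
    rw [mem_sdiff] at hp hq
    have hqT : q ∉ T.1 := fun h => hqW (mem_sdiff.2 ⟨h, hq.2⟩)
    rw [mem_ein] at hpq
    refine ⟨(insert q T.1, insert s(p, q) T.2), ?_, ?_, ?_, ?_⟩
    · rw [mem_up]
      exact ⟨⟨⟨insert_subset hpq.1 g1, r', g2.step hp.1 hqT⟩, insert_subset hq.1 g3⟩,
        g4.trans (subset_insert _ _), g5.trans (subset_insert _ _)⟩
    · rw [← k1]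
      ext y
      simp only [mem_inter, mem_insert]
      constructor
      · rintro ⟨rfl | hy, hyU⟩
        · exact absurd hyU hq.2
        · exact ⟨hy, hyU⟩
      · rintro ⟨hy, hyU⟩
        exact ⟨Or.inr hy, hyU⟩
    · rw [← k2]
      ext y
      rw [mem_ein, mem_ein]
      simp only [mem_insert]
      constructor
      · rintro ⟨rfl | hy, hyU⟩
        · exact absurd (hyU q (Sym2.mem_mk_right p q)) hq.2
        · exact ⟨hy, hyU⟩
      · rintro ⟨hy, hyU⟩
        exact ⟨Or.inr hy, hyU⟩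
    · show (insert q T.1).card = _
      rw [card_insert_of_notMem hqT, k3]
      ring

private theorem card_side {E : Finset (Sym2 V)} {X U : Finset V} {u v : V} (hUX : U ⊆ X)
    (hvX : v ∈ X) (hvU : v ∉ U) (he : s(u, v) ∈ E) (hB : Cn (ein E (X \ U)) (X \ U))
    {F : Finset V × Finset (Sym2 V)} (hu : u ∈ F.1) :
    (up U E F).card * (X \ U).card ≤ (up X E (insert v F.1, insert s(u, v) F.2)).card := by
  classical
  have h := fun (T1 : Finset V × Finset (Sym2 V)) (hT1 : T1 ∈ up U E F) (j : ℕ) (hj : j < (X \ U).card) =>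
    ext_side hUX hvX hvU he hB hu hT1 j hj
  choose g hg1 hg2 hg3 hg4 using h
  obtain ⟨G, hG⟩ : ∃ G : (Finset V × Finset (Sym2 V)) × ℕ → Finset V × Finset (Sym2 V), ∀ T1 hT1 j hj,
      G (T1, j) = g T1 hT1 j hj := by
    refine ⟨fun x => if h : x.1 ∈ up U E F ∧ x.2 < (X \ U).card then g x.1 h.1 x.2 h.2 else x.1, ?_⟩
    intro T1 hT1 j hj
    show dite _ _ _ = _
    rw [dif_pos ⟨hT1, hj⟩]
  have h1 : ((up U E F) ×ˢ range (X \ U).card).card ≤ (up X E (insert v F.1, insert s(u, v) F.2)).card := by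
    refine card_le_card_of_injOn G ?_ ?_
    · rintro ⟨T1, j⟩ hx
      have hx' := mem_product.1 (mem_coe.1 hx)
      rw [mem_range] at hx'
      rw [mem_coe, hG T1 hx'.1 j hx'.2]
      exact hg1 _ _ _ _
    · rintro ⟨T1, j⟩ hx ⟨T2, k⟩ hy hxy
      have hx' := mem_product.1 (mem_coe.1 hx)
      have hy' := mem_product.1 (mem_coe.1 hy)
      rw [mem_range] at hx' hy'
      rw [hG T1 hx'.1 j hx'.2, hG T2 hy'.1 k hy'.2] at hxy
      have e1 : T1.1 = T2.1 := by rw [← hg2 T1 hx'.1 j hx'.2, ← hg2 T2 hy'.1 k hy'.2, hxy]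
      have e2 : T1.2 = T2.2 := by rw [← hg3 T1 hx'.1 j hx'.2, ← hg3 T2 hy'.1 k hy'.2, hxy]
      have e3 : T1.1.card + j + 1 = T2.1.card + k + 1 := by
        rw [← hg4 T1 hx'.1 j hx'.2, ← hg4 T2 hy'.1 k hy'.2, hxy]
      rw [e1] at e3
      have e4 : j = k := by omega
      have e5 : T1 = T2 := Prod.ext e1 e2
      rw [e4, e5]
  rwa [card_product, card_range] at h1

private theorem half_aux (m : ℕ) : ∀ (X : Finset V) (E : Finset (Sym2 V)) (F : Finset V × Finset (Sym2 V)),
    F ∈ tc X E → Cn (ein E X) X → ((ein E X) \ F.2).card ≤ m →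
    0 ≤ ∑ T ∈ up X E F, (2 * (T.1.card : ℤ) - X.card - F.1.card) := by
  induction m with
  | zero =>
    intro X E F hF hc hm
    rw [mem_tc] at hF
    obtain ⟨⟨f1, r, f2⟩, f3⟩ := hF
    by_cases hFX : F.1 = X
    · apply le_of_eq
      symm
      apply sum_eq_zero
      intro T hT
      rw [mem_up] at hT
      have h1 : T.1 = X := Subset.antisymm hT.1.2 (by rw [← hFX]; exact hT.2.1)
      rw [h1, hFX]
      ring
    · exfalso
      obtain ⟨u, hu, v, hv, hvF, he⟩ := hc F.1 f3 ⟨r, f2.root_mem⟩ hFX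
      have h1 : s(u, v) ∈ ein E X \ F.2 :=
        mem_sdiff.2 ⟨he, fun h => hvF (f2.edge_sub _ h v (Sym2.mem_mk_right u v))⟩
      have h2 := card_pos.2 ⟨_, h1⟩
      omega
  | succ m ih =>
    intro X E F hF hc hm
    rw [mem_tc] at hF
    obtain ⟨⟨f1, r, f2⟩, f3⟩ := hF
    by_cases hFX : F.1 = X
    · apply le_of_eq
      symm
      apply sum_eq_zero
      intro T hT
      rw [mem_up] at hT
      have h1 : T.1 = X := Subset.antisymm hT.1.2 (by rw [← hFX]; exact hT.2.1)
      rw [h1, hFX]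
      ring
    · obtain ⟨u, hu, v, hv, hvF, he⟩ := hc F.1 f3 ⟨r, f2.root_mem⟩ hFX
      have heE : s(u, v) ∈ E := (mem_ein.1 he).1
      have heF : s(u, v) ∉ F.2 := fun h => hvF (f2.edge_sub _ h v (Sym2.mem_mk_right u v))
      have hcard : ∀ Y : Finset (Sym2 V), Y ⊆ (ein E X \ F.2).erase s(u, v) → Y.card ≤ m := by
        intro Y hY
        have h1 := card_le_card hY
        rw [card_erase_of_mem (mem_sdiff.2 ⟨he, heF⟩)] at h1
        omega
      -- the two parts
      have hA : (up X E F).filter (fun T => s(u, v) ∈ T.2) = up X E (insert v F.1, insert s(u, v) F.2) := by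
        ext T
        rw [mem_filter, mem_up, mem_up]
        constructor
        · rintro ⟨⟨h1, h2, h3⟩, h4⟩
          obtain ⟨⟨_, r', h5⟩, _⟩ := id h1
          exact ⟨h1, insert_subset (h5.edge_sub _ h4 v (Sym2.mem_mk_right u v)) h2, insert_subset h4 h3⟩
        · rintro ⟨h1, h2, h3⟩
          exact ⟨⟨h1, (subset_insert _ _).trans h2, (subset_insert _ _).trans h3⟩, h3 (mem_insert_self _ _)⟩
      have hBf : (up X E F).filter (fun T => ¬ s(u, v) ∈ T.2) = up X (E.erase s(u, v)) F := by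
        ext T
        rw [mem_filter, mem_up, mem_up]
        constructor
        · rintro ⟨⟨⟨⟨h0, h1⟩, h1'⟩, h2, h3⟩, h4⟩
          refine ⟨⟨⟨fun x hx => mem_erase.2 ⟨?_, h0 hx⟩, h1⟩, h1'⟩, h2, h3⟩
          rintro rfl
          exact h4 hx
        · rintro ⟨⟨⟨h0, h1⟩, h1'⟩, h2, h3⟩
          exact ⟨⟨⟨⟨h0.trans (erase_subset _ _), h1⟩, h1'⟩, h2, h3⟩, fun h => (mem_erase.1 (h0 h)).1 rfl⟩
      have hsplit := sum_filter_add_sum_filter_not (up X E F) (fun T => s(u, v) ∈ T.2)
        (fun T => (2 * (T.1.card : ℤ) - X.card - F.1.card))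
      rw [hA, hBf] at hsplit
      rw [← hsplit]
      -- the first part
      have hF' : (insert v F.1, insert s(u, v) F.2) ∈ tc X E := by
        rw [mem_tc]
        exact ⟨⟨insert_subset heE f1, r, f2.step hu hvF⟩, insert_subset hv f3⟩
      have p1 := ih X E (insert v F.1, insert s(u, v) F.2) hF' hc (hcard _ (by
        intro x hx
        rw [mem_sdiff] at hx
        have hx2 : x ∉ insert s(u, v) F.2 := hx.2
        rw [mem_insert, not_or] at hx2
        exact mem_erase.2 ⟨hx2.1, mem_sdiff.2 ⟨hx.1, hx2.2⟩⟩))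
      have p2 : ∑ T ∈ up X E (insert v F.1, insert s(u, v) F.2), (2 * (T.1.card : ℤ) - X.card - F.1.card) =
          ∑ T ∈ up X E (insert v F.1, insert s(u, v) F.2),
            (2 * (T.1.card : ℤ) - X.card - (insert v F.1, insert s(u, v) F.2).1.card) +
          (up X E (insert v F.1, insert s(u, v) F.2)).card := by
        have h1 : ((up X E (insert v F.1, insert s(u, v) F.2)).card : ℤ) =
            ∑ T ∈ up X E (insert v F.1, insert s(u, v) F.2), (1 : ℤ) := by simp
        rw [h1, ← sum_add_distrib]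
        apply sum_congr rfl
        intro T _
        have h2 : (insert v F.1).card = F.1.card + 1 := card_insert_of_notMem hvF
        show _ = 2 * (T.1.card : ℤ) - X.card - ((insert v F.1).card : ℤ) + 1
        rw [h2]
        push_cast
        ring
      by_cases hcon : Cn (ein (E.erase s(u, v)) X) X
      · have q1 := ih X (E.erase s(u, v)) F (by
          rw [mem_tc]
          refine ⟨⟨fun x hx => mem_erase.2 ⟨?_, f1 hx⟩, r, f2⟩, f3⟩
          rintro rfl
          exact heF hx) hcon (hcard _ (by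
          intro x hx
          rw [mem_sdiff, mem_ein, mem_erase] at hx
          exact mem_erase.2 ⟨hx.1.1.1, mem_sdiff.2 ⟨mem_ein.2 ⟨hx.1.1.2, hx.1.2⟩, hx.2⟩⟩))
        have h3 : (0 : ℤ) ≤ ((up X E (insert v F.1, insert s(u, v) F.2)).card : ℤ) := Int.natCast_nonneg _
        linarith
      · -- the edge is a bridge
        obtain ⟨U, hUX, huU, hvU, hUe⟩ : ∃ U ⊆ X, u ∈ U ∧ v ∉ U ∧ ∀ p ∈ U, ∀ q ∈ X, q ∉ U → s(p, q) ∈ E →
            p = u ∧ q = v := by
          unfold Cn at hcon
          push Not at hcon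
          obtain ⟨U, h1, h2, h3, h4⟩ := hcon
          have h4' : ∀ p ∈ U, ∀ q ∈ X, q ∉ U → s(p, q) ∈ E → s(p, q) = s(u, v) := by
            intro p hp q hq hqU hpq
            by_contra hne
            refine h4 p hp q hq hqU (mem_ein.2 ⟨mem_erase.2 ⟨hne, hpq⟩, ?_⟩)
            intro y hy
            rcases Sym2.mem_iff.1 hy with rfl | rfl
            · exact h1 hp
            · exact hq
          obtain ⟨p, hp, q, hq, hqU, hpq⟩ := hc U h1 h2 h3
          have h5 := h4' p hp q hq hqU (mem_ein.1 hpq).1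
          rcases Sym2.eq_iff.1 h5 with ⟨rfl, rfl⟩ | ⟨rfl, rfl⟩
          · refine ⟨U, h1, hp, hqU, ?_⟩
            intro p' hp' q' hq' hqU' hpq'
            rcases Sym2.eq_iff.1 (h4' p' hp' q' hq' hqU' hpq') with h6 | ⟨rfl, rfl⟩
            · exact h6
            · exact absurd hp' hqU
          · refine ⟨X \ U, sdiff_subset, mem_sdiff.2 ⟨hq, hqU⟩, fun h => (mem_sdiff.1 h).2 hp, ?_⟩
            intro p' hp' q' hq' hqU' hpq'
            rw [mem_sdiff] at hp'
            have hq2 : q' ∈ U := by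
              by_contra h
              exact hqU' (mem_sdiff.2 ⟨hq', h⟩)
            rcases Sym2.eq_iff.1 (h4' q' hq2 p' hp'.1 hp'.2 (by rw [Sym2.eq_swap]; exact hpq')) with
              ⟨rfl, rfl⟩ | ⟨rfl, rfl⟩
            · exact absurd hq2 hqU
            · exact ⟨rfl, rfl⟩
        have hUne : U ≠ X := fun h => hvU (h ▸ hv)
        have hcU : Cn (ein E U) U := side (u := u) hc hUX hUne (fun p hp q hq hqU hpq => (hUe p hp q hq hqU hpq).1)
        have hcB : Cn (ein E (X \ U)) (X \ U) := by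
          refine side (u := v) hc sdiff_subset ?_ ?_
          · intro h
            have h5 : u ∈ X \ U := by rw [h]; exact hUX huU
            exact (mem_sdiff.1 h5).2 huU
          · intro p hp q hq hqB hpq
            rw [mem_sdiff] at hp
            have hqU : q ∈ U := by
              by_contra h
              exact hqB (mem_sdiff.2 ⟨hq, h⟩)
            exact (hUe q hqU p hp.1 hp.2 (by rw [Sym2.eq_swap]; exact hpq)).2
        have hins : ∀ T : Finset V × Finset (Sym2 V), T.2 ⊆ E → (∃ r, Grow r T.1 T.2) → T.1 ⊆ X → u ∈ T.1 →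
            s(u, v) ∉ T.2 → T.1 ⊆ U := by
          intro T h1 h2 h3 h4 h5
          obtain ⟨r', h2⟩ := h2
          refine grow_sub h2 h4 huU ?_
          intro x w hxw hx
          by_contra hw
          obtain ⟨rfl, rfl⟩ := hUe x hx w (h3 (h2.edge_sub _ hxw w (Sym2.mem_mk_right x w))) hw (h1 hxw)
          exact h5 hxw
        have hup : up X (E.erase s(u, v)) F = up U E F := by
          ext T
          rw [mem_up, mem_up]
          constructor
          · rintro ⟨⟨⟨h0, h1⟩, h1'⟩, h2, h3⟩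
            exact ⟨⟨⟨h0.trans (erase_subset _ _), h1⟩, hins T (h0.trans (erase_subset _ _)) h1 h1' (h2 hu)
              (fun h => (mem_erase.1 (h0 h)).1 rfl)⟩, h2, h3⟩
          · rintro ⟨⟨⟨h0, h1⟩, h1'⟩, h2, h3⟩
            refine ⟨⟨⟨fun x hx => mem_erase.2 ⟨?_, h0 hx⟩, h1⟩, h1'.trans hUX⟩, h2, h3⟩
            rintro rfl
            obtain ⟨r', h1⟩ := h1
            exact hvU (h1' (h1.edge_sub _ hx v (Sym2.mem_mk_right u v)))
        have hFU : F.1 ⊆ U := hins F f1 ⟨r, f2⟩ f3 hu heF
        have q1 := ih U E F (by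
          rw [mem_tc]
          exact ⟨⟨f1, r, f2⟩, hFU⟩) hcU (hcard _ (by
          intro x hx
          rw [mem_sdiff, mem_ein] at hx
          refine mem_erase.2 ⟨?_, mem_sdiff.2 ⟨mem_ein.2 ⟨hx.1.1, fun y hy => hUX (hx.1.2 y hy)⟩, hx.2⟩⟩
          rintro rfl
          exact hvU (hx.1.2 v (Sym2.mem_mk_right u v))))
        have q2 := card_side hUX hv hvU heE hcB hu
        have q3 : (X \ U).card + U.card = X.card := card_sdiff_add_card_eq_card hUX
        have q4 : ∑ T ∈ up U E F, (2 * (T.1.card : ℤ) - X.card - F.1.card) =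
            ∑ T ∈ up U E F, (2 * (T.1.card : ℤ) - U.card - F.1.card) - (up U E F).card * (X \ U).card := by
          have h1 : ((up U E F).card : ℤ) * (X \ U).card = ∑ T ∈ up U E F, ((X \ U).card : ℤ) := by simp
          rw [h1, ← sum_sub_distrib]
          apply sum_congr rfl
          intro T _
          have h2 : (X.card : ℤ) = (X \ U).card + U.card := by exact_mod_cast q3.symm
          rw [h2]
          ring
        rw [hup, q4]
        have q5 : ((up U E F).card : ℤ) * (X \ U).card ≤ (up X E (insert v F.1, insert s(u, v) F.2)).card := by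
          exact_mod_cast q2
        linarith

/-- ROW 4 (the local mean is at least (n+1)/2; helper54's plan: for every tree F inside X, sum over the trees T inside X which
contain F of (2|T| - n - |F|) is >= 0, n = number of vertices of the component; induction; bridge case by ROW 1). -/
theorem half {E : Finset (Sym2 V)} {X : Finset V} {x : V} (hc : Cn (ein E X) X) (hx : x ∈ X) :
    nr X E x * (X.card + 1) ≤ 2 * sr X E x := by
  have h1 := half_aux ((ein E X) \ (∅ : Finset (Sym2 V))).card X E ({x}, ∅) (by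
    rw [mem_tc]
    exact ⟨⟨empty_subset _, x, Grow.base⟩, singleton_subset_iff.2 hx⟩) hc (le_refl _)
  have h2 : up X E (({x} : Finset V), (∅ : Finset (Sym2 V))) = rt X E x := by
    ext T
    rw [mem_up, mem_rt]
    simp
  rw [h2] at h1
  have h3 : ∑ T ∈ rt X E x, (2 * (T.1.card : ℤ) - X.card - (({x} : Finset V), (∅ : Finset (Sym2 V))).1.card) =
      2 * (sr X E x : ℤ) - (nr X E x : ℤ) * (X.card + 1) := by
    unfold sr nr
    rw [sum_sub_distrib, sum_sub_distrib, ← mul_sum]
    simp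
    ring
  rw [h3] at h1
  have h4 : (nr X E x : ℤ) * (X.card + 1) ≤ 2 * (sr X E x : ℤ) := by linarith
  exact_mod_cast h4

end Pool.Agent.LibMC91
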