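import Mathlib
import Pool.Agent.LibMC91.R1
import Pool.Agent.LibMC91.R2
import Pool.Agent.LibMC91.R3
import Pool.Agent.LibMC91.R4
import Pool.Agent.LibMC91.R5

set_option autoImplicit false
set_option linter.unusedSectionVars false

namespace Pool.Agent.LibMC91

open Finset Pool.Agent.LibMST Pool.Agent.LibMSB Pool.Agent.LibOC52

variable {V : Type*} [Fintype V] [DecidableEq V]

private theorem so_le (X : Finset V) (E : Finset (Sym2 V)) : so X E ≤ X.card * no X E := by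
  unfold so no
  rw [mul_comm, ← smul_eq_mul, ← Finset.sum_const]
  apply sum_le_sum
  intro p hp
  rw [mem_tc] at hp
  exact card_le_card hp.2

private theorem nr_pos {X : Finset V} (E : Finset (Sym2 V)) {x : V} (hx : x ∈ X) : 1 ≤ nr X E x := by
  unfold nr
  rw [Nat.one_le_iff_ne_zero, ← Nat.pos_iff_ne_zero, card_pos]
  refine ⟨({x}, ∅), ?_⟩
  rw [mem_rt]
  exact ⟨⟨⟨empty_subset _, x, Grow.base⟩, singleton_subset_iff.2 hx⟩, mem_singleton_self x⟩

private theorem split_x (X : Finset V) (E : Finset (Sym2 V)) (x : V) :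
    no X E = no (X.erase x) E + nr X E x ∧ so X E = so (X.erase x) E + sr X E x := by
  have h : (tc X E).filter (fun p => ¬ x ∈ p.1) = tc (X.erase x) E := by
    ext p
    rw [mem_filter, mem_tc, mem_tc]
    constructor
    · rintro ⟨⟨h1, h2⟩, h3⟩
      exact ⟨h1, fun v hv => mem_erase.2 ⟨fun h => h3 (h ▸ hv), h2 hv⟩⟩
    · rintro ⟨h1, h2⟩
      exact ⟨⟨h1, fun v hv => (mem_erase.1 (h2 hv)).2⟩, fun h => (mem_erase.1 (h2 h)).1 rfl⟩
  constructor
  · unfold no nr rt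
    rw [← h, add_comm]
    exact (card_filter_add_card_filter_not (s := tc X E) (fun p => x ∈ p.1)).symm
  · unfold so sr rt
    rw [← h, add_comm]
    exact (sum_filter_add_sum_filter_not (tc X E) (fun p => x ∈ p.1) (fun p => p.1.card)).symm

private theorem arith1 {n n' s s' a b α β m m' N A : ℕ} (hN : N = n + n' + a * b)
    (hA : A = s + s' + (α * b + a * β)) (h1 : s ≤ m * n) (h2 : s' ≤ m' * n')
    (h3 : a * (m + 1) ≤ 2 * α) (h4 : b * (m' + 1) ≤ 2 * β) : N * s ≤ A * n ∨ N * s' ≤ A * n' := by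
  by_contra hcon
  push Not at hcon
  obtain ⟨c1, c2⟩ := hcon
  have hNpos : 0 < N := by
    rcases Nat.eq_zero_or_pos N with h | h
    · rw [h] at c1; omega
    · exact h
  have hNq : (0 : ℚ) < N := by exact_mod_cast hNpos
  obtain ⟨μ, hμ⟩ : ∃ μ : ℚ, μ = A / N := ⟨_, rfl⟩
  have hAμ : (A : ℚ) = μ * N := by rw [hμ]; field_simp
  have q1 : (A : ℚ) * n < N * s := by exact_mod_cast c1
  have q2 : (A : ℚ) * n' < N * s' := by exact_mod_cast c2
  have r1 : μ * n < s := by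
    rw [hAμ] at q1
    have : (N : ℚ) * (μ * n) < N * s := by linarith
    exact lt_of_mul_lt_mul_left this hNq.le
  have r2 : μ * n' < s' := by
    rw [hAμ] at q2
    have : (N : ℚ) * (μ * n') < N * s' := by linarith
    exact lt_of_mul_lt_mul_left this hNq.le
  have k1 : (s : ℚ) ≤ m * n := by exact_mod_cast h1
  have k2 : (s' : ℚ) ≤ m' * n' := by exact_mod_cast h2
  have k3 : (a : ℚ) * (m + 1) ≤ 2 * α := by exact_mod_cast h3
  have k4 : (b : ℚ) * (m' + 1) ≤ 2 * β := by exact_mod_cast h4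
  have n0 : (0 : ℚ) ≤ n := Nat.cast_nonneg _
  have n0' : (0 : ℚ) ≤ n' := Nat.cast_nonneg _
  have m1 : μ < m := by
    have : μ * n < m * n := lt_of_lt_of_le r1 k1
    exact lt_of_mul_lt_mul_right this n0
  have m2 : μ < m' := by
    have : μ * n' < m' * n' := lt_of_lt_of_le r2 k2
    exact lt_of_mul_lt_mul_right this n0'
  have a0 : (0 : ℚ) ≤ a := Nat.cast_nonneg _
  have b0 : (0 : ℚ) ≤ b := Nat.cast_nonneg _
  have hab : (0 : ℚ) ≤ a * b := mul_nonneg a0 b0
  have t1 : (a : ℚ) * (m + 1) * b ≤ 2 * α * b := mul_le_mul_of_nonneg_right k3 b0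
  have t2 : (a : ℚ) * (b * (m' + 1)) ≤ a * (2 * β) := mul_le_mul_of_nonneg_left k4 a0
  have t3 : (a * b : ℚ) * μ ≤ a * b * m := mul_le_mul_of_nonneg_left m1.le hab
  have t4 : (a * b : ℚ) * μ ≤ a * b * m' := mul_le_mul_of_nonneg_left m2.le hab
  have e1 : (A : ℚ) = s + s' + (α * b + a * β) := by exact_mod_cast hA
  have e2 : (N : ℚ) = n + n' + a * b := by exact_mod_cast hN
  rw [e2] at hAμ
  nlinarith

private theorem arith2 {n n' s s' a b α β c t N A : ℕ} (hN : N = n + n' + a * b)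
    (hA : A = s + s' + (α * b + a * β)) (hn : n = c + a) (hs : s = t + α) (ha : 1 ≤ a) (hb : 1 ≤ b)
    (h1 : 2 * α ≤ a * (a + 1)) (h2 : n' ≤ β) (h3 : N * t ≤ A * c) : N * s ≤ A * n := by
  by_contra hcon
  push Not at hcon
  have hNpos : 0 < N := by
    rcases Nat.eq_zero_or_pos N with h | h
    · rw [h] at hcon; omega
    · exact h
  have hNq : (0 : ℚ) < N := by exact_mod_cast hNpos
  obtain ⟨μ, hμ⟩ : ∃ μ : ℚ, μ = A / N := ⟨_, rfl⟩
  have hAμ : (A : ℚ) = μ * N := by rw [hμ]; field_simp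
  have q1 : (A : ℚ) * n < N * s := by exact_mod_cast hcon
  have q3 : (N : ℚ) * t ≤ A * c := by exact_mod_cast h3
  have r1 : μ * n < s := by
    rw [hAμ] at q1
    have : (N : ℚ) * (μ * n) < N * s := by linarith
    exact lt_of_mul_lt_mul_left this hNq.le
  have r3 : (t : ℚ) ≤ μ * c := by
    rw [hAμ] at q3
    have : (N : ℚ) * t ≤ N * (μ * c) := by linarith
    exact le_of_mul_le_mul_left this hNq
  have e1 : (A : ℚ) = s + s' + (α * b + a * β) := by exact_mod_cast hA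
  have e2 : (N : ℚ) = n + n' + a * b := by exact_mod_cast hN
  have e3 : (n : ℚ) = c + a := by exact_mod_cast hn
  have e4 : (s : ℚ) = t + α := by exact_mod_cast hs
  have k1 : 2 * (α : ℚ) ≤ a * (a + 1) := by exact_mod_cast h1
  have k2 : (n' : ℚ) ≤ β := by exact_mod_cast h2
  have ha' : (1 : ℚ) ≤ a := by exact_mod_cast ha
  have hb' : (1 : ℚ) ≤ b := by exact_mod_cast hb
  have a0 : (0 : ℚ) < a := by linarith
  have b0 : (0 : ℚ) < b := by linarith
  have n0' : (0 : ℚ) ≤ n' := Nat.cast_nonneg _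
  have s0' : (0 : ℚ) ≤ s' := Nat.cast_nonneg _
  have α0 : (0 : ℚ) ≤ α := Nat.cast_nonneg _
  have β0 : (0 : ℚ) ≤ β := Nat.cast_nonneg _
  -- ρ = α / a > μ
  obtain ⟨ρ, hρ⟩ : ∃ ρ : ℚ, ρ = α / a := ⟨_, rfl⟩
  have hαρ : (α : ℚ) = ρ * a := by rw [hρ]; field_simp
  have hρμ : μ < ρ := by
    have : μ * a < ρ * a := by
      rw [← hαρ]
      rw [e3, e4] at r1
      linarith
    exact lt_of_mul_lt_mul_right this a0.le
  have hρ0 : 0 ≤ ρ := by rw [hρ]; positivity
  have hρ2 : 2 * ρ ≤ a + 1 := by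
    rw [hαρ] at k1
    have : (2 * ρ) * a ≤ (a + 1) * a := by linarith
    exact le_of_mul_le_mul_right this a0
  have u1 : (n' : ℚ) * ρ ≤ a * β := by
    have v1 : (n' : ℚ) * (2 * ρ) ≤ β * (a + 1) := by
      calc (n' : ℚ) * (2 * ρ) ≤ β * (2 * ρ) := mul_le_mul_of_nonneg_right k2 (by linarith)
        _ ≤ β * (a + 1) := mul_le_mul_of_nonneg_left hρ2 β0
    have v2 : (β : ℚ) * (a + 1) ≤ β * (2 * a) := mul_le_mul_of_nonneg_left (by linarith) β0
    linarith
  have u2 : (n' + a * b) * μ < (n' + a * b) * ρ := by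
    apply mul_lt_mul_of_pos_left hρμ
    have : (0 : ℚ) < a * b := mul_pos a0 b0
    linarith
  have u3 : (α : ℚ) * b = a * b * ρ := by rw [hαρ]; ring
  rw [e2] at hAμ
  nlinarith

theorem lo_or {E : Finset (Sym2 V)} {X : Finset V} {x y : V} (hE : Cn E univ) (h : Cut E X x y) :
    Lo E X ∨ Lo E Xᶜ := by
  obtain ⟨h1, h2⟩ := cut_sum h
  obtain ⟨c1, c2, c3⟩ := cut_conn hE h
  exact arith1 h1 h2 (so_le X E) (so_le Xᶜ E) (half c1 h.1) (half c2 c3.1)

theorem lo_of_erase {E : Finset (Sym2 V)} {X : Finset V} {x y : V} (hE : Cn E univ) (h : Cut E X x y)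
    (h1 : Lo E (X.erase x)) : Lo E X := by
  obtain ⟨e1, e2⟩ := cut_sum h
  obtain ⟨c1, c2, c3⟩ := cut_conn hE h
  obtain ⟨d1, d2⟩ := split_x X E x
  exact arith2 e1 e2 d1 d2 (nr_pos E h.1) (nr_pos E c3.1) (two_sr E X x) (no_le_sr c2 c3.1) h1

end Pool.Agent.LibMC91
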