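import Mathlib
import Pool.Agent.LibMC91.R5
import Pool.Agent.LibMC91.R67
import Pool.Agent.LibMC91.R8
import Pool.Agent.LibMC91.R9
import Pool.Agent.LibMC91.R10
import Pool.Agent.LibMC91.R11

set_option autoImplicit false
set_option linter.unusedSectionVars false

namespace Pool.Agent.LibMC91

open Finset Pool.Agent.LibMST Pool.Agent.LibMSB Pool.Agent.LibOC52

variable {V : Type*} [Fintype V] [DecidableEq V]

private def Fam (E : Finset (Sym2 V)) (X : Finset V) : Prop :=
  (X = univ ∨ ∃ x y, Cut E X x y) ∧ (∃ e ∈ nb E, ∀ v ∈ e, v ∈ X) ∧ Lo E Xᶜ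

private theorem lo_empty (E : Finset (Sym2 V)) : Lo E ∅ := by
  unfold Lo so no
  have : tc (∅ : Finset V) E = ∅ := by
    ext p
    rw [mem_tc]
    simp only [notMem_empty, iff_false]
    rintro ⟨⟨_, r, h⟩, h2⟩
    exact absurd (h2 h.root_mem) (notMem_empty _)
  rw [this]
  simp

private theorem star {E : Finset (Sym2 V)} (hE : Cn E univ) {X : Finset V}
    (hmin : ∀ Z, Fam E Z → X.card ≤ Z.card) {Z : Finset V} {z k : V} (hZ : Z.card < X.card)
    (hcut : Cut E Z z k) : Lo E Z := by
  by_cases h : ∃ e ∈ nb E, ∀ v ∈ e, v ∈ Z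
  · rcases lo_or hE hcut with h1 | h1
    · exact h1
    · exact absurd (hmin Z ⟨Or.inr ⟨z, k, hcut⟩, h, h1⟩) (by omega)
  · exact lo_tree hE hcut (fun e he hh => h ⟨e, he, hh⟩)

/-- The component of `x` in the graph of the edges in `A` inside `Y`. -/
private theorem exists_comp (A : Finset (Sym2 V)) (Y : Finset V) {x : V} (hx : x ∈ Y) :
    ∃ Z ⊆ Y, x ∈ Z ∧ Cn (ein A Z) Z ∧ (∀ u ∈ Z, ∀ v ∈ Y, s(u, v) ∈ A → v ∈ Z) ∧
      ∀ X : Finset V, x ∈ X → (∀ u ∈ X, ∀ v ∈ Y, s(u, v) ∈ A → v ∈ X) → Z ⊆ X := by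
  classical
  obtain ⟨Z, hZ⟩ : ∃ Z : Finset V, Z = univ.filter (fun v => Relation.ReflTransGen
    (fun u v => v ∈ Y ∧ s(u, v) ∈ A) x v) := ⟨_, rfl⟩
  have hm : ∀ v, v ∈ Z ↔ Relation.ReflTransGen (fun u v => v ∈ Y ∧ s(u, v) ∈ A) x v := by
    intro v; rw [hZ, mem_filter]; simp
  have hsub : Z ⊆ Y := by
    intro v hv
    rw [hm] at hv
    induction hv with
    | refl => exact hx
    | tail _ h _ => exact h.1
  refine ⟨Z, hsub, (hm x).2 Relation.ReflTransGen.refl, ?_, ?_, ?_⟩
  · intro U hU hne hneZ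
    by_contra hcon
    push Not at hcon
    have hinv : ∀ v, Relation.ReflTransGen (fun u v => v ∈ Y ∧ s(u, v) ∈ A) x v → (v ∈ U ↔ x ∈ U) := by
      intro v hv
      induction hv with
      | refl => exact Iff.rfl
      | @tail a b hab h ih =>
        rw [← ih]
        have haZ : a ∈ Z := (hm a).2 hab
        have hbZ : b ∈ Z := (hm b).2 (hab.tail h)
        constructor
        · intro hb
          by_contra ha
          refine hcon b hb a haZ ha ?_
          rw [mem_ein]
          refine ⟨by rw [Sym2.eq_swap]; exact h.2, ?_⟩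
          intro v hv
          rcases Sym2.mem_iff.1 hv with rfl | rfl
          · exact hbZ
          · exact haZ
        · intro ha
          by_contra hb
          refine hcon a ha b hbZ hb ?_
          rw [mem_ein]
          refine ⟨h.2, ?_⟩
          intro v hv
          rcases Sym2.mem_iff.1 hv with rfl | rfl
          · exact haZ
          · exact hbZ
    obtain ⟨v, hv⟩ := hne
    have h1 := (hinv v ((hm v).1 (hU hv))).1 hv
    apply hneZ
    apply Subset.antisymm hU
    intro w hw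
    exact (hinv w ((hm w).1 hw)).2 h1
  · intro u hu v hv huv
    exact (hm v).2 (((hm u).1 hu).tail ⟨hv, huv⟩)
  · intro X hxX hX v hv
    rw [hm] at hv
    induction hv with
    | refl => exact hxX
    | tail _ h ih => exact hX _ ih _ h.1 h.2

private theorem cut_not_nb {E : Finset (Sym2 V)} {X : Finset V} {x y : V} (h : Cut E X x y) : s(x, y) ∉ nb E := by
  intro hn
  obtain ⟨h1, h2, _, h4⟩ := h
  obtain ⟨u, hu, v, _, hv, huv⟩ := (mem_nb.1 hn).2 X (subset_univ _) ⟨x, h1⟩ (fun he => h2 (he ▸ mem_univ y))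
  rw [mem_erase] at huv
  obtain ⟨rfl, rfl⟩ := h4 u hu v hv huv.2
  exact huv.1 rfl

private theorem Cn_mono {A B : Finset (Sym2 V)} (hAB : A ⊆ B) {C : Finset V} (h : Cn A C) : Cn B C := by
  intro U h1 h2 h3
  obtain ⟨u, hu, v, hv, hv2, huv⟩ := h U h1 h2 h3
  exact ⟨u, hu, v, hv, hv2, hAB huv⟩

private theorem core_of {E : Finset (Sym2 V)} {x : V} {e : Sym2 V} (he : e ∈ nb E) (hx : x ∈ e) :
    ∃ C, x ∈ C ∧ Core E C ∧ ∀ X : Finset V, x ∈ X → (∀ u ∈ X, ∀ v, s(u, v) ∈ nb E → v ∈ X) → C ⊆ X := by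
  obtain ⟨C, _, h1, h2, h3, h4⟩ := exists_comp (nb E) univ (mem_univ x)
  refine ⟨C, h1, ⟨⟨e, he, ?_⟩, h2, fun u hu v huv => h3 u hu v (mem_univ v) huv⟩, ?_⟩
  · intro v hv
    obtain ⟨w, rfl⟩ := Sym2.mem_iff_exists.1 hx
    rcases Sym2.mem_iff.1 hv with rfl | rfl
    · exact h1
    · exact h3 _ h1 _ (mem_univ _) he
  · intro X hX h
    exact h4 X hX (fun u hu v _ huv => h u hu v huv)

private theorem lo_core {E : Finset (Sym2 V)} (hE : Cn E univ) {C : Finset V} (hC : Core E C)
    (h : ∀ Z ⊆ Cᶜ, Z.Nonempty → Cn (ein E Z) Z → (∀ u ∈ Z, ∀ v ∈ Cᶜ, v ∉ Z → s(u, v) ∉ E) →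
      (∃ z k, k ∈ C ∧ Cut E Z z k) → Lo E Z) : Lo E Cᶜ := by
  apply comp
  intro Z hZ hne hc hcl
  refine h Z hZ hne hc hcl ?_
  obtain ⟨e, he, he2⟩ := hC.ne
  have hCne : C.Nonempty := by
    induction e using Sym2.ind with
    | _ a b => exact ⟨a, he2 a (Sym2.mem_mk_left a b)⟩
  apply cut_of_comp hE hne hc (Cn_mono _ hC.conn) _ _ hCne
  · intro e he
    rw [mem_ein] at he ⊢
    exact ⟨(mem_nb.1 he.1).1, he.2⟩
  · rw [disjoint_left]
    intro a ha ha2
    exact (mem_compl.1 (hZ ha)) ha2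
  · intro u hu v hv huv
    have hvC : v ∈ C := by
      by_contra hvC
      exact hcl u hu v (mem_compl.2 hvC) hv huv
    refine ⟨hvC, fun hn => ?_⟩
    rw [Sym2.eq_swap] at hn
    exact (mem_compl.1 (hZ hu)) (hC.closed v hvC u hn)

theorem exists_core {E : Finset (Sym2 V)} (hl : ∀ e ∈ E, ¬ e.IsDiag) (hE : Cn E univ) (hne : (nb E).Nonempty) :
    ∃ C, Core E C ∧ Lo E Cᶜ := by
  classical
  have hex : (univ.filter (fun X : Finset V => Fam E X)).Nonempty := by
    refine ⟨univ, mem_filter.2 ⟨mem_univ _, Or.inl rfl, ?_, ?_⟩⟩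
    · obtain ⟨e, he⟩ := hne
      exact ⟨e, he, fun v _ => mem_univ v⟩
    · rw [compl_univ]; exact lo_empty E
  obtain ⟨X, hX, hmin'⟩ := exists_min_image _ Finset.card hex
  rw [mem_filter] at hX
  have hmin : ∀ Z, Fam E Z → X.card ≤ Z.card := fun Z hZ => hmin' Z (mem_filter.2 ⟨mem_univ _, hZ⟩)
  obtain ⟨hXc, ⟨e, he, heX⟩, hXlo⟩ := hX.2
  rcases hXc with hXu | ⟨x, y, hcut⟩
  · -- the whole graph
    obtain ⟨a, b, rfl⟩ : ∃ a b, e = s(a, b) := by
      induction e using Sym2.ind with
      | _ a b => exact ⟨a, b, rfl⟩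
    obtain ⟨C, haC, hC, _⟩ := core_of he (Sym2.mem_mk_left a b)
    refine ⟨C, hC, lo_core hE hC ?_⟩
    rintro Z hZ _ _ _ ⟨z, k, _, hzk⟩
    apply star hE hmin _ hzk
    rw [hXu]
    apply card_lt_card
    rw [ssubset_univ_iff]
    intro h
    rw [h] at hZ
    exact (mem_compl.1 (hZ (mem_univ a))) haC
  · obtain ⟨hxX, hyX, hxy, hun⟩ := id hcut
    obtain ⟨hcX, hcX', hcut'⟩ := cut_conn hE hcut
    by_cases hx : ∃ e ∈ nb E, x ∈ e
    · obtain ⟨e', he', hxe⟩ := hx
      obtain ⟨C, hxC, hC, hCm⟩ := core_of he' hxe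
      have hCX : C ⊆ X := by
        apply hCm X hxX
        intro u hu v huv
        by_contra hv
        obtain ⟨rfl, rfl⟩ := hun u hu v hv (mem_nb.1 huv).1
        exact cut_not_nb hcut huv
      refine ⟨C, hC, lo_core hE hC ?_⟩
      rintro Z hZ hZne hZc hcl ⟨z, k, _, hzk⟩
      by_cases hmeet : (Z ∩ Xᶜ).Nonempty
      · have h1 : Xᶜ ⊆ Z := by
          by_contra hcon
          obtain ⟨u, hu, v, hv, hvU, huv⟩ := hcX' (Z ∩ Xᶜ) inter_subset_right hmeet (by
            intro h
            apply hcon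
            rw [← h]
            exact inter_subset_left)
          rw [mem_inter] at hu hvU
          have hvZ : v ∉ Z := fun h => hvU ⟨h, hv⟩
          exact hcl u hu.1 v (mem_compl.2 (fun h => (mem_compl.1 hv) (hCX h))) hvZ (mem_ein.1 huv).1
        have h2 : Z ⊆ Xᶜ := by
          by_contra hcon
          obtain ⟨u, hu, v, hv, hvU, huv⟩ := hZc (Z ∩ Xᶜ) inter_subset_left hmeet (by
            intro h
            apply hcon
            rw [← h]
            exact inter_subset_right)
          rw [mem_inter] at hu hvU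
          have hvX : v ∈ X := by
            by_contra h
            exact hvU ⟨hv, mem_compl.2 h⟩
          have huv' := (mem_ein.1 huv).1
          rw [Sym2.eq_swap] at huv'
          obtain ⟨rfl, _⟩ := hun v hvX u (mem_compl.1 hu.2) huv'
          exact (mem_compl.1 (hZ hv)) hxC
        rw [Subset.antisymm h2 h1]
        exact hXlo
      · apply star hE hmin _ hzk
        apply card_lt_card
        rw [ssubset_iff_of_subset]
        · exact ⟨x, hxX, fun h => (mem_compl.1 (hZ h)) hxC⟩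
        · intro v hv
          by_contra h
          exact hmeet ⟨v, mem_inter.2 ⟨hv, mem_compl.2 h⟩⟩
    · exfalso
      push Not at hx
      obtain ⟨a, b, rfl⟩ : ∃ a b, e = s(a, b) := by
        induction e using Sym2.ind with
        | _ a b => exact ⟨a, b, rfl⟩
      have haX : a ∈ X.erase x := by
        rw [mem_erase]
        refine ⟨?_, heX a (Sym2.mem_mk_left a b)⟩
        rintro rfl
        exact hx _ he (Sym2.mem_mk_left _ _)
      have hbX : b ∈ X.erase x := by
        rw [mem_erase]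
        refine ⟨?_, heX b (Sym2.mem_mk_right a b)⟩
        rintro rfl
        exact hx _ he (Sym2.mem_mk_right _ _)
      obtain ⟨Z1, hZ1, haZ, hZ1c, hZ1cl, _⟩ := exists_comp E (X.erase x) haX
      have hbZ : b ∈ Z1 := hZ1cl a haZ b hbX (mem_nb.1 he).1
      -- edges from a part of X.erase x to the outside
      have hout : ∀ u ∈ X.erase x, ∀ v, s(u, v) ∈ E → v ∈ X.erase x ∨ (v = x ∧ s(u, v) ∉ nb E) := by
        intro u hu v huv
        rw [mem_erase] at hu
        by_cases hvx : v = x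
        · right
          refine ⟨hvx, fun hn => hx _ hn ?_⟩
          rw [hvx]
          exact Sym2.mem_mk_right _ _
        · left
          rw [mem_erase]
          refine ⟨hvx, ?_⟩
          by_contra hv
          exact hu.1 (hun u hu.2 v hv huv).1
      have hcx : Cn (ein E {x}) ({x} : Finset V) := by
        intro U h1 h2 h3
        exfalso
        rcases subset_singleton_iff.1 h1 with h | h
        · rw [h] at h2; exact not_nonempty_empty h2
        · exact h3 h
      have hsub : ∀ Z : Finset V, Z ⊆ X.erase x → Z.Nonempty → Cn (ein E Z) Z →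
          (∀ u ∈ Z, ∀ v ∈ X.erase x, v ∉ Z → s(u, v) ∉ E) → ∃ z, Cut E Z z x := by
        intro Z hZ hne hc hcl
        obtain ⟨z, k, hk, hzk⟩ := cut_of_comp (K := {x}) hE hne hc hcx (by
          rw [disjoint_singleton_right]
          intro h
          exact (mem_erase.1 (hZ h)).1 rfl) (by
          intro u hu v hv huv
          rcases hout u (hZ hu) v huv with h | h
          · exact absurd huv (hcl u hu v h hv)
          · exact ⟨mem_singleton.2 h.1, h.2⟩) (singleton_nonempty x)
        rw [mem_singleton.1 hk] at hzk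
        exact ⟨z, hzk⟩
      obtain ⟨z1, hz1⟩ := hsub Z1 hZ1 ⟨a, haZ⟩ hZ1c (fun u hu v hv hvn huv => hvn (hZ1cl u hu v hv huv))
      obtain ⟨_, _, hz1'⟩ := cut_conn hE hz1
      have hZ1X : Z1 ⊆ X := fun v hv => (mem_erase.1 (hZ1 hv)).2
      have hxZ1 : x ∉ Z1 := fun h => (mem_erase.1 (hZ1 h)).1 rfl
      have hset : Z1ᶜ.erase x = Xᶜ ∪ (X.erase x \ Z1) := by
        ext v
        rw [mem_erase, mem_compl, mem_union, mem_compl, mem_sdiff, mem_erase]
        constructor
        · rintro ⟨h1, h2⟩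
          by_cases h : v ∈ X
          · exact Or.inr ⟨⟨h1, h⟩, h2⟩
          · exact Or.inl h
        · rintro (h | ⟨⟨h1, h2⟩, h3⟩)
          · refine ⟨?_, fun h' => h (hZ1X h')⟩
            rintro rfl
            exact h hxX
          · exact ⟨h1, h3⟩
      have hlo1 : Lo E (X.erase x \ Z1) := by
        apply comp
        intro Z hZ hne hc hcl
        have hZY : Z ⊆ X.erase x := fun v hv => (mem_sdiff.1 (hZ hv)).1
        obtain ⟨z, hz⟩ := hsub Z hZY hne hc (by
          intro u hu v hv hvn huv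
          by_cases hvZ1 : v ∈ Z1
          · rw [Sym2.eq_swap] at huv
            exact (mem_sdiff.1 (hZ hu)).2 (hZ1cl v hvZ1 u (hZY hu) huv)
          · exact hcl u hu v (mem_sdiff.2 ⟨hv, hvZ1⟩) hvn huv)
        apply star hE hmin _ hz
        apply card_lt_card
        rw [ssubset_iff_of_subset (fun v hv => (mem_erase.1 (hZY hv)).2)]
        exact ⟨x, hxX, fun h => (mem_erase.1 (hZY h)).1 rfl⟩
      have hlo2 : Lo E (Z1ᶜ.erase x) := by
        rw [hset]
        apply lo_union
        · rw [disjoint_left]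
          intro v hv hv2
          exact (mem_compl.1 hv) (mem_erase.1 (mem_sdiff.1 hv2).1).2
        · intro u hu v hv huv
          have hvX := mem_erase.1 (mem_sdiff.1 hv).1
          rw [Sym2.eq_swap] at huv
          exact hvX.1 (hun v hvX.2 u (mem_compl.1 hu) huv).1
        · exact hXlo
        · exact hlo1
      have hlo3 : Lo E Z1ᶜ := lo_of_erase hE hz1' hlo2
      have h9 := hmin Z1 ⟨Or.inr ⟨z1, x, hz1⟩, ⟨s(a, b), he, by
        intro v hv
        rcases Sym2.mem_iff.1 hv with rfl | rfl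
        · exact haZ
        · exact hbZ⟩, hlo3⟩
      have h10 : Z1.card < X.card := by
        apply card_lt_card
        rw [ssubset_iff_of_subset hZ1X]
        exact ⟨x, hxX, hxZ1⟩
      omega

end Pool.Agent.LibMC91
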