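import Mathlib
import Pool.Agent.LibMC91.Sig
import Pool.Agent.LibMC91.R9
import Pool.Agent.LibMC91.R10

set_option autoImplicit false
set_option linter.unusedSectionVars false

namespace Pool.Agent.LibMC91

open Finset Pool.Agent.LibMST Pool.Agent.LibMSB Pool.Agent.LibOC52

variable {V : Type*} [Fintype V] [DecidableEq V]



/-- the component of `a` in the graph `A` restricted to `Y` -/
private theorem r13_component (A : Finset (Sym2 V)) {Y : Finset V} {a : V} (ha : a ∈ Y) :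
    ∃ Z ⊆ Y, a ∈ Z ∧ Cn (ein A Z) Z ∧ ∀ u ∈ Z, ∀ v ∈ Y, s(u, v) ∈ A → v ∈ Z := by
  classical
  let R : V → V → Prop := fun p q => s(p, q) ∈ A ∧ q ∈ Y
  let Z : Finset V := Y.filter (fun v => Relation.ReflTransGen R a v)
  have hmem : ∀ v, v ∈ Z ↔ v ∈ Y ∧ Relation.ReflTransGen R a v := fun v => mem_filter
  have haZ : a ∈ Z := (hmem a).2 ⟨ha, Relation.ReflTransGen.refl⟩
  refine ⟨Z, filter_subset _ _, haZ, ?_, ?_⟩
  · intro U hU hUn hUne
    by_contra hcon
    push Not at hcon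
    have hstep : ∀ p q, p ∈ Z → R p q → (p ∈ U ↔ q ∈ U) := by
      intro p q hp hR
      have hq : q ∈ Z := (hmem q).2 ⟨hR.2, ((hmem p).1 hp).2.tail hR⟩
      have he : s(p, q) ∈ ein A Z := by
        rw [mem_ein]
        refine ⟨hR.1, fun v hv => ?_⟩
        rw [Sym2.mem_iff] at hv
        rcases hv with rfl | rfl
        · exact hp
        · exact hq
      constructor
      · intro h1
        by_contra h2
        exact hcon p h1 q hq h2 he
      · intro h1
        by_contra h2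
        exact hcon q h1 p hp h2 (Sym2.eq_swap ▸ he)
    have hall : ∀ v, Relation.ReflTransGen R a v → (v ∈ Z ∧ (a ∈ U ↔ v ∈ U)) := by
      intro v hv
      induction hv with
      | refl => exact ⟨haZ, Iff.rfl⟩
      | @tail b c h1 h2 ih =>
        refine ⟨(hmem c).2 ⟨h2.2, h1.tail h2⟩, ih.2.trans (hstep b c ih.1 h2)⟩
    obtain ⟨w, hw⟩ := hUn
    have hwa : a ∈ U := (hall w ((hmem w).1 (hU hw)).2).2.2 hw
    apply hUne
    refine Subset.antisymm hU (fun v hv => ?_)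
    exact (hall v ((hmem v).1 hv).2).2.1 hwa
  · intro u hu v hv huv
    exact (hmem v).2 ⟨hv, ((hmem u).1 hu).2.tail ⟨huv, hv⟩⟩

private theorem r13_Cn_mono {A B : Finset (Sym2 V)} (h : A ⊆ B) {X : Finset V} (hc : Cn A X) : Cn B X := by
  intro U h1 h2 h3
  obtain ⟨u, hu, v, hv, h4, h5⟩ := hc U h1 h2 h3
  exact ⟨u, hu, v, hv, h4, h h5⟩

/-- `Z` is a component of the complement of `C` -/
private def r13_Cp (E : Finset (Sym2 V)) (C Z : Finset V) : Prop :=
  Z ⊆ Cᶜ ∧ Cn (ein E Z) Z ∧ ∀ u ∈ Z, ∀ v ∈ Cᶜ, s(u, v) ∈ E → v ∈ Z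

private theorem r13_sub {E : Finset (Sym2 V)} {C Z Z' : Finset V} (h : r13_Cp E C Z) (h' : r13_Cp E C Z') {v : V}
    (hv : v ∈ Z) (hv' : v ∈ Z') : Z ⊆ Z' := by
  by_contra hcon
  have hne : Z ∩ Z' ≠ Z := fun h1 => hcon (fun w hw => (mem_inter.1 (h1.symm ▸ hw)).2)
  obtain ⟨u, hu, w, hw, hw2, huw⟩ := h.2.1 (Z ∩ Z') inter_subset_left ⟨v, mem_inter.2 ⟨hv, hv'⟩⟩ hne
  exact hw2 (mem_inter.2 ⟨hw, h'.2.2 u (mem_inter.1 hu).2 w (h.1 hw) (mem_ein.1 huw).1⟩)

private theorem r13_root {E : Finset (Sym2 V)} {C : Finset V} (hE : Cn E univ) (hC : Core E C) : ∃ r, Root E C r := by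
  classical
  have hCne : C.Nonempty := by
    obtain ⟨e, -, he⟩ := hC.ne
    induction e using Sym2.ind with
    | _ a b => exact ⟨a, he a (Sym2.mem_mk_left a b)⟩
  have hCc : Cn (ein E C) C := by
    refine r13_Cn_mono ?_ hC.conn
    intro e he
    rw [mem_ein] at he ⊢
    exact ⟨(mem_nb.1 he.1).1, he.2⟩
  have hex : ∀ v, v ∉ C → ∃ Z z k, v ∈ Z ∧ r13_Cp E C Z ∧ k ∈ C ∧ Cut E Z z k := by
    intro v hv
    obtain ⟨Z, hZ, hvZ, hZc, hcl⟩ := r13_component E (mem_compl.2 hv)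
    obtain ⟨z, k, hk, hcut⟩ := cut_of_comp hE ⟨v, hvZ⟩ hZc hCc
      (disjoint_left.2 fun w hw hwC => (mem_compl.1 (hZ hw)) hwC) (by
        intro u hu w hw huw
        have hwC : w ∈ C := by
          by_contra h1
          exact hw (hcl u hu w (mem_compl.2 h1) huw)
        refine ⟨hwC, fun hnb => ?_⟩
        have : u ∈ C := hC.closed w hwC u (Sym2.eq_swap ▸ hnb)
        exact mem_compl.1 (hZ hu) this) hCne
    exact ⟨Z, z, k, hvZ, ⟨hZ, hZc, hcl⟩, hk, hcut⟩
  choose! Z z k hv hZ hk hcut using hex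
  have huniq : ∀ u v, u ∉ C → v ∉ C → u ∈ Z v → k u = k v := by
    intro u v hu hv' huv
    have h1 : Z u = Z v := Subset.antisymm (r13_sub (hZ u hu) (hZ v hv') (hv u hu) huv)
      (r13_sub (hZ v hv') (hZ u hu) huv (hv u hu))
    have h2 := hcut u hu
    rw [h1] at h2
    exact ((hcut v hv').2.2.2 (z u) h2.1 (k u) h2.2.1 h2.2.2.1).2
  refine ⟨fun v => if v ∈ C then v else k v, ⟨?_, ?_, ?_⟩⟩
  · intro v
    by_cases h : v ∈ C
    · simp only [h, if_true]
    · simp only [h, if_false]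
      exact hk v h
  · intro v h
    simp only [h, if_true]
  · intro u v huv hn
    by_cases h1 : u ∈ C
    · have h2 : v ∉ C := fun h2 => hn ⟨h1, h2⟩
      simp only [h1, h2, if_true, if_false]
      have h3 : u ∉ Z v := fun h3 => mem_compl.1 ((hZ v h2).1 h3) h1
      exact ((hcut v h2).2.2.2 v (hv v h2) u h3 (Sym2.eq_swap ▸ huv)).2
    · by_cases h2 : v ∈ C
      · simp only [h1, h2, if_true, if_false]
        have h3 : v ∉ Z u := fun h3 => mem_compl.1 ((hZ u h1).1 h3) h2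
        exact ((hcut u h1).2.2.2 u (hv u h1) v h3 huv).2.symm
      · simp only [h1, h2, if_false]
        exact huniq u v h1 h2 ((hZ v h2).2.2 v (hv v h2) u (mem_compl.2 h1) (Sym2.eq_swap ▸ huv))

private theorem r13_ein {E : Finset (Sym2 V)} {C : Finset V} (hE : Cn E univ) (hC : Core E C) :
    ein E C = ein (nb E) C := by
  classical
  ext e
  rw [mem_ein, mem_ein]
  constructor
  · rintro ⟨h1, h2⟩
    refine ⟨?_, h2⟩
    by_contra hnb
    apply hnb
    rw [mem_nb]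
    refine ⟨h1, ?_⟩
    intro U hU hUn hUne
    obtain ⟨u, hu, h, hh, hhU, huh⟩ := hE U hU hUn hUne
    by_cases hue : s(u, h) = e
    · have huC : u ∈ C := h2 u (hue ▸ Sym2.mem_mk_left u h)
      have hhC : h ∈ C := h2 h (hue ▸ Sym2.mem_mk_right u h)
      have hne : U ∩ C ≠ C := fun h3 => hhU (mem_inter.1 (h3.symm ▸ hhC)).1
      obtain ⟨p, hp, q, hq, hq2, hpq⟩ := hC.conn (U ∩ C) inter_subset_right ⟨u, mem_inter.2 ⟨hu, huC⟩⟩ hne
      have hpqn := (mem_ein.1 hpq).1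
      refine ⟨p, (mem_inter.1 hp).1, q, mem_univ q, fun h3 => hq2 (mem_inter.2 ⟨h3, hq⟩), ?_⟩
      rw [mem_erase]
      refine ⟨fun h3 => hnb (h3 ▸ hpqn), (mem_nb.1 hpqn).1⟩
    · exact ⟨u, hu, h, hh, hhU, mem_erase.2 ⟨hue, huh⟩⟩
  · rintro ⟨h1, h2⟩
    exact ⟨(mem_nb.1 h1).1, h2⟩

/-- ROW 13 (root function and 2-edge-connectivity of a core). -/
theorem core_root {E : Finset (Sym2 V)} {C : Finset V} (hl : ∀ e ∈ E, ¬ e.IsDiag) (hE : Cn E univ) (hC : Core E C) :
    (∃ r, Root E C r) ∧ ein E C = ein (nb E) C ∧ Cn (ein E C) C ∧ ∀ e ∈ ein E C, Cn ((ein E C).erase e) C := by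
  classical
  obtain ⟨r, hr⟩ := r13_root hE hC
  have h1 := r13_ein hE hC
  refine ⟨⟨r, hr⟩, h1, ?_, ?_⟩
  · rw [h1]
    exact hC.conn
  · intro e he
    have henb : Cn (E.erase e) univ := by
      have h2 := he
      rw [h1, mem_ein, mem_nb] at h2
      exact h2.1.2
    intro U hU hUn hUne
    obtain ⟨c, hc, hcU⟩ : ∃ c ∈ C, c ∉ U := by
      by_contra hcon
      push Not at hcon
      exact hUne (Subset.antisymm hU hcon)
    obtain ⟨w, hw⟩ := hUn
    obtain ⟨u, hu, h, -, hh, huh⟩ := henb (univ.filter (fun v => r v ∈ U)) (subset_univ _)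
      ⟨w, mem_filter.2 ⟨mem_univ w, by rw [hr.id w (hU hw)]; exact hw⟩⟩ (by
        intro h3
        have h4 : c ∈ univ.filter (fun v => r v ∈ U) := by
          rw [h3]
          exact mem_univ c
        have h5 := (mem_filter.1 h4).2
        rw [hr.id c hc] at h5
        exact hcU h5)
    have hu' : r u ∈ U := (mem_filter.1 hu).2
    have hh' : r h ∉ U := fun h3 => hh (mem_filter.2 ⟨mem_univ h, h3⟩)
    have hboth : u ∈ C ∧ h ∈ C := by
      by_contra hcon
      have h3 := hr.edge u h (mem_erase.1 huh).2 hcon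
      rw [h3] at hu'
      exact hh' hu'
    rw [hr.id u hboth.1] at hu'
    rw [hr.id h hboth.2] at hh'
    refine ⟨u, hu', h, hboth.2, hh', ?_⟩
    rw [mem_erase, mem_ein]
    refine ⟨(mem_erase.1 huh).1, (mem_erase.1 huh).2, fun v hv => ?_⟩
    rw [Sym2.mem_iff] at hv
    rcases hv with rfl | rfl
    · exact hboth.1
    · exact hboth.2

end Pool.Agent.LibMC91
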