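import Mathlib
import Pool.Agent.LibMC91.Sig

set_option autoImplicit false
set_option linter.unusedSectionVars false

namespace Pool.Agent.LibMC91

open Finset Pool.Agent.LibMST Pool.Agent.LibMSB Pool.Agent.LibOC52

variable {V : Type*} [Fintype V] [DecidableEq V]

private theorem rt_grow {E : Finset (Sym2 V)} {h : V} {p : Finset V × Finset (Sym2 V)} (hp : p ∈ rt univ E h) :
    p.2 ⊆ E ∧ Grow h p.1 p.2 := by
  rw [mem_rt] at hp
  obtain ⟨⟨⟨h1, r, h2⟩, _⟩, h3⟩ := hp
  exact ⟨h1, h2.reroot h h3⟩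

private theorem grow_rt {E : Finset (Sym2 V)} {h : V} {p : Finset V × Finset (Sym2 V)} (h1 : p.2 ⊆ E)
    (h2 : Grow h p.1 p.2) : p ∈ rt univ E h := by
  rw [mem_rt]
  exact ⟨⟨⟨h1, h, h2⟩, subset_univ _⟩, h2.root_mem⟩

/-- ROW 14b -/
theorem glue_inter {E1 E2 : Finset (Sym2 V)} {h : V} (hd : ∀ v, v ≠ h → (∃ e ∈ E1, v ∈ e) → ¬ ∃ e ∈ E2, v ∈ e)
    {p q : Finset V × Finset (Sym2 V)} (hp : p ∈ rt univ E1 h) (hq : q ∈ rt univ E2 h) : p.1 ∩ q.1 = {h} := by
  obtain ⟨h1, h2⟩ := rt_grow hp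
  obtain ⟨h3, h4⟩ := rt_grow hq
  ext v
  rw [mem_inter, mem_singleton]
  constructor
  · rintro ⟨h5, h6⟩
    by_contra hv
    rcases h2.cover v h5 with h7 | ⟨e, he, hve⟩
    · exact hv h7
    · rcases h4.cover v h6 with h8 | ⟨f, hf, hvf⟩
      · exact hv h8
      · exact hd v hv ⟨e, h1 he, hve⟩ ⟨f, h3 hf, hvf⟩
  · rintro rfl
    exact ⟨h2.root_mem, h4.root_mem⟩

private theorem join {h : V} {P1 : Finset V} {P2 : Finset (Sym2 V)} (hP : Grow h P1 P2) {C : Finset V}
    {B : Finset (Sym2 V)} (hB : Grow h C B) : (∀ v ∈ C, v ∈ P1 → v = h) → Grow h (P1 ∪ C) (P2 ∪ B) := by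
  induction hB with
  | base =>
    intro _
    have e1 : P1 ∪ {h} = P1 := union_eq_left.2 (singleton_subset_iff.2 hP.root_mem)
    rw [e1, union_empty]
    exact hP
  | @step C B x w hg hx hw ih =>
    intro hC
    have h1 := ih (fun v hv => hC v (mem_insert_of_mem hv))
    have h2 : w ∉ P1 ∪ C := by
      rw [mem_union]
      rintro (h3 | h3)
      · have h4 := hC w (mem_insert_self _ _) h3
        rw [h4] at hw
        exact hw hg.root_mem
      · exact hw h3
    rw [union_insert, union_insert]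
    exact h1.step (mem_union_right _ hx) h2

private theorem split {E1 E2 : Finset (Sym2 V)} {h : V}
    (hd : ∀ v, v ≠ h → (∃ e ∈ E1, v ∈ e) → ¬ ∃ e ∈ E2, v ∈ e) {C : Finset V} {B : Finset (Sym2 V)}
    (hg : Grow h C B) : B ⊆ E1 ∪ E2 → ∃ p q : Finset V × Finset (Sym2 V), p.2 ⊆ E1 ∧ q.2 ⊆ E2 ∧ Grow h p.1 p.2 ∧
      Grow h q.1 q.2 ∧ p.1 ∪ q.1 = C ∧ p.2 ∪ q.2 = B := by
  induction hg with
  | base =>
    intro _
    exact ⟨({h}, ∅), ({h}, ∅), empty_subset _, empty_subset _, Grow.base, Grow.base, by simp, by simp⟩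
  | @step C B x w hg hx hw ih =>
    intro hsub
    obtain ⟨p, q, hp, hq, gp, gq, h1, h2⟩ := ih (fun e he => hsub (mem_insert_of_mem he))
    have hxpq : x ∈ p.1 ∪ q.1 := by rw [h1]; exact hx
    have hwpq : w ∉ p.1 ∪ q.1 := by rw [h1]; exact hw
    rw [mem_union] at hxpq
    rw [mem_union, not_or] at hwpq
    have hxw := hsub (mem_insert_self s(x, w) B)
    rw [mem_union] at hxw
    rcases hxw with h3 | h3
    · have hxp : x ∈ p.1 := by
        rcases hxpq with h4 | h4
        · exact h4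
        · rcases gq.cover x h4 with h5 | ⟨e, he, hxe⟩
          · rw [h5]
            exact gp.root_mem
          · by_cases hxh : x = h
            · rw [hxh]
              exact gp.root_mem
            · exact absurd ⟨e, hq he, hxe⟩ (hd x hxh ⟨_, h3, Sym2.mem_mk_left x w⟩)
      refine ⟨(insert w p.1, insert s(x, w) p.2), q, ?_, hq, gp.step hxp hwpq.1, gq, ?_, ?_⟩
      · exact insert_subset h3 hp
      · rw [← h1]
        exact insert_union _ _ _
      · rw [← h2]
        exact insert_union _ _ _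
    · have hxq : x ∈ q.1 := by
        rcases hxpq with h4 | h4
        · rcases gp.cover x h4 with h5 | ⟨e, he, hxe⟩
          · rw [h5]
            exact gq.root_mem
          · by_cases hxh : x = h
            · rw [hxh]
              exact gq.root_mem
            · exact absurd ⟨_, h3, Sym2.mem_mk_left x w⟩ (hd x hxh ⟨e, hp he, hxe⟩)
        · exact h4
      refine ⟨p, (insert w q.1, insert s(x, w) q.2), hp, ?_, gp, gq.step hxq hwpq.2, ?_, ?_⟩
      · exact insert_subset h3 hq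
      · rw [← h1]
        exact union_insert _ _ _
      · rw [← h2]
        exact union_insert _ _ _

/-- ROW 14 (gluing at a cut vertex: bijection of the trees through `h`). -/
theorem glue {E1 E2 : Finset (Sym2 V)} {h : V} (hd : ∀ v, v ≠ h → (∃ e ∈ E1, v ∈ e) → ¬ ∃ e ∈ E2, v ∈ e)
    (hd2 : Disjoint E1 E2) (F : Finset V × Finset (Sym2 V) → ℚ) :
    ∑ p ∈ rt univ (E1 ∪ E2) h, F p =
      ∑ p ∈ rt univ E1 h, ∑ q ∈ rt univ E2 h, F (p.1 ∪ q.1, p.2 ∪ q.2) := by
  classical
  have himg : rt univ (E1 ∪ E2) h =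
      (rt univ E1 h ×ˢ rt univ E2 h).image (fun z => (z.1.1 ∪ z.2.1, z.1.2 ∪ z.2.2)) := by
    ext T
    rw [mem_image]
    constructor
    · intro hT
      obtain ⟨h1, h2⟩ := rt_grow hT
      obtain ⟨p, q, hp, hq, gp, gq, h3, h4⟩ := split hd h2 h1
      refine ⟨(p, q), mem_product.2 ⟨grow_rt hp gp, grow_rt hq gq⟩, ?_⟩
      exact Prod.ext h3 h4
    · rintro ⟨z, hz, rfl⟩
      rw [mem_product] at hz
      obtain ⟨h1, h2⟩ := rt_grow hz.1
      obtain ⟨h3, h4⟩ := rt_grow hz.2
      have h5 := glue_inter hd hz.1 hz.2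
      refine grow_rt (union_subset_union h1 h3) (join h2 h4 fun v hv hv' => ?_)
      have h6 : v ∈ z.1.1 ∩ z.2.1 := mem_inter.2 ⟨hv', hv⟩
      rw [h5, mem_singleton] at h6
      exact h6
  rw [himg, sum_image]
  · rw [sum_product]
  · intro z hz z' hz' hzz
    rw [mem_coe, mem_product] at hz hz'
    obtain ⟨h1, h2⟩ := rt_grow hz.1
    obtain ⟨h3, h4⟩ := rt_grow hz.2
    obtain ⟨h1', h2'⟩ := rt_grow hz'.1
    obtain ⟨h3', h4'⟩ := rt_grow hz'.2
    have e2 : z.1.2 ∪ z.2.2 = z'.1.2 ∪ z'.2.2 := congrArg Prod.snd hzz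
    have k1 : z.1.2 = z'.1.2 := by
      ext e
      constructor
      · intro he
        have : e ∈ z'.1.2 ∪ z'.2.2 := by rw [← e2]; exact mem_union_left _ he
        rcases mem_union.1 this with h5 | h5
        · exact h5
        · exact absurd (h3' h5) (disjoint_left.1 hd2 (h1 he))
      · intro he
        have : e ∈ z.1.2 ∪ z.2.2 := by rw [e2]; exact mem_union_left _ he
        rcases mem_union.1 this with h5 | h5
        · exact h5
        · exact absurd (h3 h5) (disjoint_left.1 hd2 (h1' he))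
    have k2 : z.2.2 = z'.2.2 := by
      ext e
      constructor
      · intro he
        have : e ∈ z'.1.2 ∪ z'.2.2 := by rw [← e2]; exact mem_union_right _ he
        rcases mem_union.1 this with h5 | h5
        · exact absurd (h3 he) (disjoint_left.1 hd2 (h1' h5))
        · exact h5
      · intro he
        have : e ∈ z.1.2 ∪ z.2.2 := by rw [e2]; exact mem_union_right _ he
        rcases mem_union.1 this with h5 | h5
        · exact absurd (h3' he) (disjoint_left.1 hd2 (h1 h5))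
        · exact h5
    rw [k1] at h2
    rw [k2] at h4
    have k3 : z.1.1 = z'.1.1 := h2.verts_unique h2'
    have k4 : z.2.1 = z'.2.1 := h4.verts_unique h4'
    exact Prod.ext (Prod.ext k3 k1) (Prod.ext k4 k2)

end Pool.Agent.LibMC91
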