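import Mathlib
import Pool.Agent.LibMC91.Sig
import Pool.Agent.LibMC91.R14

set_option autoImplicit false
set_option linter.unusedSectionVars false

namespace Pool.Agent.LibMC91

open Finset Pool.Agent.LibMST Pool.Agent.LibMSB Pool.Agent.LibOC52

variable {V : Type*} [Fintype V] [DecidableEq V]

/-- the edges hanging at `h` -/
private def hg (E : Finset (Sym2 V)) (C : Finset V) (r : V → V) (h : V) : Finset (Sym2 V) :=
  (E \ ein E C).filter (fun e => ∀ v ∈ e, r v = h)

private theorem mem_hg {E : Finset (Sym2 V)} {C : Finset V} {r : V → V} {h : V} {e : Sym2 V} :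
    e ∈ hg E C r h ↔ (e ∈ E ∧ e ∉ ein E C) ∧ ∀ v ∈ e, r v = h := by
  unfold hg; rw [mem_filter, mem_sdiff]

private theorem edge_val {E : Finset (Sym2 V)} {C : Finset V} {r : V → V} (hr : Root E C r) {e : Sym2 V}
    (he : e ∈ E) (he2 : e ∉ ein E C) {u v : V} (hu : u ∈ e) (hv : v ∈ e) : r u = r v := by
  induction e using Sym2.ind with
  | _ a b =>
    have hab : r a = r b := by
      apply hr.edge a b he
      intro hc
      apply he2
      rw [mem_ein]
      refine ⟨he, fun w hw => ?_⟩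
      rcases Sym2.mem_iff.1 hw with rfl | rfl
      · exact hc.1
      · exact hc.2
    rcases Sym2.mem_iff.1 hu with rfl | rfl <;> rcases Sym2.mem_iff.1 hv with rfl | rfl
    · rfl
    · exact hab
    · exact hab.symm
    · rfl

private theorem rt_hg {E : Finset (Sym2 V)} {C : Finset V} {r : V → V} (hr : Root E C r) {h : V}
    (hh : h ∈ C) : rt univ (E \ ein E C) h = rt univ (hg E C r h) h := by
  ext p
  rw [mem_rt, mem_rt]
  constructor
  · rintro ⟨⟨⟨h1, r0, h2⟩, h3⟩, h4⟩
    have h5 := h2.reroot h h4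
    have h6 : ∀ v ∈ p.1, r v = h := by
      apply h5.sub_of_closed (fun v => r v = h) (hr.id h hh)
      intro e he
      have he' := mem_sdiff.1 (h1 he)
      by_cases hx : ∀ v ∈ e, r v = h
      · exact Or.inl hx
      · right
        push Not at hx
        obtain ⟨v, hv, hv2⟩ := hx
        intro w hw hw2
        exact hv2 ((edge_val hr he'.1 he'.2 hv hw).trans hw2)
    refine ⟨⟨⟨fun e he => mem_hg.2 ⟨mem_sdiff.1 (h1 he), fun v hv => h6 v (h2.edge_sub e he v hv)⟩,
      r0, h2⟩, h3⟩, h4⟩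
  · rintro ⟨⟨⟨h1, r0, h2⟩, h3⟩, h4⟩
    exact ⟨⟨⟨fun e he => mem_sdiff.2 (mem_hg.1 (h1 he)).1, r0, h2⟩, h3⟩, h4⟩

private def EP (E : Finset (Sym2 V)) (C : Finset V) (r : V → V) (B : Finset (Sym2 V)) (P : Finset V) :
    Finset (Sym2 V) := B ∪ P.biUnion (hg E C r)

private noncomputable def Fam (E : Finset (Sym2 V)) (C : Finset V) (r : V → V)
    (S : Finset V × Finset (Sym2 V)) (P : Finset V) : Finset (Finset V × Finset (Sym2 V)) :=
  (TP (EP E C r S.2 P)).filter (fun p => S.1 ⊆ p.1 ∧ S.2 ⊆ p.2)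

private theorem hd_aux {E : Finset (Sym2 V)} {C : Finset V} {r : V → V} (hr : Root E C r)
    {S : Finset V × Finset (Sym2 V)} (hS : S ∈ tc C E) {P : Finset V} {h : V} (hP : h ∉ P)
    (hPC : P ⊆ C) :
    ∀ v, v ≠ h → (∃ e ∈ EP E C r S.2 P, v ∈ e) → ¬ ∃ e ∈ hg E C r h, v ∈ e := by
  rw [mem_tc] at hS
  obtain ⟨⟨h1, r0, h2⟩, h3⟩ := hS
  rintro v hv ⟨e, he, hve⟩ ⟨f, hf, hvf⟩
  have hf2 := (mem_hg.1 hf).2 v hvf
  unfold EP at he
  rw [mem_union, mem_biUnion] at he
  rcases he with he | ⟨g, hg1, hg2⟩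
  · have hvC := h3 (h2.edge_sub e he v hve)
    rw [hr.id v hvC] at hf2
    exact hv hf2
  · have h5 := (mem_hg.1 hg2).2 v hve
    rw [h5] at hf2
    rw [hf2] at hg1
    exact hP hg1

private theorem hd2_aux {E : Finset (Sym2 V)} {C : Finset V} {r : V → V}
    {S : Finset V × Finset (Sym2 V)} (hS : S ∈ tc C E) {P : Finset V} {h : V} (hP : h ∉ P) :
    Disjoint (EP E C r S.2 P) (hg E C r h) := by
  rw [mem_tc] at hS
  obtain ⟨⟨h1, r0, h2⟩, h3⟩ := hS
  rw [Finset.disjoint_left]
  intro e he hf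
  have hf' := mem_hg.1 hf
  unfold EP at he
  rw [mem_union, mem_biUnion] at he
  rcases he with he | ⟨g, hg1, hg2⟩
  · exact hf'.1.2 (mem_ein.2 ⟨h1 he, fun v hv => h3 (h2.edge_sub e he v hv)⟩)
  · have hg' := mem_hg.1 hg2
    induction e using Sym2.ind with
    | _ a b =>
      have e1 := hf'.2 a (Sym2.mem_mk_left a b)
      have e2 := hg'.2 a (Sym2.mem_mk_left a b)
      rw [e1] at e2
      rw [← e2] at hg1
      exact hP hg1

private theorem step {E : Finset (Sym2 V)} {C : Finset V} {r : V → V} (hr : Root E C r)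
    {S : Finset V × Finset (Sym2 V)} (hS : S ∈ tc C E) {P : Finset V} {h : V} (hP : h ∉ P)
    (hPS : P ⊆ S.1) (hh : h ∈ S.1) (F : Finset V × Finset (Sym2 V) → ℚ) :
    ∑ p ∈ Fam E C r S (insert h P), F p =
      ∑ p ∈ Fam E C r S P, ∑ q ∈ rt univ (hg E C r h) h, F (p.1 ∪ q.1, p.2 ∪ q.2) := by
  classical
  have hS' := mem_tc.1 hS
  have hPC : P ⊆ C := hPS.trans hS'.2
  have hd := hd_aux hr hS hP hPC
  have hd2 : Disjoint (EP E C r S.2 P) (hg E C r h) := hd2_aux hS hP
  have e1 : EP E C r S.2 (insert h P) = EP E C r S.2 P ∪ hg E C r h := by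
    unfold EP
    rw [biUnion_insert]
    ext e
    simp only [mem_union]
    tauto
  have e2 : Fam E C r S (insert h P) =
      (rt univ (EP E C r S.2 P ∪ hg E C r h) h).filter (fun p => S.1 ⊆ p.1 ∧ S.2 ⊆ p.2) := by
    ext p
    unfold Fam
    rw [e1, mem_filter, mem_filter, mem_rt, mem_TP]
    constructor
    · rintro ⟨h5, h6⟩
      exact ⟨⟨⟨h5, subset_univ _⟩, h6.1 hh⟩, h6⟩
    · rintro ⟨⟨⟨h5, -⟩, -⟩, h6⟩
      exact ⟨h5, h6⟩
  have e3 : Fam E C r S P =
      (rt univ (EP E C r S.2 P) h).filter (fun p => S.1 ⊆ p.1 ∧ S.2 ⊆ p.2) := by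
    ext p
    unfold Fam
    rw [mem_filter, mem_filter, mem_rt, mem_TP]
    constructor
    · rintro ⟨h5, h6⟩
      exact ⟨⟨⟨h5, subset_univ _⟩, h6.1 hh⟩, h6⟩
    · rintro ⟨⟨⟨h5, -⟩, -⟩, h6⟩
      exact ⟨h5, h6⟩
  rw [e2, e3, sum_filter, sum_filter, glue hd hd2]
  apply sum_congr rfl
  intro p hp
  have key : ∀ q ∈ rt univ (hg E C r h) h,
      ((S.1 ⊆ p.1 ∪ q.1 ∧ S.2 ⊆ p.2 ∪ q.2) ↔ (S.1 ⊆ p.1 ∧ S.2 ⊆ p.2)) := by
    intro q hq
    have hq' := mem_rt.1 hq
    have hp' := mem_rt.1 hp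
    constructor
    · rintro ⟨h5, h6⟩
      constructor
      · intro v hv
        rcases mem_union.1 (h5 hv) with h7 | h7
        · exact h7
        · obtain ⟨⟨⟨hq1, r1, hq2⟩, -⟩, hq4⟩ := hq'
          have hvr : r v = h := by
            rcases (hq2.reroot h hq4).cover v h7 with h8 | ⟨e, he, hve⟩
            · rw [h8]; exact hr.id h (hS'.2 hh)
            · exact (mem_hg.1 (hq1 he)).2 v hve
          rw [hr.id v (hS'.2 hv)] at hvr
          rw [hvr]
          exact hp'.2
      · intro e he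
        rcases mem_union.1 (h6 he) with h7 | h7
        · exact h7
        · exfalso
          obtain ⟨⟨hS1, r1, hS2⟩, hS3⟩ := hS'
          exact (mem_hg.1 (hq'.1.1.1 h7)).1.2
            (mem_ein.2 ⟨hS1 he, fun v hv => hS3 (hS2.edge_sub e he v hv)⟩)
    · rintro ⟨h5, h6⟩
      exact ⟨h5.trans subset_union_left, h6.trans subset_union_left⟩
  by_cases hc : S.1 ⊆ p.1 ∧ S.2 ⊆ p.2
  · rw [if_pos hc]
    apply sum_congr rfl
    intro q hq
    exact if_pos ((key q hq).2 hc)
  · rw [if_neg hc]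
    apply sum_eq_zero
    intro q hq
    exact if_neg (fun h5 => hc ((key q hq).1 h5))

private theorem wh_pos (E : Finset (Sym2 V)) (C : Finset V) (h : V) : 0 < wh E C h := by
  unfold wh nr
  apply card_pos.2
  exact ⟨({h}, ∅), mem_rt.2 ⟨⟨⟨empty_subset _, h, Grow.base⟩, subset_univ _⟩, mem_singleton_self h⟩⟩

private theorem main {E : Finset (Sym2 V)} {C : Finset V} {r : V → V} (hr : Root E C r)
    {S : Finset V × Finset (Sym2 V)} (hS : S ∈ tc C E) (P : Finset V) (hP : P ⊆ S.1) :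
    ((Fam E C r S P).card : ℚ) = ∏ h ∈ P, (wh E C h : ℚ) ∧
    (∑ p ∈ Fam E C r S P, (p.1.card : ℚ)) =
      (∏ h ∈ P, (wh E C h : ℚ)) * ((S.1.card : ℚ) + ∑ h ∈ P, ((sh E C h : ℚ) / (wh E C h : ℚ) - 1)) := by
  classical
  have hS' := mem_tc.1 hS
  induction P using Finset.induction_on with
  | empty =>
    have e1 : Fam E C r S ∅ = {S} := by
      ext p
      unfold Fam EP
      rw [mem_filter, biUnion_empty, union_empty, mem_TP, mem_singleton]
      constructor
      · rintro ⟨⟨h1, r1, h2⟩, h3, h4⟩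
        obtain ⟨⟨hS1, r0, hS2⟩, hS3⟩ := hS'
        have h5 : p.2 = S.2 := Subset.antisymm h1 h4
        have h6 := h2.reroot r0 (h3 hS2.root_mem)
        rw [h5] at h6
        exact Prod.ext (h6.verts_unique hS2) h5
      · rintro rfl
        exact ⟨⟨Subset.refl _, hS'.1.2⟩, Subset.refl _, Subset.refl _⟩
    rw [e1]
    simp
  | insert h P hh ih =>
    obtain ⟨i1, i2⟩ := ih (fun x hx => hP (mem_insert_of_mem hx))
    have hPS : P ⊆ S.1 := fun x hx => hP (mem_insert_of_mem hx)
    have hhS : h ∈ S.1 := hP (mem_insert_self h P)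
    have hw : (0 : ℚ) < (wh E C h : ℚ) := by exact_mod_cast wh_pos E C h
    have hrt := rt_hg hr (hS'.2 hhS)
    have hwc : ((rt univ (hg E C r h) h).card : ℚ) = (wh E C h : ℚ) := by
      rw [← hrt]; rfl
    have hsc : (∑ q ∈ rt univ (hg E C r h) h, (q.1.card : ℚ)) = (sh E C h : ℚ) := by
      rw [← hrt]; unfold sh sr; push_cast; rfl
    constructor
    · have h1 := step hr hS hh hPS hhS (fun _ => (1 : ℚ))
      simp only [sum_const, nsmul_eq_mul, mul_one] at h1
      rw [h1, hwc, i1, prod_insert hh]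
      ring
    · have h1 := step hr hS hh hPS hhS (fun p => (p.1.card : ℚ))
      rw [h1]
      have h2 : ∀ p ∈ Fam E C r S P, (∑ q ∈ rt univ (hg E C r h) h, (((p.1 ∪ q.1, p.2 ∪ q.2) :
          Finset V × Finset (Sym2 V)).1.card : ℚ)) =
          (wh E C h : ℚ) * (p.1.card : ℚ) + ((sh E C h : ℚ) - (wh E C h : ℚ)) := by
        intro p hp
        have hp' : p ∈ rt univ (EP E C r S.2 P) h := by
          unfold Fam at hp
          rw [mem_filter, mem_TP] at hp
          exact mem_rt.2 ⟨⟨hp.1, subset_univ _⟩, hp.2.1 hhS⟩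
        have h3 : ∀ q ∈ rt univ (hg E C r h) h, (((p.1 ∪ q.1, p.2 ∪ q.2) :
          Finset V × Finset (Sym2 V)).1.card : ℚ) = (p.1.card : ℚ) + ((q.1.card : ℚ) - 1) := by
          intro q hq
          have h4 := glue_inter (hd_aux hr hS hh (hPS.trans hS'.2)) hp' hq
          have h5 := card_union_add_card_inter p.1 q.1
          rw [h4, card_singleton] at h5
          have h6 : ((p.1 ∪ q.1).card : ℚ) + 1 = (p.1.card : ℚ) + (q.1.card : ℚ) := by
            exact_mod_cast h5
          show ((p.1 ∪ q.1).card : ℚ) = _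
          linarith
        rw [sum_congr rfl h3, sum_add_distrib, sum_sub_distrib, hsc]
        simp only [sum_const, nsmul_eq_mul, mul_one]
        rw [hwc]
      rw [sum_congr rfl h2, sum_add_distrib, ← mul_sum, i2, sum_const, nsmul_eq_mul, i1,
        prod_insert hh, sum_insert hh]
      field_simp
      ring

/-- ROW 15 -/
theorem prod_formula {E : Finset (Sym2 V)} {C : Finset V} {r : V → V} (hr : Root E C r)
    {S : Finset V × Finset (Sym2 V)} (hS : S ∈ tc C E) :
    ((TP E).filter (fun p => p.1 ∩ C = S.1 ∧ p.2 ∩ ein E C = S.2)).card = ∏ h ∈ S.1, wh E C h ∧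
    (∑ p ∈ (TP E).filter (fun p => p.1 ∩ C = S.1 ∧ p.2 ∩ ein E C = S.2), (p.1.card : ℚ)) =
      (∏ h ∈ S.1, (wh E C h : ℚ)) * ((S.1.card : ℚ) + ∑ h ∈ S.1, ((sh E C h : ℚ) / (wh E C h : ℚ) - 1)) := by
  classical
  have hS' := mem_tc.1 hS
  obtain ⟨⟨hS1, r0, hS2⟩, hS3⟩ := hS'
  have e1 : (TP E).filter (fun p => p.1 ∩ C = S.1 ∧ p.2 ∩ ein E C = S.2) = Fam E C r S S.1 := by
    ext p
    unfold Fam EP
    rw [mem_filter, mem_filter, mem_TP, mem_TP]
    constructor
    · rintro ⟨⟨h1, r1, h2⟩, h3, h4⟩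
      have hs1 : S.1 ⊆ p.1 := by rw [← h3]; exact inter_subset_left
      have hs2 : S.2 ⊆ p.2 := by rw [← h4]; exact inter_subset_left
      refine ⟨⟨?_, r1, h2⟩, hs1, hs2⟩
      intro e he
      rw [mem_union, mem_biUnion]
      by_cases hee : e ∈ ein E C
      · left; rw [← h4]; exact mem_inter.2 ⟨he, hee⟩
      · right
        obtain ⟨u, hu⟩ : ∃ u, u ∈ e := by
          induction e using Sym2.ind with
          | _ a b => exact ⟨a, Sym2.mem_mk_left a b⟩
        have hval : ∀ v ∈ e, r v = r u := fun v hv => edge_val hr (h1 he) hee hv hu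
        refine ⟨r u, ?_, mem_hg.2 ⟨⟨h1 he, hee⟩, hval⟩⟩
        by_contra hn
        have hn2 : r u ∉ p.1 := by
          intro hx
          apply hn
          rw [← h3]
          exact mem_inter.2 ⟨hx, hr.mem u⟩
        have hup : u ∈ p.1 := h2.edge_sub e he u hu
        have h5 := h2.reroot u hup
        have h6 : ∀ v ∈ p.1, r v = r u := by
          apply h5.sub_of_closed (fun v => r v = r u) rfl
          intro f hf
          by_cases hx : ∀ v ∈ f, r v = r u
          · exact Or.inl hx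
          · right
            push Not at hx
            obtain ⟨v, hv, hv2⟩ := hx
            intro w hw hw2
            by_cases hfe : f ∈ ein E C
            · -- `w ∈ C`, so `r w = w = r u` lies in the tree
              have hwC := (mem_ein.1 hfe).2 w hw
              rw [hr.id w hwC] at hw2
              exact hn2 (hw2 ▸ h2.edge_sub f hf w hw)
            · exact hv2 ((edge_val hr (h1 hf) hfe hv hw).trans hw2)
        have h7 := h6 r0 (hs1 hS2.root_mem)
        rw [hr.id r0 (hS3 hS2.root_mem)] at h7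
        exact hn2 (h7 ▸ hs1 hS2.root_mem)
    · rintro ⟨⟨h1, r1, h2⟩, h3, h4⟩
      have hE : ∀ e ∈ p.2, e ∈ E := by
        intro e he
        rcases mem_union.1 (h1 he) with h5 | h5
        · exact hS1 h5
        · obtain ⟨g, -, hg2⟩ := mem_biUnion.1 h5
          exact (mem_hg.1 hg2).1.1
      refine ⟨⟨hE, r1, h2⟩, ?_, ?_⟩
      · apply Subset.antisymm
        · intro v hv
          obtain ⟨hv1, hv2⟩ := mem_inter.1 hv
          have h5 := h2.reroot r0 (h3 hS2.root_mem)
          rcases h5.cover v hv1 with h6 | ⟨e, he, hve⟩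
          · rw [h6]; exact hS2.root_mem
          · rcases mem_union.1 (h1 he) with h7 | h7
            · exact hS2.edge_sub e h7 v hve
            · obtain ⟨g, hg1, hg2⟩ := mem_biUnion.1 h7
              have h8 := (mem_hg.1 hg2).2 v hve
              rw [hr.id v hv2] at h8
              rw [h8]; exact hg1
        · intro v hv
          exact mem_inter.2 ⟨h3 hv, hS3 hv⟩
      · apply Subset.antisymm
        · intro e he
          obtain ⟨he1, he2⟩ := mem_inter.1 he
          rcases mem_union.1 (h1 he1) with h5 | h5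
          · exact h5
          · obtain ⟨g, -, hg2⟩ := mem_biUnion.1 h5
            exact absurd he2 (mem_hg.1 hg2).1.2
        · intro e he
          exact mem_inter.2 ⟨h4 he, mem_ein.2 ⟨hS1 he, fun v hv => hS3 (hS2.edge_sub e he v hv)⟩⟩
  have h1 := main hr hS S.1 (Subset.refl _)
  rw [e1]
  refine ⟨?_, h1.2⟩
  have h2 := h1.1
  exact_mod_cast h2

end Pool.Agent.LibMC91
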