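import Mathlib
import Pool.Agent.LibMC91.Sig

set_option autoImplicit false
set_option linter.unusedSectionVars false

namespace Pool.Agent.LibMC91

open Finset Pool.Agent.LibMST Pool.Agent.LibMSB Pool.Agent.LibOC52

variable {V : Type*} [Fintype V] [DecidableEq V]

private theorem core_part_aux {E : Finset (Sym2 V)} {C : Finset V} {r : V → V} (hr : Root E C r)
    {c : V} (hc : c ∈ C) {T : Finset V} {B : Finset (Sym2 V)} (h : Grow c T B) :
    B ⊆ E → Grow c (T ∩ C) (B ∩ ein E C) ∧ ∀ v ∈ T, r v ∈ T := by
  induction h with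
  | base =>
    intro _
    constructor
    · have h1 : ({c} : Finset V) ∩ C = {c} := by
        rw [Finset.inter_eq_left]
        simpa using hc
      have h2 : (∅ : Finset (Sym2 V)) ∩ ein E C = ∅ := Finset.empty_inter _
      rw [h1, h2]
      exact Grow.base
    · intro v hv
      rw [mem_singleton] at hv
      rw [hv, hr.id c hc]
      exact mem_singleton_self c
  | @step T B x w h hx hw ih =>
    intro hBE
    have hB : B ⊆ E := fun e he => hBE (mem_insert_of_mem he)
    have hxw : s(x, w) ∈ E := hBE (mem_insert_self _ _)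
    obtain ⟨ih1, ih2⟩ := ih hB
    by_cases hxC : x ∈ C ∧ w ∈ C
    · obtain ⟨hx1, hw1⟩ := hxC
      have he : s(x, w) ∈ ein E C := by
        rw [mem_ein]
        refine ⟨hxw, fun v hv => ?_⟩
        rcases Sym2.mem_iff.1 hv with rfl | rfl
        · exact hx1
        · exact hw1
      constructor
      · rw [Finset.insert_inter_of_mem hw1, Finset.insert_inter_of_mem he]
        exact Grow.step ih1 (mem_inter.2 ⟨hx, hx1⟩) (fun h => hw (mem_inter.1 h).1)
      · intro v hv
        rcases mem_insert.1 hv with rfl | hv
        · rw [hr.id v hw1]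
          exact mem_insert_self _ _
        · exact mem_insert_of_mem (ih2 v hv)
    · have hrr : r x = r w := hr.edge x w hxw hxC
      have hrw : r w ∈ T := by
        rw [← hrr]
        exact ih2 x hx
      have hwC : w ∉ C := by
        intro hwC
        rw [hr.id w hwC] at hrw
        exact hw hrw
      have he : s(x, w) ∉ ein E C := by
        intro he
        exact hwC ((mem_ein.1 he).2 w (Sym2.mem_iff.2 (Or.inr rfl)))
      constructor
      · rw [Finset.insert_inter_of_notMem hwC, Finset.insert_inter_of_notMem he]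
        exact ih1
      · intro v hv
        rcases mem_insert.1 hv with rfl | hv
        · exact mem_insert_of_mem hrw
        · exact mem_insert_of_mem (ih2 v hv)

/-- ROW 16 (the core part of a tree which meets `C` is a tree inside `C`). -/
theorem core_part {E : Finset (Sym2 V)} {C : Finset V} {r : V → V} (hr : Root E C r)
    {p : Finset V × Finset (Sym2 V)} (hp : p ∈ TP E) (hm : ¬ Disjoint p.1 C) :
    (p.1 ∩ C, p.2 ∩ ein E C) ∈ tc C E := by
  rw [mem_TP] at hp
  obtain ⟨hpE, r0, hg⟩ := hp
  obtain ⟨c, hcp, hcC⟩ := Finset.not_disjoint_iff.1 hm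
  have h1 := core_part_aux hr hcC (hg.reroot c hcp) hpE
  rw [mem_tc]
  exact ⟨⟨fun e he => (mem_ein.1 (mem_inter.1 he).2).1, c, h1.1⟩, Finset.inter_subset_right⟩

end Pool.Agent.LibMC91
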