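import Mathlib
import Pool.Agent.LibMC91.Sig
import Pool.Agent.LibMC91.R2
import Pool.Agent.LibMC91.R13
import Pool.Agent.LibMC91.R15
import Pool.Agent.LibMC91.R16
set_option autoImplicit false
set_option linter.unusedSectionVars false

/-! Row 17 of MC91. -/

namespace Pool.Agent.LibMC91

open Finset Pool.Agent.LibMST Pool.Agent.LibMSB Pool.Agent.LibOC52

variable {V : Type*} [Fintype V] [DecidableEq V]


private theorem r17_sh_eq {E : Finset (Sym2 V)} {C : Finset V} {v : V} (hv : v ∈ C)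
    (h : ¬ ∃ u, u ∉ C ∧ s(v, u) ∈ E) : sh E C v = wh E C v := by
  have h1 : ∀ p ∈ rt univ (E \ ein E C) v, p.1.card = 1 := by
    intro p hp
    rw [mem_rt] at hp
    obtain ⟨⟨⟨h2, r, hg⟩, _⟩, hvp⟩ := hp
    have hg' := hg.reroot v hvp
    have h3 := hg'.sub_of_closed (fun w => w = v) rfl (by
      intro e he
      by_cases hve : v ∈ e
      · exfalso
        obtain ⟨u, rfl⟩ := Sym2.mem_iff_exists.mp hve
        have h4 := mem_sdiff.1 (h2 he)
        apply h4.2
        rw [mem_ein]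
        refine ⟨h4.1, ?_⟩
        intro w hw
        rw [Sym2.mem_iff] at hw
        rcases hw with rfl | rfl
        · exact hv
        · by_contra hcon
          exact h ⟨_, hcon, h4.1⟩
      · right
        intro w hw hwv
        rw [hwv] at hw
        exact hve hw)
    rw [card_eq_one]
    exact ⟨v, eq_singleton_iff_unique_mem.2 ⟨hvp, h3⟩⟩
  unfold sh wh sr nr
  rw [sum_congr rfl h1, sum_const, smul_eq_mul, mul_one]

private theorem r17_wh_pos (E : Finset (Sym2 V)) (C : Finset V) (v : V) : 1 ≤ wh E C v := by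
  unfold wh nr
  apply card_pos.mpr
  refine ⟨({v}, ∅), ?_⟩
  rw [mem_rt]
  exact ⟨⟨⟨empty_subset _, v, Grow.base⟩, subset_univ _⟩, mem_singleton_self v⟩

private theorem r17_wh_le (E : Finset (Sym2 V)) (C : Finset V) (v : V) : wh E C v ≤ sh E C v := by
  unfold wh sh nr sr
  rw [card_eq_sum_ones]
  apply sum_le_sum
  intro p hp
  rw [mem_rt] at hp
  exact card_pos.mpr ⟨v, hp.2⟩

private theorem r17_no_univ (E : Finset (Sym2 V)) : tc univ E = TP E := by
  unfold tc
  rw [filter_true_of_mem]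
  intro p _
  exact subset_univ _

/-- Some core edge has positive covariance with the order. -/
theorem cov_pos' {E : Finset (Sym2 V)} {C : Finset V} (hl : ∀ e ∈ E, ¬ e.IsDiag) (hE : Cn E univ) (hC : Core E C)
    (hlo : Lo E Cᶜ) {D : V → ℕ}
    (hD : ∀ v ∈ C, (∃ u, u ∉ C ∧ s(v, u) ∈ E) → Nx C (ein E C) v (D v) ∧ 1 ≤ D v)
    (hleaf : ∀ T ∈ tc C (ein E C), ∑ v ∈ C.filter (fun v => (∃ u, u ∉ C ∧ s(v, u) ∈ E) ∧ Lf T v),
      (1 : ℚ) / (D v : ℚ) ≤ 4) :
    ∃ e ∈ ein E C, 0 < cov E e := by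
  classical
  obtain ⟨⟨r, hr⟩, -, hcn, hb⟩ := core_root hl hE hC
  have htc : tc C (ein E C) = tc C E := tc_ein E C
  have hfib := fun (S : Finset V × Finset (Sym2 V)) (hS : S ∈ tc C E) => prod_formula hr hS
  have hpart := fun (p : Finset V × Finset (Sym2 V)) (hp : p ∈ TP E) (hm : ¬ Disjoint p.1 C) => core_part hr hp hm
  obtain ⟨EC, hEC0⟩ : ∃ EC, EC = ein E C := ⟨_, rfl⟩
  have hEC : ∀ e ∈ EC, ∀ x ∈ e, x ∈ C := by
    intro e he
    rw [hEC0] at he
    exact (mem_ein.1 he).2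
  have hECE : ∀ e ∈ EC, e ∈ E := by
    intro e he
    rw [hEC0] at he
    exact (mem_ein.1 he).1
  rw [← hEC0] at htc hcn hb hD hleaf ⊢
  simp only [← hEC0] at hfib hpart
  have hne : EC.Nonempty := by
    obtain ⟨e, he, h2⟩ := hC.ne
    refine ⟨e, ?_⟩
    rw [hEC0, mem_ein]
    exact ⟨(mem_nb.1 he).1, h2⟩
  obtain ⟨w, hw⟩ : ∃ w : V → ℚ, ∀ v, w v = (wh E C v : ℚ) := ⟨_, fun _ => rfl⟩
  obtain ⟨β, hβ⟩ : ∃ β : V → ℚ, ∀ v, β v = (sh E C v : ℚ) / (wh E C v : ℚ) - 1 := ⟨_, fun _ => rfl⟩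
  have hw1 : ∀ v, 1 ≤ w v := fun v => by
    rw [hw]; exact_mod_cast r17_wh_pos E C v
  have hβ0 : ∀ v, 0 ≤ β v := fun v => by
    have h1 : (wh E C v : ℚ) ≤ sh E C v := by exact_mod_cast r17_wh_le E C v
    have h2 := hw1 v
    rw [hw] at h2
    rw [hβ, sub_nonneg, le_div_iff₀ (by linarith)]
    linarith
  have hβ2 : ∀ v, β v ≤ w v / 2 := by
    intro v
    have h1 : 2 * sh E C v ≤ wh E C v * (wh E C v + 1) := two_sr (E \ ein E C) univ v
    have h2 : 2 * (sh E C v : ℚ) ≤ wh E C v * (wh E C v + 1) := by exact_mod_cast h1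
    have p1 := hw1 v
    rw [hw] at p1
    rw [hβ, hw]
    have h3 : (sh E C v : ℚ) / (wh E C v : ℚ) ≤ wh E C v / 2 + 1 := by
      rw [div_le_iff₀ (by linarith)]
      nlinarith
    linarith
  have hatt : ∀ v ∈ C, β v ≠ 0 → ∃ u, u ∉ C ∧ s(v, u) ∈ E := by
    intro v hv hβv
    by_contra hcon
    apply hβv
    have h1 := r17_sh_eq hv hcon
    have p1 := hw1 v
    rw [hw] at p1
    rw [hβ, h1, div_self (by linarith), sub_self]
  obtain ⟨W, hW⟩ : ∃ W : Finset V × Finset (Sym2 V) → ℚ, ∀ T, W T = ∏ v ∈ T.1, w v := ⟨_, fun _ => rfl⟩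
  have hWpos : ∀ T, 0 < W T := fun T => by
    rw [hW]; exact prod_pos (fun i _ => lt_of_lt_of_le zero_lt_one (hw1 i))
  obtain ⟨fb, hfb⟩ : ∃ fb : Finset V × Finset (Sym2 V) → Finset (Finset V × Finset (Sym2 V)),
    ∀ T, fb T = (TP E).filter (fun p => p.1 ∩ C = T.1 ∧ p.2 ∩ EC = T.2) := ⟨_, fun _ => rfl⟩
  have hf1 : ∀ T ∈ tc C EC, ((fb T).card : ℚ) = W T := by
    intro T hT
    rw [htc] at hT
    rw [hfb, (hfib T hT).1, hW]
    push_cast
    exact prod_congr rfl (fun v _ => (hw v).symm)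
  have hf2 : ∀ T ∈ tc C EC, ∑ p ∈ fb T, (p.1.card : ℚ) = W T * ((T.1.card : ℚ) + ∑ v ∈ T.1, β v) := by
    intro T hT
    rw [htc] at hT
    rw [hfb, (hfib T hT).2, hW]
    congr 1
    · exact prod_congr rfl (fun v _ => (hw v).symm)
    · congr 1
      exact sum_congr rfl (fun v _ => (hβ v).symm)
  have hedge : ∀ T ∈ tc C EC, (T.2.card : ℚ) = (T.1.card : ℚ) - 1 := by
    intro T hT
    rw [mem_tc] at hT
    obtain ⟨⟨_, r', hg⟩, _⟩ := hT
    have h := hg.card_eq
    rw [← h]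
    push_cast
    ring
  -- existence of trees of order 1 and at least 2
  obtain ⟨e0, he0⟩ := hne
  obtain ⟨u, v, huv⟩ : ∃ u v, e0 = s(u, v) := by
    induction e0 using Sym2.ind with
    | _ u v => exact ⟨u, v, rfl⟩
  subst huv
  have huC : u ∈ C := hEC _ he0 u (Sym2.mem_mk_left u v)
  have hvC : v ∈ C := hEC _ he0 v (Sym2.mem_mk_right u v)
  have huv : u ≠ v := fun h => hl _ (hECE _ he0) (by rw [h]; exact Sym2.mk_isDiag_iff.mpr rfl)
  have hex1 : ∃ T ∈ tc C EC, T.1.card = 1 := by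
    refine ⟨({u}, ∅), ?_, card_singleton u⟩
    unfold tc
    rw [mem_filter]
    exact ⟨single_mem EC u, singleton_subset_iff.mpr huC⟩
  have hex2 : ∃ T ∈ tc C EC, 2 ≤ T.1.card := by
    refine ⟨((insert v {u} : Finset V), (insert s(u, v) ∅ : Finset (Sym2 V))), ?_, ?_⟩
    · unfold tc
      rw [mem_filter]
      refine ⟨pair_mem huv he0, ?_⟩
      intro x hx
      rw [mem_insert, mem_singleton] at hx
      rcases hx with rfl | rfl
      · exact hvC
      · exact huC
    · show 2 ≤ (insert v {u} : Finset V).card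
      rw [card_pair huv.symm]
  -- the four sums
  obtain ⟨M, hM⟩ : ∃ M : ℚ, M = ∑ T ∈ tc C EC, W T := ⟨_, rfl⟩
  obtain ⟨AM, hAM⟩ : ∃ AM : ℚ, AM = ∑ T ∈ tc C EC, W T * ((T.1.card : ℚ) + ∑ v ∈ T.1, β v) := ⟨_, rfl⟩
  obtain ⟨K, hK⟩ : ∃ K : ℚ, K = ∑ T ∈ tc C EC, W T * ((T.1.card : ℚ) - 1) := ⟨_, rfl⟩
  obtain ⟨L, hL⟩ : ∃ L : ℚ, L = ∑ T ∈ tc C EC, W T * (((T.1.card : ℚ) + ∑ v ∈ T.1, β v) * ((T.1.card : ℚ) - 1)) :=
    ⟨_, rfl⟩
  obtain ⟨O, hO⟩ : ∃ O : ℚ, O = (no Cᶜ E : ℚ) := ⟨_, rfl⟩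
  obtain ⟨AO, hAO⟩ : ∃ AO : ℚ, AO = (so Cᶜ E : ℚ) := ⟨_, rfl⟩
  have hsplit : ∀ g : Finset V × Finset (Sym2 V) → ℚ, ∑ p ∈ TP E, g p =
      ∑ T ∈ tc C EC, ∑ p ∈ fb T, g p + ∑ p ∈ tc Cᶜ E, g p := by
    intro g
    rw [← sum_filter_add_sum_filter_not (TP E) (fun p => Disjoint p.1 C) g, add_comm]
    congr 1
    · rw [← sum_fiberwise_of_maps_to (s := (TP E).filter (fun p => ¬ Disjoint p.1 C)) (t := tc C EC)
        (g := fun p => (p.1 ∩ C, p.2 ∩ EC)) (by
          intro p hp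
          rw [mem_filter] at hp
          rw [htc]
          exact hpart p hp.1 hp.2)]
      apply sum_congr rfl
      intro T hT
      apply sum_congr _ (fun _ _ => rfl)
      rw [hfb]
      ext p
      rw [mem_filter, mem_filter, mem_filter]
      constructor
      · rintro ⟨⟨h1, _⟩, h3⟩
        exact ⟨h1, congrArg Prod.fst h3, congrArg Prod.snd h3⟩
      · rintro ⟨h1, h2, h3⟩
        refine ⟨⟨h1, ?_⟩, Prod.ext h2 h3⟩
        rw [disjoint_iff_inter_eq_empty, h2]
        have := card_pos_tc hT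
        exact (card_pos.mp this).ne_empty
    · apply sum_congr _ (fun _ _ => rfl)
      unfold tc
      ext p
      rw [mem_filter, mem_filter, subset_compl_iff_disjoint_right]
  have hN : cntN E = M + O := by
    have h := hsplit (fun _ => 1)
    have e1 : cntN E = ∑ p ∈ TP E, (1 : ℚ) := by
      unfold cntN
      rw [sum_const, nsmul_eq_mul, mul_one]
    rw [e1, h, hM, hO]
    congr 1
    · apply sum_congr rfl
      intro T hT
      rw [sum_const, nsmul_eq_mul, mul_one, hf1 T hT]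
    · rw [sum_const, nsmul_eq_mul, mul_one]
      rfl
  have hA : cntA E = AM + AO := by
    have h := hsplit (fun p => (p.1.card : ℚ))
    have e1 : cntA E = ∑ p ∈ TP E, (p.1.card : ℚ) := rfl
    rw [e1, h, hAM, hAO]
    congr 1
    · apply sum_congr rfl
      intro T hT
      exact hf2 T hT
    · unfold so
      push_cast
      rfl
  have hout : ∀ p ∈ tc Cᶜ E, p.2 ∩ EC = ∅ := by
    intro p hp
    rw [mem_tc] at hp
    obtain ⟨⟨_, r', hg⟩, h2⟩ := hp
    rw [← disjoint_iff_inter_eq_empty, disjoint_left]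
    intro e he he2
    have h3 := Sym2.out_fst_mem e
    exact (mem_compl.1 (h2 (hg.edge_sub e he _ h3))) (hEC e he2 _ h3)
  have hin : ∀ T, ∀ p ∈ fb T, p.2 ∩ EC = T.2 := by
    intro T p hp
    rw [hfb, mem_filter] at hp
    exact hp.2.2
  have hKs : ∑ p ∈ TP E, ((p.2 ∩ EC).card : ℚ) = K := by
    rw [hsplit (fun p => ((p.2 ∩ EC).card : ℚ)), hK]
    have e2 : ∑ p ∈ tc Cᶜ E, ((p.2 ∩ EC).card : ℚ) = 0 := by
      apply sum_eq_zero
      intro p hp
      rw [hout p hp]
      simp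
    rw [e2, add_zero]
    apply sum_congr rfl
    intro T hT
    rw [sum_congr rfl (fun p hp => by rw [hin T p hp]), sum_const, nsmul_eq_mul, hedge T hT, hf1 T hT]
  have hLs : ∑ p ∈ TP E, (p.1.card : ℚ) * ((p.2 ∩ EC).card : ℚ) = L := by
    rw [hsplit (fun p => (p.1.card : ℚ) * ((p.2 ∩ EC).card : ℚ)), hL]
    have e2 : ∑ p ∈ tc Cᶜ E, (p.1.card : ℚ) * ((p.2 ∩ EC).card : ℚ) = 0 := by
      apply sum_eq_zero
      intro p hp
      rw [hout p hp]
      simp
    rw [e2, add_zero]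
    apply sum_congr rfl
    intro T hT
    rw [sum_congr rfl (fun p hp => by rw [hin T p hp]), ← sum_mul, hedge T hT, hf2 T hT, mul_assoc]
  have hcovsum : ∑ e ∈ EC, cov E e = (M + O) * L - (AM + AO) * K := by
    unfold cov
    rw [sum_sub_distrib, ← mul_sum, ← mul_sum, hN, hA]
    have e1 : ∑ e ∈ EC, cntAe E e = L := by
      unfold cntAe ord
      rw [sum_comm, ← hLs]
      apply sum_congr rfl
      intro p _
      rw [← sum_filter, sum_const, nsmul_eq_mul, mul_comm]
      congr 2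
      congr 1
      ext a
      rw [mem_filter, mem_inter]
      tauto
    have e2 : ∑ e ∈ EC, cntNe E e = K := by
      unfold cntNe
      rw [sum_comm, ← hKs]
      apply sum_congr rfl
      intro p _
      rw [← sum_filter, sum_const, nsmul_eq_mul, mul_one]
      congr 2
      ext a
      rw [mem_filter, mem_inter]
      tauto
    rw [e1, e2]
  have hMpos : 0 < M := by
    rw [hM]
    obtain ⟨T1, hT1, _⟩ := hex1
    exact sum_pos (fun T _ => hWpos T) ⟨T1, hT1⟩
  have hOnn : 0 ≤ O := by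
    rw [hO]
    exact Nat.cast_nonneg _
  have hKnn : 0 ≤ K := by
    rw [hK]
    apply sum_nonneg
    intro T hT
    have := card_pos_tc hT
    have h3 : (1 : ℚ) ≤ T.1.card := by exact_mod_cast this
    exact mul_nonneg (hWpos T).le (by linarith)
  -- the core inequality
  have hcore : 0 < M * L - AM * K := by
    obtain ⟨kb, hkb⟩ : ∃ kb : ℚ, kb = (K + M) / M := ⟨_, rfl⟩
    have hKM : ∑ T ∈ tc C EC, W T * (T.1.card : ℚ) = K + M := by
      rw [hK, hM, ← sum_add_distrib]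
      apply sum_congr rfl
      intro T _
      ring
    have h0 : ∑ T ∈ tc C EC, (∏ v ∈ T.1, w v) * ((T.1.card : ℚ) - kb) = 0 := by
      have e1 : ∑ T ∈ tc C EC, (∏ v ∈ T.1, w v) * ((T.1.card : ℚ) - kb) =
          ∑ T ∈ tc C EC, W T * (T.1.card : ℚ) - kb * ∑ T ∈ tc C EC, W T := by
        rw [mul_sum, ← sum_sub_distrib]
        apply sum_congr rfl
        intro T _
        rw [hW]
        ring
      rw [e1, hKM, ← hM, hkb]
      field_simp
      ring
    have h1 := c1 hEC hw1 hβ0 hβ2 (D := D) (by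
      intro v hv hβv
      exact hD v hv (hatt v hv hβv)) (by
      intro T hT
      refine le_trans ?_ (hleaf T hT)
      apply sum_le_sum_of_subset_of_nonneg
      · intro v hv
        rw [mem_filter] at hv ⊢
        exact ⟨hv.1, hatt v hv.1 hv.2.1, hv.2.2⟩
      · intro v _ _
        positivity) hex1 hex2 h0
    have e2 : ∑ T ∈ tc C EC, (∏ v ∈ T.1, w v) * (((T.1.card : ℚ) + ∑ v ∈ T.1, β v) * ((T.1.card : ℚ) - kb)) =
        L + AM - kb * AM := by
      rw [hL, hAM, mul_sum, ← sum_add_distrib, ← sum_sub_distrib]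
      apply sum_congr rfl
      intro T _
      rw [hW]
      ring
    rw [e2, hkb] at h1
    have h3 : 0 < M * (L + AM - (K + M) / M * AM) := mul_pos hMpos h1
    have h4 : M * (L + AM - (K + M) / M * AM) = M * L - AM * K := by
      field_simp
      ring
    linarith
  -- the trees which avoid the core
  have hAOle : AO * M ≤ O * AM := by
    have h1 : (no univ E : ℚ) * so Cᶜ E ≤ so univ E * no Cᶜ E := by
      have := hlo
      unfold Lo at this
      exact_mod_cast this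
    have h2 : (no univ E : ℚ) = cntN E := by
      unfold no cntN
      rw [r17_no_univ]
    have h3 : (so univ E : ℚ) = cntA E := by
      unfold so cntA ord
      rw [r17_no_univ]
      push_cast
      rfl
    rw [h2, h3, hN, hA, ← hO, ← hAO] at h1
    linarith
  have hfin : 0 < (M + O) * L - (AM + AO) * K := by
    have h1 : (M + O) * (M * L - AM * K) ≤ M * ((M + O) * L - (AM + AO) * K) := by
      have h2 := mul_le_mul_of_nonneg_right hAOle hKnn
      have h3 : M * ((M + O) * L - (AM + AO) * K) - (M + O) * (M * L - AM * K) = O * AM * K - AO * M * K := by ring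
      linarith
    have h4 : 0 < (M + O) * (M * L - AM * K) := mul_pos (by linarith) hcore
    have h5 : 0 < M * ((M + O) * L - (AM + AO) * K) := lt_of_lt_of_le h4 h1
    exact (mul_pos_iff_of_pos_left hMpos).mp h5
  by_contra hcon
  push Not at hcon
  have h1 := sum_nonpos hcon
  rw [hcovsum] at h1
  linarith

end Pool.Agent.LibMC91
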