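import Mathlib
import Pool.Agent.LibMC91.Sig

set_option autoImplicit false
set_option linter.unusedSectionVars false

/-! Cores with at most 16 vertices. -/

namespace Pool.Agent.LibMC91

open Finset Pool.Agent.LibMST Pool.Agent.LibMSB Pool.Agent.LibOC52

variable {V : Type*} [Fintype V] [DecidableEq V]

/-- a set which contains a vertex of a tree and is closed along its edges contains the tree -/
private theorem S1_sub {r : V} {S : Finset V} {F : Finset (Sym2 V)} (hg : Grow r S F) (W : V → Prop)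
    (hW : ∀ p q, s(p, q) ∈ F → p ∈ S → W p → W q) (x : V) (hx : x ∈ S) (hxW : W x) : ∀ v ∈ S, W v := by
  induction hg generalizing x with
  | base =>
    intro v hv
    rw [mem_singleton] at hx hv
    rw [hv, ← hx]
    exact hxW
  | @step C B a w h ha hw ih =>
    have hW' : ∀ p q, s(p, q) ∈ B → p ∈ C → W p → W q := fun p q h1 h2 h3 =>
      hW p q (mem_insert_of_mem h1) (mem_insert_of_mem h2) h3
    have hCW : ∀ v ∈ C, W v := by
      rcases mem_insert.1 hx with hx | hx
      · refine ih hW' a ha ?_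
        refine hW w a ?_ (mem_insert_self _ _) ?_
        · rw [Sym2.eq_swap]
          exact mem_insert_self _ _
        · rw [← hx]
          exact hxW
      · exact ih hW' x hx hxW
    intro v hv
    rcases mem_insert.1 hv with hv | hv
    · rw [hv]
      exact hW a w (mem_insert_self _ _) (mem_insert_of_mem ha) (hCW a ha)
    · exact hCW v hv

/-- the first vertex of an extension -/
private theorem S1_first {C : Finset V} {EC : Finset (Sym2 V)} (hEC : ∀ e ∈ EC, ∀ x ∈ e, x ∈ C)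
    {T T' : Finset V × Finset (Sym2 V)} (hT : T ∈ tc C EC) {h : V} {d : ℕ} (he : Ext EC T h T' d) :
    (∃ a, a ∈ T'.1 ∧ a ∉ T.1 ∧ ∀ p q, s(p, q) ∈ T'.2 → p ∈ T.1 → q ∈ T.1 ∨ q = a) ∧
    (T'.2.filter (fun e => ∀ z ∈ e, z ∈ T.1) = T.2) ∧
    ∀ z ∈ T'.1, z ∉ T.1 → Lf T' z → z = h := by
  classical
  obtain ⟨⟨_, r, hg⟩, _⟩ := mem_tc.1 hT
  induction he with
  | @one u h hu hh he =>
    refine ⟨⟨h, mem_insert_self _ _, hh, ?_⟩, ?_, ?_⟩
    · intro p q hpq hp
      rcases mem_insert.1 hpq with h1 | h1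
      · rw [Sym2.eq_iff] at h1
        rcases h1 with ⟨_, h1⟩ | ⟨h1, _⟩
        · exact Or.inr h1
        · exact absurd (h1 ▸ hp) hh
      · exact Or.inl (hg.edge_sub _ h1 q (Sym2.mem_mk_right p q))
    · ext e
      rw [mem_filter, mem_insert]
      constructor
      · rintro ⟨rfl | h1, h2⟩
        · exact absurd (h2 h (Sym2.mem_mk_right u h)) hh
        · exact h1
      · intro h1
        exact ⟨Or.inr h1, fun z hz => hg.edge_sub _ h1 z hz⟩
    · intro z hz hz' _
      rcases mem_insert.1 hz with h1 | h1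
      · exact h1
      · exact absurd h1 hz'
  | @succ u h T' d e1 hh he ih =>
    obtain ⟨i1, i2, i3, i4, i5, i6, i7⟩ := ext_props (Subset.refl EC) hEC hT e1
    obtain ⟨⟨a, a1, a2, a3⟩, a4, a5⟩ := ih
    have hhT : h ∉ T.1 := fun h1 => hh (i2 h1)
    refine ⟨⟨a, mem_insert_of_mem a1, a2, ?_⟩, ?_, ?_⟩
    · intro p q hpq hp
      rcases mem_insert.1 hpq with h1 | h1
      · rw [Sym2.eq_iff] at h1
        rcases h1 with ⟨h1, _⟩ | ⟨h1, _⟩
        · exact absurd (h1 ▸ hp) i4
        · exact absurd (h1 ▸ hp) hhT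
      · exact a3 p q h1 hp
    · rw [← a4]
      ext e
      rw [mem_filter, mem_filter, mem_insert]
      constructor
      · rintro ⟨rfl | h1, h2⟩
        · exact absurd (h2 h (Sym2.mem_mk_right u h)) hhT
        · exact ⟨h1, h2⟩
      · rintro ⟨h1, h2⟩
        exact ⟨Or.inr h1, h2⟩
    · intro z hz hz' hL
      rcases mem_insert.1 hz with h1 | h1
      · exact h1
      · exfalso
        have hzh : z ≠ h := fun h2 => hh (h2 ▸ h1)
        have hL' : ((insert s(u, h) T'.2).filter (fun e => z ∈ e)).card = 1 := hL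
        by_cases hzu : z = u
        · subst hzu
          rw [filter_insert, if_pos (Sym2.mem_mk_left z h), card_insert_of_notMem, i7] at hL'
          · omega
          · intro h2
            have h3 := (mem_filter.1 h2).1
            obtain ⟨⟨_, r', hg'⟩, _⟩ := mem_tc.1 i1
            exact hh (hg'.edge_sub _ h3 h (Sym2.mem_mk_right z h))
        · rw [filter_insert, if_neg] at hL'
          · exact hzu (a5 z h1 hz' hL')
          · rw [Sym2.mem_iff]
            rintro (h2 | h2)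
            · exact hzu h2
            · exact hzh h2

/-- `c1` for cores with at most 16 vertices: no condition on the leaves -/
theorem c1s {C : Finset V} {EC : Finset (Sym2 V)} (hEC : ∀ e ∈ EC, ∀ x ∈ e, x ∈ C) (hc : Cn EC C)
    (hb : ∀ e ∈ EC, Cn (EC.erase e) C)
    {w : V → ℚ} (hw : ∀ v, 1 ≤ w v) {β : V → ℚ} (hβ0 : ∀ v, 0 ≤ β v)
    (hβ : ∀ v, β v ≤ w v / 2) (hC16 : C.card ≤ 16)
    (h1 : ∃ T ∈ tc C EC, T.1.card = 1) (h2 : ∃ T ∈ tc C EC, 2 ≤ T.1.card) {kb : ℚ}
    (hkb : ∑ T ∈ tc C EC, (∏ v ∈ T.1, w v) * ((T.1.card : ℚ) - kb) = 0) :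
    0 < ∑ T ∈ tc C EC, (∏ v ∈ T.1, w v) * (((T.1.card : ℚ) + ∑ v ∈ T.1, β v) * ((T.1.card : ℚ) - kb)) := by
  classical
  have hpos : ∀ S : Finset V, 0 < ∏ v ∈ S, w v := fun S =>
    prod_pos (fun i _ => lt_of_lt_of_le zero_lt_one (hw i))
  obtain ⟨X, hX⟩ : ∃ X : Finset V × Finset (Sym2 V) → ℚ, ∀ T, X T = (T.1.card : ℚ) - kb := ⟨_, fun _ => rfl⟩
  obtain ⟨W, hW⟩ : ∃ W : Finset V × Finset (Sym2 V) → ℚ, ∀ T, W T = ∏ v ∈ T.1, w v := ⟨_, fun _ => rfl⟩
  simp only [← hX, ← hW] at hkb ⊢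
  have hWpos : ∀ T, 0 < W T := fun T => by rw [hW]; exact hpos _
  -- the linear part
  have s1 : ∑ T ∈ tc C EC, W T * (((T.1.card : ℚ) + ∑ v ∈ T.1, β v) * X T) =
      ∑ T ∈ tc C EC, W T * X T ^ 2 + ∑ T ∈ tc C EC, W T * X T * ∑ v ∈ T.1, β v := by
    have e1 : ∀ T ∈ tc C EC, W T * (((T.1.card : ℚ) + ∑ v ∈ T.1, β v) * X T) =
        (W T * X T ^ 2 + W T * X T * ∑ v ∈ T.1, β v) + kb * (W T * X T) := by
      intro T _
      have : (T.1.card : ℚ) = X T + kb := by rw [hX]; ring
      rw [this]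
      ring
    rw [sum_congr rfl e1, sum_add_distrib, sum_add_distrib, ← mul_sum, hkb, mul_zero, add_zero]
  have s2 : ∑ T ∈ tc C EC, W T * X T * ∑ v ∈ T.1, β v =
      ∑ v ∈ C, β v * ∑ T ∈ (tc C EC).filter (fun T => v ∈ T.1), W T * X T := by
    have e1 : ∀ T ∈ tc C EC, W T * X T * ∑ v ∈ T.1, β v =
        ∑ v ∈ C, if v ∈ T.1 then β v * (W T * X T) else 0 := by
      intro T hT
      rw [mem_tc] at hT
      rw [← sum_filter, mul_sum]
      have e2 : C.filter (fun v => v ∈ T.1) = T.1 := by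
        ext v
        rw [mem_filter]
        exact ⟨fun h => h.2, fun h => ⟨hT.2 h, h⟩⟩
      rw [e2]
      apply sum_congr rfl
      intro v _
      ring
    rw [sum_congr rfl e1, sum_comm]
    apply sum_congr rfl
    intro v _
    rw [← sum_filter, mul_sum]
  have s3 : ∀ v, ∑ T ∈ (tc C EC).filter (fun T => v ∈ T.1), W T * X T =
      - ∑ T ∈ (tc C EC).filter (fun T => v ∉ T.1), W T * X T := by
    intro v
    have := sum_filter_add_sum_filter_not (tc C EC) (fun T => v ∈ T.1) (fun T => W T * X T)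
    rw [hkb] at this
    linarith
  -- the extensions
  have hPex : ∀ (v : V) (T : Finset V × Finset (Sym2 V)), ∃ P : Finset (Σ _ : Finset V × Finset (Sym2 V), ℕ),
      v ∈ C → T ∈ tc C EC → v ∉ T.1 → 2 ≤ P.card ∧ ∀ p ∈ P, Ext EC T v p.1 p.2 := by
    intro v T
    by_cases hh : v ∈ C ∧ T ∈ tc C EC ∧ v ∉ T.1
    · obtain ⟨P, hP⟩ := Nx_two hEC hc hb hh.1 T hh.2.1 hh.2.2
      exact ⟨P, fun _ _ _ => hP⟩
    · exact ⟨∅, fun a b c => absurd ⟨a, b, c⟩ hh⟩
  choose P hP using hPex
  obtain ⟨f, hf⟩ : ∃ f : ℕ → ℚ, ∀ k, f k = max ((k : ℚ) - kb) 0 := ⟨_, fun _ => rfl⟩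
  have hf0 : ∀ k, 0 ≤ f k := fun k => by rw [hf]; exact le_max_right _ _
  have hfm : ∀ k l : ℕ, k ≤ l → f k ≤ f l := by
    intro k l hkl
    rw [hf, hf]
    have : (k : ℚ) ≤ l := by exact_mod_cast hkl
    exact max_le_max (by linarith) le_rfl
  obtain ⟨Q, hQ⟩ : ∃ Q : Finset (Σ _ : V, Σ _ : Finset V × Finset (Sym2 V), Σ _ : Finset V × Finset (Sym2 V), ℕ),
    Q = C.sigma (fun v => ((tc C EC).filter (fun T => v ∉ T.1)).sigma (fun T => P v T)) := ⟨_, rfl⟩
  have hQm : ∀ q ∈ Q, q.1 ∈ C ∧ q.2.1 ∈ tc C EC ∧ q.1 ∉ q.2.1.1 ∧ Ext EC q.2.1 q.1 q.2.2.1 q.2.2.2 := by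
    intro q hq
    rw [hQ, mem_sigma, mem_sigma, mem_filter] at hq
    obtain ⟨q1, ⟨q2, q3⟩, q4⟩ := hq
    exact ⟨q1, q2, q3, (hP q.1 q.2.1 q1 q2 q3).2 _ q4⟩
  have hQm' : ∀ q ∈ Q, q.2.2.1 ∈ tc C EC := by
    intro q hq
    obtain ⟨q1, q2, q3, q4⟩ := hQm q hq
    exact (ext_props (Subset.refl EC) hEC q2 q4).1
  have hfib : ∀ T ∈ tc C EC, ∑ q ∈ Q.filter (fun q => q.2.2.1 = T), f q.2.1.1.card ≤ 4 * (max (X T) 0) ^ 2 := by
    intro T hT
    obtain ⟨Lv, hLv⟩ : ∃ Lv : Finset V, Lv = C.filter (fun v => Lf T v) := ⟨_, rfl⟩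
    have hFm : ∀ q ∈ Q.filter (fun q => q.2.2.1 = T), q.1 ∈ C ∧ q.2.1 ∈ tc C EC ∧ q.1 ∉ q.2.1.1 ∧
        Ext EC q.2.1 q.1 T q.2.2.2 := by
      intro q hq
      obtain ⟨hq1, hq2⟩ := mem_filter.1 hq
      have := hQm q hq1
      rw [hq2] at this
      exact this
    rcases Nat.lt_or_ge Lv.card 9 with hcase | hcase
    · -- few leaves
      have hsub : (Q.filter (fun q => q.2.2.1 = T)).image (fun q => (q.1, q.2.2.2)) ⊆ Lv ×ˢ Ico 1 T.1.card := by
        intro y hy
        obtain ⟨q, hq, rfl⟩ := mem_image.1 hy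
        obtain ⟨q1, q2, q3, q4⟩ := hFm q hq
        obtain ⟨p1, p2, p3, p4, p5, p6, p7⟩ := ext_props (Subset.refl EC) hEC q2 q4
        have p8 := card_pos_tc q2
        rw [mem_product, hLv, mem_filter, mem_Ico]
        exact ⟨⟨q1, p7⟩, p6, by show q.2.2.2 < T.1.card; omega⟩
      have hinj : Set.InjOn (fun q : (Σ _ : V, Σ _ : Finset V × Finset (Sym2 V), Σ _ : Finset V × Finset (Sym2 V), ℕ) =>
          (q.1, q.2.2.2)) ((Q.filter (fun q => q.2.2.1 = T) : Finset _) : Set _) := by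
        intro q hq q' hq' he
        obtain ⟨q1, q2, q3, q4⟩ := hFm q hq
        obtain ⟨r1, r2, r3, r4⟩ := hFm q' hq'
        have t1 := (mem_filter.1 (mem_coe.1 hq)).2
        have t2 := (mem_filter.1 (mem_coe.1 hq')).2
        obtain ⟨v, S, T1, d⟩ := q
        obtain ⟨v', S', T1', d'⟩ := q'
        simp only at he q2 q4 r2 r4 t1 t2
        have e1 : v = v' := congrArg Prod.fst he
        have e2 : d = d' := congrArg Prod.snd he
        subst e1
        subst e2
        have e3 := ext_unique hEC q2 r2 q4 r4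
        subst e3
        rw [t1, t2]
      calc ∑ q ∈ Q.filter (fun q => q.2.2.1 = T), f q.2.1.1.card
          = ∑ q ∈ Q.filter (fun q => q.2.2.1 = T), (fun y : V × ℕ => f (T.1.card - y.2)) (q.1, q.2.2.2) := by
            apply sum_congr rfl
            intro q hq
            obtain ⟨q1, q2, q3, q4⟩ := hFm q hq
            obtain ⟨p1, p2, p3, p4, p5, p6, p7⟩ := ext_props (Subset.refl EC) hEC q2 q4
            show f q.2.1.1.card = f (T.1.card - q.2.2.2)
            rw [p5, Nat.add_sub_cancel]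
        _ = ∑ y ∈ (Q.filter (fun q => q.2.2.1 = T)).image (fun q => (q.1, q.2.2.2)), f (T.1.card - y.2) :=
            (sum_image (f := fun y : V × ℕ => f (T.1.card - y.2)) hinj).symm
        _ ≤ ∑ y ∈ Lv ×ˢ Ico 1 T.1.card, f (T.1.card - y.2) :=
            sum_le_sum_of_subset_of_nonneg hsub (fun _ _ _ => hf0 _)
        _ = Lv.card * ∑ d ∈ Ico 1 T.1.card, f (T.1.card - d) := by
            rw [sum_product]
            show ∑ _x ∈ Lv, ∑ y ∈ Ico 1 T.1.card, f (T.1.card - y) = _
            rw [sum_const, nsmul_eq_mul]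
        _ ≤ 8 * ((max (X T) 0) ^ 2 / 2) := by
            have e3 : ∑ d ∈ Ico 1 T.1.card, f (T.1.card - d) =
                ∑ d ∈ Ico 1 T.1.card, max (X T - (d : ℚ)) 0 := by
              apply sum_congr rfl
              intro d hd
              rw [mem_Ico] at hd
              rw [hf, Nat.cast_sub hd.2.le, hX]
              congr 1
              ring
            have e4 := psum (X T) T.1.card
            rw [e3]
            have e5 : (Lv.card : ℚ) ≤ 8 := by exact_mod_cast (by omega : Lv.card ≤ 8)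
            have e6 : 0 ≤ ∑ d ∈ Ico 1 T.1.card, max (X T - (d : ℚ)) 0 :=
              sum_nonneg (fun _ _ => le_max_right _ _)
            exact mul_le_mul e5 e4 e6 (by norm_num)
        _ = 4 * (max (X T) 0) ^ 2 := by ring
    · -- many leaves
      have hfirst : ∀ q : (Σ _ : V, Σ _ : Finset V × Finset (Sym2 V), Σ _ : Finset V × Finset (Sym2 V), ℕ),
          ∃ a : V, q ∈ Q.filter (fun q => q.2.2.1 = T) → a ∈ T.1 ∧ a ∉ q.2.1.1 ∧
            ∀ p z, s(p, z) ∈ T.2 → p ∈ q.2.1.1 → z ∈ q.2.1.1 ∨ z = a := by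
        intro q
        by_cases hq : q ∈ Q.filter (fun q => q.2.2.1 = T)
        · obtain ⟨q1, q2, q3, q4⟩ := hFm q hq
          obtain ⟨⟨a, a1, a2, a3⟩, _, _⟩ := S1_first hEC q2 q4
          exact ⟨a, fun _ => ⟨a1, a2, a3⟩⟩
        · exact ⟨q.1, fun h => absurd h hq⟩
      choose Φ hΦ using hfirst
      have hinj : Set.InjOn Φ ((Q.filter (fun q => q.2.2.1 = T) : Finset _) : Set _) := by
        intro q hq q' hq' he
        obtain ⟨q1, q2, q3, q4⟩ := hFm q hq
        obtain ⟨r1, r2, r3, r4⟩ := hFm q' hq'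
        obtain ⟨b1, b2, b3⟩ := hΦ q hq
        obtain ⟨c1, c2, c3⟩ := hΦ q' hq'
        rw [← he] at c1 c2 c3
        obtain ⟨_, f2, f3⟩ := S1_first hEC q2 q4
        obtain ⟨_, g2, g3⟩ := S1_first hEC r2 r4
        obtain ⟨i1, i2, i3, i4, i5, i6, i7⟩ := ext_props (Subset.refl EC) hEC q2 q4
        obtain ⟨j1, j2, j3, j4, j5, j6, j7⟩ := ext_props (Subset.refl EC) hEC r2 r4
        obtain ⟨⟨_, ρ, hg⟩, _⟩ := mem_tc.1 q2
        obtain ⟨⟨_, ρ', hg'⟩, _⟩ := mem_tc.1 r2
        obtain ⟨⟨_, ρ'', hg''⟩, hTC⟩ := mem_tc.1 hT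
        -- a common vertex
        obtain ⟨x, m2, n2⟩ : ∃ x, x ∈ q.2.1.1 ∧ x ∈ q'.2.1.1 := by
          by_contra hcon
          push Not at hcon
          have hLsub : Lv ⊆ {q.1, q'.1} := by
            intro z hz
            rw [hLv, mem_filter] at hz
            have hzT : z ∈ T.1 := by
              have h3 : 0 < (T.2.filter (fun e => z ∈ e)).card := by
                have h4 : (T.2.filter (fun e => z ∈ e)).card = 1 := hz.2
                omega
              obtain ⟨e, he2⟩ := card_pos.1 h3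
              exact hg''.edge_sub e (mem_filter.1 he2).1 z (mem_filter.1 he2).2
            rw [mem_insert, mem_singleton]
            by_cases hzq : z ∈ q.2.1.1
            · exact Or.inr (g3 z hzT (hcon z hzq) hz.2)
            · exact Or.inl (f3 z hzT hzq hz.2)
          have h5 := card_le_card hLsub
          have h6 : ({q.1, q'.1} : Finset V).card ≤ 2 := card_le_two
          omega
        have s1' : ∀ v ∈ q.2.1.1, v ∈ q'.2.1.1 := by
          refine S1_sub hg (fun v => v ∈ q'.2.1.1) ?_ x m2 n2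
          intro p z hpz hp hp'
          have hpz' : s(p, z) ∈ T.2 := by
            rw [← f2] at hpz
            exact (mem_filter.1 hpz).1
          rcases c3 p z hpz' hp' with h1 | h1
          · exact h1
          · exfalso
            apply b2
            rw [← h1]
            exact hg.edge_sub _ hpz z (Sym2.mem_mk_right p z)
        have s2' : ∀ v ∈ q'.2.1.1, v ∈ q.2.1.1 := by
          refine S1_sub hg' (fun v => v ∈ q.2.1.1) ?_ x n2 m2
          intro p z hpz hp hp'
          have hpz' : s(p, z) ∈ T.2 := by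
            rw [← g2] at hpz
            exact (mem_filter.1 hpz).1
          rcases b3 p z hpz' hp' with h1 | h1
          · exact h1
          · exfalso
            apply c2
            rw [← h1]
            exact hg'.edge_sub _ hpz z (Sym2.mem_mk_right p z)
        have e1 : q.2.1.1 = q'.2.1.1 := Finset.ext fun v => ⟨s1' v, s2' v⟩
        have e2 : q.2.1.2 = q'.2.1.2 := by
          rw [← f2, ← g2, e1]
        have e3 : q.2.1 = q'.2.1 := Prod.ext e1 e2
        have e4 : q.1 = q'.1 := g3 _ i3 (fun h1 => i4 (e1 ▸ h1)) i7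
        have e5 : q.2.2.2 = q'.2.2.2 := by
          rw [e1] at i5
          omega
        have t1 := (mem_filter.1 (mem_coe.1 hq)).2
        have t2 := (mem_filter.1 (mem_coe.1 hq')).2
        obtain ⟨v, S, T1, d⟩ := q
        obtain ⟨v', S', T1', d'⟩ := q'
        simp only at e3 e4 e5 t1 t2
        rw [e3, e4, e5, t1, t2]
      have hcardT : T.1.card ≤ 16 := (card_le_card (mem_tc.1 hT).2).trans hC16
      have hcnt : (Q.filter (fun q => q.2.2.1 = T)).card ≤ T.1.card :=
        card_le_card_of_injOn Φ (fun q hq => (hΦ q hq).1) hinj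
      have hsum : ∑ q ∈ Q.filter (fun q => q.2.2.1 = T), f q.2.1.1.card ≤
          ∑ q ∈ Q.filter (fun q => q.2.2.1 = T), f (T.1.card - 1) := by
        apply sum_le_sum
        intro q hq
        obtain ⟨q1, q2, q3, q4⟩ := hFm q hq
        obtain ⟨p1, p2, p3, p4, p5, p6, p7⟩ := ext_props (Subset.refl EC) hEC q2 q4
        exact hfm _ _ (by omega)
      rw [sum_const, nsmul_eq_mul] at hsum
      have hN16 : ((Q.filter (fun q => q.2.2.1 = T)).card : ℚ) ≤ 16 := by exact_mod_cast hcnt.trans hcardT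
      have hT1 := card_pos_tc hT
      have hfT : f (T.1.card - 1) = max (X T - 1) 0 := by
        rw [hf, hX, Nat.cast_sub hT1]
        congr 1
        push_cast
        ring
      rw [hfT] at hsum
      have hle : ((Q.filter (fun q => q.2.2.1 = T)).card : ℚ) * max (X T - 1) 0 ≤ 16 * max (X T - 1) 0 :=
        mul_le_mul_of_nonneg_right hN16 (le_max_right _ _)
      refine hsum.trans (hle.trans ?_)
      rcases le_total (X T - 1) 0 with h0 | h0
      · rw [max_eq_right h0]
        have := sq_nonneg (max (X T) 0)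
        linarith
      · rw [max_eq_left h0, max_eq_left (by linarith : (0 : ℚ) ≤ X T)]
        nlinarith [sq_nonneg (X T - 2)]
  have hprod : ∀ (h : V) (S S' : Finset V), S ⊆ S' → h ∈ S' → h ∉ S → w h * ∏ v ∈ S, w v ≤ ∏ v ∈ S', w v := by
    intro h S S' h1 h2 h3
    have h4 : insert h S ⊆ S' := insert_subset h2 h1
    have h5 : ∀ s : Finset V, 1 ≤ ∏ v ∈ s, w v := fun s =>
      Finset.prod_induction w (fun x => 1 ≤ x) (fun a b ha hb => one_le_mul_of_one_le_of_one_le ha hb)
        le_rfl (fun v _ => hw v)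
    rw [← prod_insert h3, ← prod_sdiff h4]
    have h6 := h5 (insert h S)
    have h7 := h5 (S' \ insert h S)
    nlinarith
  have s4 : ∀ v ∈ C, β v * ∑ T ∈ (tc C EC).filter (fun T => v ∉ T.1), W T * X T ≤
      ∑ T ∈ (tc C EC).filter (fun T => v ∉ T.1), ∑ p ∈ P v T, W p.1 * f T.1.card / 4 := by
    intro v hv
    rw [mul_sum]
    apply sum_le_sum
    intro T hT
    obtain ⟨hT1, hT2⟩ := mem_filter.1 hT
    obtain ⟨hP1, hP2⟩ := hP v T hv hT1 hT2
    have a1 : ∀ p ∈ P v T, w v * W T * f T.1.card / 4 ≤ W p.1 * f T.1.card / 4 := by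
      intro p hp
      obtain ⟨p1, p2, p3, p4, p5, p6, p7⟩ := ext_props (Subset.refl EC) hEC hT1 (hP2 p hp)
      have a2 := hprod v _ _ p2 p3 p4
      rw [← hW, ← hW] at a2
      have a3 := mul_le_mul_of_nonneg_right a2 (hf0 T.1.card)
      linarith
    have a4 := sum_le_sum a1
    rw [sum_const, nsmul_eq_mul] at a4
    refine le_trans ?_ a4
    have a5 : (2 : ℚ) ≤ ((P v T).card : ℚ) := by exact_mod_cast hP1
    have a6 : X T ≤ f T.1.card := by rw [hf, hX]; exact le_max_left _ _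
    have a7 := hf0 T.1.card
    have a8 := hWpos T
    have a9 := hβ v
    have a10 := hβ0 v
    have a11 : 0 ≤ w v * W T * f T.1.card / 4 := by
      have : 0 ≤ w v := by linarith [hw v]
      positivity
    have a12 := mul_le_mul_of_nonneg_right a5 a11
    have a13 : W T * X T ≤ W T * f T.1.card := mul_le_mul_of_nonneg_left a6 a8.le
    have a14 : 0 ≤ W T * f T.1.card := mul_nonneg a8.le a7
    calc β v * (W T * X T) ≤ β v * (W T * f T.1.card) := mul_le_mul_of_nonneg_left a13 a10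
      _ ≤ w v / 2 * (W T * f T.1.card) := mul_le_mul_of_nonneg_right a9 a14
      _ = 2 * (w v * W T * f T.1.card / 4) := by ring
      _ ≤ _ := a12
  have s5 : ∑ v ∈ C, β v * ∑ T ∈ (tc C EC).filter (fun T => v ∉ T.1), W T * X T ≤
      ∑ T ∈ tc C EC, W T * (max (X T) 0) ^ 2 := by
    refine (sum_le_sum s4).trans ?_
    have b1 : ∑ v ∈ C, ∑ T ∈ (tc C EC).filter (fun T => v ∉ T.1), ∑ p ∈ P v T, W p.1 * f T.1.card / 4 =
        ∑ q ∈ Q, W q.2.2.1 * f q.2.1.1.card / 4 := by
      rw [hQ, sum_sigma]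
      apply sum_congr rfl
      intro v _
      rw [sum_sigma]
    rw [b1, ← sum_fiberwise_of_maps_to (s := Q) (t := tc C EC) (g := fun q => q.2.2.1) hQm']
    apply sum_le_sum
    intro T hT
    have b2 : ∑ q ∈ Q.filter (fun q => q.2.2.1 = T), W q.2.2.1 * f q.2.1.1.card / 4 =
        W T / 4 * ∑ q ∈ Q.filter (fun q => q.2.2.1 = T), f q.2.1.1.card := by
      rw [mul_sum]
      apply sum_congr rfl
      intro q hq
      rw [(mem_filter.1 hq).2]
      ring
    rw [b2]
    have b3 := hfib T hT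
    have b4 := hWpos T
    have b5 := mul_le_mul_of_nonneg_left b3 (by positivity : (0 : ℚ) ≤ W T / 4)
    linarith
  have s6 : ∑ v ∈ C, β v * ∑ T ∈ (tc C EC).filter (fun T => v ∈ T.1), W T * X T =
      - ∑ v ∈ C, β v * ∑ T ∈ (tc C EC).filter (fun T => v ∉ T.1), W T * X T := by
    rw [← sum_neg_distrib]
    apply sum_congr rfl
    intro v _
    rw [s3 v]
    ring
  have s7 : ∀ T, W T * X T ^ 2 - W T * (max (X T) 0) ^ 2 = W T * (min (X T) 0) ^ 2 := by
    intro T
    rcases le_total 0 (X T) with h | h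
    · rw [max_eq_left h, min_eq_right h]; ring
    · rw [max_eq_right h, min_eq_left h]; ring
  have s8 : 0 < ∑ T ∈ tc C EC, W T * (min (X T) 0) ^ 2 := by
    obtain ⟨T1, hT1, hk1⟩ := h1
    obtain ⟨T2, hT2, hk2⟩ := h2
    have hneg : X T1 < 0 := by
      by_contra hcon
      push Not at hcon
      have hkb1 : kb ≤ 1 := by
        rw [hX, hk1] at hcon
        push_cast at hcon
        linarith
      have hall : ∀ T ∈ tc C EC, 0 ≤ W T * X T := by
        intro T hT
        have := card_pos_tc hT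
        have h3 : (1 : ℚ) ≤ T.1.card := by exact_mod_cast this
        apply mul_nonneg (hWpos T).le
        rw [hX]
        linarith
      have h4 : 0 < W T2 * X T2 := by
        apply mul_pos (hWpos T2)
        rw [hX]
        have : (2 : ℚ) ≤ T2.1.card := by exact_mod_cast hk2
        linarith
      have h5 := sum_pos' hall ⟨T2, hT2, h4⟩
      linarith
    apply sum_pos'
    · intro T _
      have := hWpos T
      positivity
    · refine ⟨T1, hT1, ?_⟩
      rw [min_eq_left hneg.le]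
      have := hWpos T1
      have h6 : 0 < X T1 ^ 2 := by nlinarith
      exact mul_pos this h6
  have s9 : ∑ T ∈ tc C EC, W T * X T ^ 2 - ∑ T ∈ tc C EC, W T * (max (X T) 0) ^ 2 =
      ∑ T ∈ tc C EC, W T * (min (X T) 0) ^ 2 := by
    rw [← sum_sub_distrib]
    exact sum_congr rfl (fun T _ => s7 T)
  rw [s1, s2, s6]
  linarith


end Pool.Agent.LibMC91
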